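import Mathlib.Analysis.Calculus.ContDiff.Defs
import Pool.Agent.MP_ddaf7c_pr.Defs
import Pool.Agent.MP_ddaf7c_pr.Argmax

set_option autoImplicit false

namespace Pool.Agent.MP_ddaf7c_pr.K

open Finset Real MeasureTheory

/-! ## The differential system -/

/-- quadratic term of the one-colour equation -/
def V1 (f : ℕ → ℝ) (k : ℕ) : ℝ := ∑ p ∈ antidiagonal k, (p.1 : ℝ) * f p.1 * f p.2

/-- transport and source terms of the two-colour equation -/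
def V2 (f : ℕ → ℝ) (g : ℕ → ℕ → ℝ) (a b : ℕ) : ℝ :=
  ∑ p ∈ antidiagonal a, (p.1 : ℝ) * g p.1 b * f p.2 +
    ∑ p ∈ antidiagonal b, (p.1 : ℝ) * g a p.1 * f p.2 + f a * f b

/-- a solution of the system; `κ t` and `B t` are the arrays at time `t` -/
structure Sol where
  κ : ℝ → ℕ → ℝ
  B : ℝ → ℕ → ℕ → ℝ
  κz : ∀ t, κ t 0 = 0
  Bl : ∀ t b, B t 0 b = 0
  Br : ∀ t a, B t a 0 = 0
  κi : ∀ k, κ 0 k = if k = 1 then 1 else 0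
  Bi : ∀ a b, B 0 a b = 0
  dκ : ∀ k t, HasDerivAt (fun τ => κ τ k) ((k : ℝ) ^ 2 / 2 * κ t k + V1 (κ t) k) t
  dB : ∀ a b t, HasDerivAt (fun τ => B τ a b)
    (((a : ℝ) + b) ^ 2 / 2 * B t a b + V2 (κ t) (B t) a b) t
  κp : ∀ t, 0 ≤ t → ∀ k, 0 ≤ κ t k
  Bp : ∀ t, 0 ≤ t → ∀ a b, 0 ≤ B t a b

def EX : Prop := Nonempty Sol

/-! ## Part A: the moment cone -/

/-- the sequence `x ^ (s - 1)`, `s ≥ 1` -/
def atm (x : ℝ) (s : ℕ) : ℝ := if s = 0 then 0 else x ^ (s - 1)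

def A1 (f : ℕ → ℝ) : Prop :=
  ∃ (ι : Type) (_ : Fintype ι) (m x : ι → ℝ), (∀ i, 0 ≤ m i ∧ 0 ≤ x i) ∧
    ∀ s, f s = ∑ i, m i * atm (x i) s

def A2 (g : ℕ → ℕ → ℝ) : Prop :=
  ∃ (ι : Type) (_ : Fintype ι) (m x y : ι → ℝ), (∀ i, 0 ≤ m i ∧ 0 ≤ x i ∧ 0 ≤ y i) ∧
    ∀ a b, g a b = ∑ i, m i * atm (x i) a * atm (y i) b

/-- `cc δ f s m` is the coefficient of `X ^ m` in `(X / (1 - δ f(X))) ^ s` -/
noncomputable def cc (δ : ℝ) (f : ℕ → ℝ) : ℕ → ℕ → ℝ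
  | 0, m => if m = 0 then 1 else 0
  | _ + 1, 0 => 0
  | s + 1, m + 1 => cc δ f s m + δ * ∑ j : Fin (m + 1), f (m - j + 1) * cc δ f (s + 1) j
termination_by _ m => m
decreasing_by
  · omega
  · exact j.isLt

noncomputable def stepF (δ : ℝ) (f : ℕ → ℝ) (m : ℕ) : ℝ :=
  cosh (√δ * m) * ∑ s ∈ range (m + 1), f s * cc δ f s m

noncomputable def stepG (δ : ℝ) (f : ℕ → ℝ) (g : ℕ → ℕ → ℝ) (a b : ℕ) : ℝ :=
  cosh (√δ * (a + b)) *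
      ∑ s ∈ range (a + 1), ∑ r ∈ range (b + 1), g s r * cc δ f s a * cc δ f r b +
    δ * f a * f b

def ATOM : Prop := ∀ (f : ℕ → ℝ) (x δ : ℝ), A1 f → 0 ≤ x → 0 ≤ δ →
  A1 (fun m => ∑ s ∈ range (m + 1), atm x s * cc δ f s m)

def STEPA : Prop := ∀ (f : ℕ → ℝ) (g : ℕ → ℕ → ℝ) (δ : ℝ), A1 f → A2 g → 0 ≤ δ →
  A1 (stepF δ f) ∧ A2 (stepG δ f g)

def STEPD : Prop := ∀ (f : ℕ → ℝ) (g : ℕ → ℕ → ℝ), f 0 = 0 → (∀ b, g 0 b = 0) → (∀ a, g a 0 = 0) →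
  (∀ m, stepF 0 f m = f m ∧
    HasDerivWithinAt (fun δ => stepF δ f m) ((m : ℝ) ^ 2 / 2 * f m + V1 f m) (Set.Ici 0) 0) ∧
  ∀ a b, stepG 0 f g a b = g a b ∧
    HasDerivWithinAt (fun δ => stepG δ f g a b)
      (((a : ℝ) + b) ^ 2 / 2 * g a b + V2 f g a b) (Set.Ici 0) 0

def STEPC : Prop := ∀ δ : ℝ,
  (∀ s m, Continuous fun f : ℕ → ℝ => cc δ f s m) ∧
  ∀ (f f' : ℕ → ℝ) (s m : ℕ), (∀ i ≤ m, f i = f' i) → cc δ f s m = cc δ f' s m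

def NAG : Prop := ∀ (E : Type) [NormedAddCommGroup E] [NormedSpace ℝ E] [FiniteDimensional ℝ E]
  (K : Set E) (V : E → E) (x : ℝ → E), IsClosed K → ContDiff ℝ 1 V →
  (∀ t, HasDerivAt x (V (x t)) t) → x 0 ∈ K →
  (∀ z ∈ K, ∃ e : ℝ → E, e 0 = z ∧ (∀ δ, 0 ≤ δ → e δ ∈ K) ∧
    HasDerivWithinAt e (V z) (Set.Ici 0) 0) →
  ∀ t, 0 ≤ t → x t ∈ K

/-- the split array is smallest in the middle -/
def MID : Prop := ∀ (S : Sol) (t : ℝ), 0 ≤ t → ∀ n a b : ℕ, 1 ≤ a → 1 ≤ b → a + b = 2 * n →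
  2 * S.B t n n ≤ S.B t a b + S.B t b a

/-! ## Part B: test functions -/

noncomputable def wt (M k : ℕ) (t : ℝ) : ℝ :=
  (M.descFactorial k : ℝ) * exp ((k : ℝ) ^ 2 * t / 2 - t * k * M)

noncomputable def I1 (S : Sol) (M : ℕ) (φ : ℕ → ℝ) (t : ℝ) : ℝ :=
  ∑ k ∈ range (M + 1), wt M k t * S.κ t k * φ k

noncomputable def I2 (S : Sol) (M : ℕ) (φ : ℕ → ℕ → ℝ) (t : ℝ) : ℝ :=
  ∑ a ∈ range (M + 1), ∑ b ∈ range (M + 1), wt M (a + b) t * S.B t a b * φ a b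

def MASS : Prop := ∀ (S : Sol) (M : ℕ) (t : ℝ), I1 S M (fun _ => 1) t = M

def GEN1 : Prop := ∀ (S : Sol) (M : ℕ) (φ : ℝ → ℕ → ℝ) (φ' : ℕ → ℝ) (t : ℝ),
  (∀ k, HasDerivAt (fun τ => φ τ k) (φ' k) t) →
  HasDerivAt (fun τ => I1 S M (φ τ) τ)
    (I1 S M (fun k => φ' k + k * I1 S (M - k) (fun s => φ t (k + s) - φ t k) t) t) t

def GEN2 : Prop := ∀ (S : Sol) (M : ℕ) (φ : ℝ → ℕ → ℕ → ℝ) (φ' : ℕ → ℕ → ℝ) (t : ℝ),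
  (∀ a b, HasDerivAt (fun τ => φ τ a b) (φ' a b) t) →
  HasDerivAt (fun τ => I2 S M (φ τ) τ)
    (I2 S M (fun a b => φ' a b +
        a * I1 S (M - (a + b)) (fun s => φ t (a + s) b - φ t a b) t +
        b * I1 S (M - (a + b)) (fun s => φ t a (b + s) - φ t a b) t) t +
      I1 S M (fun a => I1 S (M - a) (fun b => φ t a b) t) t) t

/-- the characteristic -/
def th (N : ℕ) (ε t0 t : ℝ) : ℝ := 4 * ε ^ 2 + 4 * ε * N * (t0 - t)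

def LAM : Prop := ∀ (S : Sol) (N : ℕ) (ε t0 : ℝ), 0 ≤ ε → N * t0 = 1 + ε →
  ∀ M ≤ N, ∀ t, 0 ≤ t → t ≤ t0 →
    I1 S M (fun k => 1 - exp (-(th N ε t0 t * k))) t ≤ 4 * ε * N

def TWO : Prop := ∀ (S : Sol) (N : ℕ) (ε t0 : ℝ), 0 ≤ ε → N * t0 = 1 + ε →
  I2 S N (fun a b => (1 - exp (-(4 * ε ^ 2 * a))) * (1 - exp (-(4 * ε ^ 2 * b)))) t0 ≤
    t0 * (4 * ε * N) ^ 2

def SUB : Prop := ∀ (S : Sol) (M : ℕ) (t : ℝ), 0 ≤ t → M * t < 1 →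
  I2 S M (fun a b => (a : ℝ) * b) t + I1 S M (fun k => (k : ℝ)) t ≤ M / (1 - M * t) ^ 2

def CRUDE : Prop := ∀ (S : Sol) (M : ℕ) (t : ℝ), 0 ≤ t →
  I2 S M (fun _ _ => 1) t ≤ (M : ℝ) ^ 2 * t

def GAP : Prop := ∀ (N d k : ℕ) (μ t : ℝ), 0 < μ → μ ≤ 1 → 1 + μ ≤ N * t → d * t ≤ μ / 8 →
  1 - μ / 8 ≤ ((N : ℝ) - k) * t →
  d ≤ N ∧ wt N k t ≤ exp (-(d * k * μ / (5 * N))) * wt (N - d) k t

def BIG : Prop := ∀ (S : Sol) (N : ℕ) (μ t : ℝ), 0 < μ → μ = min (N * t - 1) 1 →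
  1 ≤ 2 * μ ^ 3 * N →
  I1 S N (fun s => if ((N : ℝ) - s) * t < 1 - μ / 8 then 1 / (s : ℝ) else 0) t ≤ 16

/-- the potential: mean tree distance summed over the clusters of size at least `K` -/
noncomputable def Psi (S : Sol) (N : ℕ) (K t : ℝ) : ℝ :=
  I2 S N (fun a b => if K ≤ (a : ℝ) + b then (a : ℝ) * b / ((a : ℝ) + b) ^ 2 else 0) t

def INIT : Prop := ∀ (S : Sol) (N : ℕ) (ε t0 : ℝ), 0 < ε → ε ≤ 1 → 1 ≤ ε ^ 3 * N →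
  N * t0 = 1 + ε → Psi S N (ε * N / 2) t0 ≤ 128 * ε ^ 2 * N

/-- first reduction of the derivative of `Psi` -/
def DER1 : Prop := ∀ (S : Sol) (N : ℕ) (K t : ℝ), 0 ≤ t → 0 < K → ∃ D : ℝ,
  HasDerivAt (fun τ => Psi S N K τ) D t ∧
  D ≤ 2 * I1 S N (fun s => if K / 2 ≤ (s : ℝ) then 1 / (s : ℝ) *
        (I2 S (N - s) (fun a b => (a : ℝ) * b) t + I1 S (N - s) (fun k => (k : ℝ)) t) else 0) t +
      2 * (N : ℝ) ^ 3 *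
        I2 S N (fun a b => if K / 2 ≤ (a : ℝ) + b ∧ (a : ℝ) + b < K then 1 else 0) t

def DER : Prop := ∀ (S : Sol) (N d : ℕ) (ε t : ℝ), 0 < ε → ε ≤ 1 → 1 ≤ ε ^ 3 * N →
  1 + ε ≤ N * t → t ≤ 1 → d * t ≤ ε / 8 → ∃ D : ℝ,
  HasDerivAt (fun τ => Psi S N (ε * N / 2) τ) D t ∧
  D ≤ 2048 * (N / (N * t - 1) ^ 2 + N) + 6 * (N : ℝ) ^ 5 * exp (-(d * ε ^ 2 / 20))

/-- expected number of ordered balanced cuts crossed once, at time `t` -/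
noncomputable def zz (S : Sol) (n : ℕ) (t : ℝ) : ℝ := wt (2 * n) (2 * n) t * S.B t n n

def TAIL : Prop := ∀ (S : Sol) (n : ℕ) (t1 t : ℝ), 2 ≤ n → 0 ≤ t1 → t1 ≤ t →
  (2 * n : ℝ) * exp (-(t1 * n)) ≤ 1 →
  zz S n t ≤ zz S n t1 + 2 * (2 * n : ℝ) ^ 5 * exp (-(t1 * n / 2))

def ZPSI : Prop := ∀ (S : Sol) (n : ℕ) (K t : ℝ), 1 ≤ n → 0 ≤ t → K ≤ 2 * n →
  zz S n t ≤ 4 / n * Psi S (2 * n) K t

/-- the final bound -/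
noncomputable def bnd (N d : ℕ) (ε t1 : ℝ) : ℝ :=
  8 / N * (128 * ε ^ 2 * N + 2048 * (1 / ε + N * t1) +
    6 * (N : ℝ) ^ 5 * exp (-(d * ε ^ 2 / 20))) + 2 * (N : ℝ) ^ 5 * exp (-(t1 * N / 4))

/-- admissible parameters -/
def Adm (N d : ℕ) (ε t1 : ℝ) : Prop :=
  4 ≤ N ∧ 0 < ε ∧ ε ≤ 1 ∧ 1 ≤ ε ^ 3 * N ∧ 1 + ε ≤ N * t1 ∧ t1 ≤ 1 ∧ d * t1 ≤ ε / 8 ∧
    N * exp (-(t1 * N / 2)) ≤ 1

def CORE : Prop := ∀ (S : Sol) (n d : ℕ) (ε t1 t : ℝ), Adm (2 * n) d ε t1 → t1 ≤ t →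
  zz S n t ≤ bnd (2 * n) d ε t1

def ASY : Prop := ∀ η : ℝ, 0 < η → ∃ N0 : ℕ, ∀ N ≥ N0, ∃ (d : ℕ) (ε t1 : ℝ),
  Adm N d ε t1 ∧ bnd N d ε t1 ≤ (N : ℝ) ^ (-(2 / 3 : ℝ) + η)

/-! ## Part C: Kruskal predicates -/

section
variable {V : Type} [DecidableEq V]

/-- `S` is built by accepted edges of weight at most `u` -/
inductive Kr (ω : V → V → ℝ) : Finset V → ℝ → Prop
  | one (v : V) (u : ℝ) : Kr ω {v} u
  | join (A B : Finset V) (x y : V) (u : ℝ) : Disjoint A B → x ∈ A → y ∈ B → ω x y ≤ u →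
      Kr ω A (ω x y) → Kr ω B (ω x y) →
      (∀ p ∈ A, ∀ q ∈ B, (p, q) ≠ (x, y) → ω x y < ω p q) → Kr ω (A ∪ B) u

/-- `A ∪ B` is built by accepted edges of weight at most `u`, exactly one from `A` to `B` -/
inductive Kr2 (ω : V → V → ℝ) : Finset V → Finset V → ℝ → Prop
  | cross (A B : Finset V) (x y : V) (u : ℝ) : Disjoint A B → x ∈ A → y ∈ B → ω x y ≤ u →
      Kr ω A (ω x y) → Kr ω B (ω x y) →
      (∀ p ∈ A, ∀ q ∈ B, (p, q) ≠ (x, y) → ω x y < ω p q) → Kr2 ω A B u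
  | left (R A B : Finset V) (x y : V) (u : ℝ) : Disjoint R (A ∪ B) → x ∈ R → y ∈ A →
      ω x y ≤ u → Kr ω R (ω x y) → Kr2 ω A B (ω x y) →
      (∀ p ∈ R, ∀ q ∈ A ∪ B, (p, q) ≠ (x, y) → ω x y < ω p q) → Kr2 ω (R ∪ A) B u
  | right (R A B : Finset V) (x y : V) (u : ℝ) : Disjoint R (A ∪ B) → x ∈ R → y ∈ B →
      ω x y ≤ u → Kr ω R (ω x y) → Kr2 ω A B (ω x y) →
      (∀ p ∈ R, ∀ q ∈ A ∪ B, (p, q) ≠ (x, y) → ω x y < ω p q) → Kr2 ω A (R ∪ B) u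

/-- the last accepted edge `x y` from `A` to `B` has weight in `(u, u']` -/
def Blk (ω : V → V → ℝ) (A B : Finset V) (x y : V) (u u' : ℝ) : Prop :=
  u < ω x y ∧ ω x y ≤ u' ∧ ∀ p ∈ A, ∀ q ∈ B, (p, q) ≠ (x, y) → u < ω p q

end

/-- the edges of the complete graph -/
abbrev Ed (N : ℕ) : Type := (⊤ : SimpleGraph (Fin N)).edgeSet

/-- the weight of a pair of vertices -/
noncomputable def W {N : ℕ} (w : Ed N → ℝ) (x y : Fin N) : ℝ :=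
  if h : x ≠ y then w ⟨s(x, y), h⟩ else 0

open scoped Classical in
/-- probability under independent uniform weights -/
noncomputable def Pr (N : ℕ) (E : Set (Ed N → ℝ)) : ℝ :=
  (Measure.pi (fun _ : Ed N => volume.restrict (Set.Icc (0 : ℝ) 1))).real E

/-- the event depends only on the weights inside `A` -/
def Dep {N : ℕ} (A : Finset (Fin N)) (E : Set (Ed N → ℝ)) : Prop :=
  ∀ w w' : Ed N → ℝ, (∀ p ∈ A, ∀ q ∈ A, W w p q = W w' p q) → w ∈ E → w' ∈ E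

def KINV : Prop := ∀ (N : ℕ) (ω : Fin N → Fin N → ℝ), (∀ x y, ω x y = ω y x) →
  (∀ A u u', u ≤ u' → Kr ω A u → Kr ω A u') ∧
  (∀ A B u u', u ≤ u' → Kr2 ω A B u → Kr2 ω A B u') ∧
  (∀ (ω' : Fin N → Fin N → ℝ) A u, (∀ p ∈ A, ∀ q ∈ A, ω p q = ω' p q) → Kr ω A u → Kr ω' A u) ∧
  (∀ (ω' : Fin N → Fin N → ℝ) A B u, (∀ p ∈ A ∪ B, ∀ q ∈ A ∪ B, ω p q = ω' p q) →
    Kr2 ω A B u → Kr2 ω' A B u) ∧
  (∀ A u, Kr ω A u → 2 ≤ A.card → ∃ x y, x ≠ y ∧ ω x y ≤ u) ∧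
  (∀ A B u, Kr2 ω A B u → A.Nonempty ∧ B.Nonempty ∧ Disjoint A B ∧ ∃ x y, x ≠ y ∧ ω x y ≤ u) ∧
  (∀ A u u' r, r ∈ A → Kr ω A u' → Kr ω A u ∨
    ∃ C ∈ (A.erase r).powerset, ∃ x ∈ insert r C, ∃ y ∈ A \ insert r C,
      Blk ω (insert r C) (A \ insert r C) x y u u' ∧ Kr ω (insert r C) u' ∧
        Kr ω (A \ insert r C) u') ∧
  (∀ A B u u', Kr2 ω A B u' → Kr2 ω A B u ∨
    (∃ x ∈ A, ∃ y ∈ B, Blk ω A B x y u u' ∧ Kr ω A u' ∧ Kr ω B u') ∨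
    (∃ R ∈ A.powerset, ∃ x ∈ R, ∃ y ∈ A \ R,
      Blk ω R (A \ R ∪ B) x y u u' ∧ Kr ω R u' ∧ Kr2 ω (A \ R) B u') ∨
    (∃ R ∈ B.powerset, ∃ x ∈ R, ∃ y ∈ B \ R,
      Blk ω R (A ∪ B \ R) x y u u' ∧ Kr ω R u' ∧ Kr2 ω A (B \ R) u'))

def IND : Prop := ∀ (N : ℕ) (A B : Finset (Fin N)) (x y : Fin N) (u u' : ℝ)
  (E F : Set (Ed N → ℝ)), Disjoint A B → x ∈ A → y ∈ B → 0 ≤ u → u ≤ u' → u' ≤ 1 →
  Dep A E → Dep B F →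
  Pr N ({w | Blk (W w) A B x y u u'} ∩ E ∩ F) ≤
    (u' - u) * (1 - u) ^ (A.card * B.card - 1) * Pr N E * Pr N F

def DINI : Prop := ∀ (G P : ℝ → ℝ) (Q : ℝ → ℝ → ℝ), Continuous (fun z : ℝ × ℝ => Q z.1 z.2) →
  (∀ t, HasDerivAt P (Q t t) t) → G 0 ≤ P 0 →
  (∀ t t', 0 ≤ t → t ≤ t' → G t ≤ G t' ∧ G t' ≤ G t + (t' - t) * Q t t') →
  ∀ t, 0 ≤ t → G t ≤ P t

noncomputable def p1 (S : Sol) (s : ℕ) (t : ℝ) : ℝ :=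
  ((s - 1).factorial : ℝ) * exp (-((s : ℝ) ^ 2 * t / 2)) * S.κ t s

noncomputable def p2 (S : Sol) (a b : ℕ) (t : ℝ) : ℝ :=
  (a.factorial : ℝ) * b.factorial * exp (-(((a : ℝ) + b) ^ 2 * t / 2)) * S.B t a b

/-- the derivatives of `p1`, `p2` in the shape of the union bound -/
def PDER : Prop := ∀ (S : Sol) (t : ℝ),
  p1 S 1 t = 1 ∧
  (∀ s : ℕ, HasDerivAt (p1 S (s + 1))
    (∑ i ∈ range (s + 1), (s.choose i : ℝ) * (((i + 1 : ℕ) : ℝ) * ((s - i : ℕ) : ℝ) *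
      (exp (-(t * ((i + 1) * (s - i) : ℕ))) * p1 S (i + 1) t * p1 S (s - i) t))) t) ∧
  ∀ a b : ℕ, HasDerivAt (p2 S a b)
    ((a : ℝ) * b * (exp (-(t * (a * b : ℕ))) * p1 S a t * p1 S b t) +
      ∑ i ∈ range (a + 1), (a.choose i : ℝ) * ((i : ℝ) * ((a - i : ℕ) : ℝ) *
        (exp (-(t * (i * (a - i + b) : ℕ))) * p1 S i t * p2 S (a - i) b t)) +
      ∑ i ∈ range (b + 1), (b.choose i : ℝ) * ((i : ℝ) * ((b - i : ℕ) : ℝ) *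
        (exp (-(t * (i * (a + (b - i)) : ℕ))) * p1 S i t * p2 S a (b - i) t))) t

def KONE : Prop := ∀ (S : Sol) (N : ℕ) (A : Finset (Fin N)) (t : ℝ), A.Nonempty → 0 ≤ t →
  Pr N {w | Kr (W w) A (1 - exp (-t))} ≤ p1 S A.card t

def KTWO : Prop := ∀ (S : Sol) (N : ℕ) (A B : Finset (Fin N)) (t : ℝ), 0 ≤ t →
  Pr N {w | Kr2 (W w) A B (1 - exp (-t))} ≤ p2 S A.card B.card t

/-- cut property of a strict minimiser -/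
def CUT : Prop := ∀ (N : ℕ) (w : Ed N → ℝ) (T : SimpleGraph (Fin N)), T.IsTree →
  (∀ T', IsSpanningTree ⊤ T' → T' ≠ T → weight ⊤ w T < weight ⊤ w T') →
  ∀ x y p q, T.Adj x y → (T.deleteEdges {s(x, y)}).Reachable x p →
    (T.deleteEdges {s(x, y)}).Reachable y q → (p, q) ≠ (x, y) → W w x y < W w p q

def TREE : Prop := ∀ (N : ℕ) (ω : Fin N → Fin N → ℝ) (T : SimpleGraph (Fin N)) (u : ℝ),
  (∀ x y, ω x y = ω y x) → T.IsTree → Splittable T → (∀ x y, ω x y ≤ u) →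
  (∀ x y p q, T.Adj x y → (T.deleteEdges {s(x, y)}).Reachable x p →
    (T.deleteEdges {s(x, y)}).Reachable y q → (p, q) ≠ (x, y) → ω x y < ω p q) →
  ∃ A : Finset (Fin N), 2 * A.card = N ∧ Kr2 ω A Aᶜ u

def LINK : Prop := ∀ (S : Sol) (n : ℕ) (t : ℝ), 0 ≤ t →
  pMST (⊤ : SimpleGraph (Fin (2 * n))) ≤ zz S n t + (2 * n : ℝ) ^ 2 * exp (-t)

/-! ## Part D: counting trees -/

open scoped Classical in
/-- parent maps of the rooted forests on `A` with `k` roots -/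
noncomputable def Par {N : ℕ} (A : Finset (Fin N)) (k : ℕ) : Finset (Fin N → Fin N) :=
  univ.filter fun f => (∀ v, v ∉ A → f v = v) ∧ (∀ v ∈ A, f v ∈ A) ∧
    (∀ v, ∃ j, f (f^[j] v) = f^[j] v) ∧ (A.filter fun v => f v = v).card = k

def PIT : Prop := ∀ (N : ℕ) (A : Finset (Fin N)), A.Nonempty →
  (Par A 1).card = A.card ^ (A.card - 1)

def UPP : Prop := ∀ N : ℕ,
  N * {T : SimpleGraph (Fin N) | IsSpanningTree ⊤ T}.ncard ≤ (Par (univ : Finset (Fin N)) 1).card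

def LOW : Prop := ∀ (n : ℕ) (r : Fin (2 * n)),
  ∑ A ∈ (univ : Finset (Fin (2 * n))).powerset.filter (fun A => r ∈ A ∧ A.card = n),
      (Par A 1).card * (Par Aᶜ 1).card ≤
    {T : SimpleGraph (Fin (2 * n)) | IsSpanningTree ⊤ T ∧ Splittable T}.ncard

def UST : Prop := ∀ n : ℕ, 1 ≤ n → 1 / √(n : ℝ) ≤ pUST (⊤ : SimpleGraph (Fin (2 * n)))

end Pool.Agent.MP_ddaf7c_pr.K
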