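import Mathlib.Algebra.Order.Ring.Star
import Mathlib.Algebra.Order.Star.Real
import Mathlib.Analysis.SpecialFunctions.ExpDeriv
import Mathlib.Analysis.Calculus.Deriv.MeanValue
import Pool.Agent.MP_ddaf7c_pr.K.Spec

-- ======== part 0: formerly Pool.Agent.MP_ddaf7c_pr.K.Basic
section MrgPart0

set_option autoImplicit false

namespace Pool.Agent.MP_ddaf7c_pr.K

open Finset Real

lemma wt_nonneg (M k : ℕ) (t : ℝ) : 0 ≤ wt M k t := by
  unfold wt; positivity

lemma wt_of_lt {M k : ℕ} (h : M < k) (t : ℝ) : wt M k t = 0 := by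
  unfold wt; rw [Nat.descFactorial_of_lt h]; simp

lemma descFactorial_add' (M k j : ℕ) :
    M.descFactorial (k + j) = M.descFactorial k * (M - k).descFactorial j := by
  induction j with
  | zero => simp
  | succ j ih =>
    rw [← add_assoc, Nat.descFactorial_succ, Nat.descFactorial_succ, ih, Nat.sub_add_eq]
    ring

lemma wt_add (M k j : ℕ) (t : ℝ) : wt M (k + j) t = wt M k t * wt (M - k) j t := by
  by_cases h : M < k
  · rw [wt_of_lt h, wt_of_lt (by omega)]; simp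
  · have h' : k ≤ M := by omega
    unfold wt
    rw [descFactorial_add', Nat.cast_mul, Nat.cast_sub h', Nat.cast_add,
      mul_mul_mul_comm, ← exp_add]
    congr 2
    ring

lemma wt_deriv (M k : ℕ) (t : ℝ) :
    HasDerivAt (fun τ => wt M k τ) (((k : ℝ) ^ 2 / 2 - k * M) * wt M k t) t := by
  unfold wt
  have h1 : HasDerivAt (fun τ : ℝ => (k : ℝ) ^ 2 * τ / 2 - τ * k * M)
      ((k : ℝ) ^ 2 / 2 - k * M) t := by
    have := (((hasDerivAt_id' t).const_mul ((k : ℝ) ^ 2)).div_const 2).fun_sub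
      (((hasDerivAt_id' t).mul_const (k : ℝ)).mul_const (M : ℝ))
    exact this.congr_deriv (by ring)
  exact (h1.exp.const_mul (M.descFactorial k : ℝ)).congr_deriv (by ring)

/-- `I1` may be summed over any larger range -/
lemma I1_eq_range (S : Sol) {M L : ℕ} (h : M ≤ L) (φ : ℕ → ℝ) (t : ℝ) :
    I1 S M φ t = ∑ k ∈ range (L + 1), wt M k t * S.κ t k * φ k := by
  unfold I1
  refine sum_subset (range_subset_range.2 (by omega)) ?_
  intro k _ hk
  rw [wt_of_lt (by simpa using hk)]; simp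

/-- `I2` may be summed over any larger square -/
lemma I2_eq_range (S : Sol) {M L : ℕ} (h : M ≤ L) (φ : ℕ → ℕ → ℝ) (t : ℝ) :
    I2 S M φ t =
      ∑ a ∈ range (L + 1), ∑ b ∈ range (L + 1), wt M (a + b) t * S.B t a b * φ a b := by
  unfold I2
  have hs : range (M + 1) ⊆ range (L + 1) := range_subset_range.2 (by omega)
  rw [← sum_subset hs]
  · refine sum_congr rfl fun a _ => sum_subset hs ?_
    intro b _ hb
    have : M < a + b := by simp at hb; omega
    rw [wt_of_lt this]; simp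
  · intro a _ ha
    refine sum_eq_zero fun b _ => ?_
    have : M < a + b := by simp at ha; omega
    rw [wt_of_lt this]; simp

lemma I1_congr (S : Sol) (M : ℕ) {φ ψ : ℕ → ℝ} (t : ℝ)
    (h : ∀ k, 1 ≤ k → k ≤ M → φ k = ψ k) : I1 S M φ t = I1 S M ψ t := by
  unfold I1
  refine sum_congr rfl fun k hk => ?_
  rcases Nat.eq_zero_or_pos k with rfl | hk0
  · simp [S.κz]
  · rw [h k hk0 (by simp at hk; omega)]

lemma I2_congr (S : Sol) (M : ℕ) {φ ψ : ℕ → ℕ → ℝ} (t : ℝ)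
    (h : ∀ a b, 1 ≤ a → 1 ≤ b → a + b ≤ M → φ a b = ψ a b) : I2 S M φ t = I2 S M ψ t := by
  unfold I2
  refine sum_congr rfl fun a _ => sum_congr rfl fun b _ => ?_
  rcases Nat.eq_zero_or_pos a with rfl | ha0
  · simp [S.Bl]
  rcases Nat.eq_zero_or_pos b with rfl | hb0
  · simp [S.Br]
  by_cases hab : M < a + b
  · rw [wt_of_lt hab]; simp
  · rw [h a b ha0 hb0 (by omega)]

lemma I1_mono (S : Sol) (M : ℕ) {φ ψ : ℕ → ℝ} {t : ℝ} (ht : 0 ≤ t)
    (h : ∀ k, 1 ≤ k → k ≤ M → φ k ≤ ψ k) : I1 S M φ t ≤ I1 S M ψ t := by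
  unfold I1
  refine sum_le_sum fun k hk => ?_
  rcases Nat.eq_zero_or_pos k with rfl | hk0
  · simp [S.κz]
  · exact mul_le_mul_of_nonneg_left (h k hk0 (by simp at hk; omega))
      (mul_nonneg (wt_nonneg _ _ _) (S.κp t ht k))

lemma I2_mono (S : Sol) (M : ℕ) {φ ψ : ℕ → ℕ → ℝ} {t : ℝ} (ht : 0 ≤ t)
    (h : ∀ a b, 1 ≤ a → 1 ≤ b → a + b ≤ M → φ a b ≤ ψ a b) : I2 S M φ t ≤ I2 S M ψ t := by
  unfold I2
  refine sum_le_sum fun a _ => sum_le_sum fun b _ => ?_
  rcases Nat.eq_zero_or_pos a with rfl | ha0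
  · simp [S.Bl]
  rcases Nat.eq_zero_or_pos b with rfl | hb0
  · simp [S.Br]
  by_cases hab : M < a + b
  · rw [wt_of_lt hab]; simp
  · exact mul_le_mul_of_nonneg_left (h a b ha0 hb0 (by omega))
      (mul_nonneg (wt_nonneg _ _ _) (S.Bp t ht a b))

lemma I1_add (S : Sol) (M : ℕ) (φ ψ : ℕ → ℝ) (t : ℝ) :
    I1 S M (fun k => φ k + ψ k) t = I1 S M φ t + I1 S M ψ t := by
  unfold I1; rw [← sum_add_distrib]; exact sum_congr rfl fun _ _ => by ring

lemma I1_sub (S : Sol) (M : ℕ) (φ ψ : ℕ → ℝ) (t : ℝ) :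
    I1 S M (fun k => φ k - ψ k) t = I1 S M φ t - I1 S M ψ t := by
  unfold I1; rw [← sum_sub_distrib]; exact sum_congr rfl fun _ _ => by ring

lemma I1_mul (S : Sol) (M : ℕ) (c : ℝ) (φ : ℕ → ℝ) (t : ℝ) :
    I1 S M (fun k => c * φ k) t = c * I1 S M φ t := by
  unfold I1; rw [mul_sum]; exact sum_congr rfl fun _ _ => by ring

lemma I1_zero (S : Sol) (M : ℕ) (t : ℝ) : I1 S M (fun _ => 0) t = 0 := by
  unfold I1; simp

lemma I1_const (h : MASS) (S : Sol) (M : ℕ) (c t : ℝ) : I1 S M (fun _ => c) t = c * M := by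
  have := I1_mul S M c (fun _ => 1) t
  rw [h] at this
  simpa using this

lemma I2_add (S : Sol) (M : ℕ) (φ ψ : ℕ → ℕ → ℝ) (t : ℝ) :
    I2 S M (fun a b => φ a b + ψ a b) t = I2 S M φ t + I2 S M ψ t := by
  unfold I2; rw [← sum_add_distrib]
  refine sum_congr rfl fun _ _ => ?_
  rw [← sum_add_distrib]; exact sum_congr rfl fun _ _ => by ring

lemma I2_mul (S : Sol) (M : ℕ) (c : ℝ) (φ : ℕ → ℕ → ℝ) (t : ℝ) :
    I2 S M (fun a b => c * φ a b) t = c * I2 S M φ t := by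
  unfold I2; rw [mul_sum]
  refine sum_congr rfl fun _ _ => ?_
  rw [mul_sum]; exact sum_congr rfl fun _ _ => by ring

lemma I2_zero (S : Sol) (M : ℕ) (t : ℝ) : I2 S M (fun _ _ => 0) t = 0 := by
  unfold I2; simp

lemma I1_nonneg (S : Sol) (M : ℕ) {φ : ℕ → ℝ} {t : ℝ} (ht : 0 ≤ t)
    (h : ∀ k, 1 ≤ k → k ≤ M → 0 ≤ φ k) : 0 ≤ I1 S M φ t := by
  rw [← I1_zero S M t]; exact I1_mono S M ht h

lemma I2_nonneg (S : Sol) (M : ℕ) {φ : ℕ → ℕ → ℝ} {t : ℝ} (ht : 0 ≤ t)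
    (h : ∀ a b, 1 ≤ a → 1 ≤ b → a + b ≤ M → 0 ≤ φ a b) : 0 ≤ I2 S M φ t := by
  rw [← I2_zero S M t]; exact I2_mono S M ht h

/-- at time zero only singletons are present -/
lemma I1_at_zero (S : Sol) (M : ℕ) (φ : ℕ → ℝ) : I1 S M φ 0 = M * φ 1 := by
  rw [I1_eq_range S (Nat.le_succ M), sum_eq_single 1]
  · simp [wt, S.κi]
  · intro k _ hk; simp [S.κi, hk]
  · intro h; simp at h

lemma I2_at_zero (S : Sol) (M : ℕ) (φ : ℕ → ℕ → ℝ) : I2 S M φ 0 = 0 := by
  unfold I2; simp [S.Bi]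

lemma swap11 (S : Sol) (M : ℕ) (T : ℕ → ℕ → ℝ) (t : ℝ) :
    I1 S M (fun a => I1 S (M - a) (fun b => T a b) t) t =
      I1 S M (fun b => I1 S (M - b) (fun a => T a b) t) t := by
  have key : ∀ U : ℕ → ℕ → ℝ, I1 S M (fun a => I1 S (M - a) (fun b => U a b) t) t =
      ∑ a ∈ range (M + 1), ∑ b ∈ range (M + 1), wt M (a + b) t * (S.κ t a * S.κ t b * U a b) := by
    intro U
    rw [I1]
    refine sum_congr rfl fun a _ => ?_
    rw [I1_eq_range S (Nat.sub_le M a), mul_sum]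
    exact sum_congr rfl fun b _ => by rw [wt_add]; ring
  rw [key T, key (fun b a => T a b), sum_comm]
  exact sum_congr rfl fun a _ => sum_congr rfl fun b _ => by rw [add_comm]; ring

lemma swap21 (S : Sol) (M : ℕ) (T : ℕ → ℕ → ℕ → ℝ) (t : ℝ) :
    I2 S M (fun a b => I1 S (M - (a + b)) (fun s => T a b s) t) t =
      I1 S M (fun s => I2 S (M - s) (fun a b => T a b s) t) t := by
  have h1 : I2 S M (fun a b => I1 S (M - (a + b)) (fun s => T a b s) t) t =
      ∑ a ∈ range (M + 1), ∑ b ∈ range (M + 1), ∑ s ∈ range (M + 1),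
        wt M (a + b + s) t * (S.B t a b * S.κ t s * T a b s) := by
    rw [I2]
    refine sum_congr rfl fun a _ => sum_congr rfl fun b _ => ?_
    rw [I1_eq_range S (Nat.sub_le M (a + b)), mul_sum]
    exact sum_congr rfl fun s _ => by rw [wt_add M (a + b) s]; ring
  have h2 : I1 S M (fun s => I2 S (M - s) (fun a b => T a b s) t) t =
      ∑ s ∈ range (M + 1), ∑ a ∈ range (M + 1), ∑ b ∈ range (M + 1),
        wt M (a + b + s) t * (S.B t a b * S.κ t s * T a b s) := by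
    rw [I1]
    refine sum_congr rfl fun s _ => ?_
    rw [I2_eq_range S (Nat.sub_le M s), mul_sum]
    refine sum_congr rfl fun a _ => ?_
    rw [mul_sum]
    exact sum_congr rfl fun b _ => by rw [add_comm (a + b) s, wt_add M s (a + b)]; ring
  rw [h1, h2]
  rw [sum_comm (s := range (M + 1)) (t := range (M + 1))
    (f := fun s a => ∑ b ∈ range (M + 1), wt M (a + b + s) t * (S.B t a b * S.κ t s * T a b s))]
  exact sum_congr rfl fun a _ => sum_comm

/-- reindexing of a sum over antidiagonals against a weight that vanishes beyond `M` -/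
lemma sum_antidiag (M : ℕ) (F : ℕ → ℕ → ℝ) (h : ∀ i j, M < i + j → F i j = 0) :
    ∑ k ∈ range (M + 1), ∑ p ∈ antidiagonal k, F p.1 p.2 =
      ∑ i ∈ range (M + 1), ∑ j ∈ range (M + 1), F i j := by
  rw [sum_sigma', sum_sigma']
  have hsub : ∑ x ∈ (range (M + 1)).sigma (fun _ => range (M + 1)), F x.1 x.2 =
      ∑ x ∈ ((range (M + 1)).sigma (fun _ => range (M + 1))).filter (fun x => x.1 + x.2 ≤ M),
        F x.1 x.2 := by
    symm
    refine sum_subset (filter_subset _ _) ?_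
    intro x hx hx'
    refine h _ _ ?_
    by_contra hc
    exact hx' (mem_filter.2 ⟨hx, by omega⟩)
  rw [hsub]
  refine sum_bij' (fun x _ => ⟨x.2.1, x.2.2⟩) (fun x _ => ⟨x.1 + x.2, (x.1, x.2)⟩) ?_ ?_ ?_ ?_ ?_
  · rintro ⟨k, i, j⟩ hx
    simp only [mem_sigma, mem_range, HasAntidiagonal.mem_antidiagonal, mem_filter] at hx ⊢
    omega
  · rintro ⟨i, j⟩ hx
    simp only [mem_sigma, mem_range, HasAntidiagonal.mem_antidiagonal, mem_filter] at hx ⊢
    refine ⟨by omega, trivial⟩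
  · rintro ⟨k, i, j⟩ hx
    simp only [mem_sigma, mem_range, HasAntidiagonal.mem_antidiagonal] at hx
    obtain ⟨_, rfl⟩ := hx
    rfl
  · rintro ⟨i, j⟩ _; rfl
  · rintro ⟨k, i, j⟩ _; rfl

/-- a function with nonpositive derivative on an interval does not increase -/
lemma le_of_deriv_nonpos {f : ℝ → ℝ} {a b : ℝ} (hab : a ≤ b)
    (h : ∀ t, a ≤ t → t ≤ b → ∃ D, HasDerivAt f D t ∧ D ≤ 0) : f b ≤ f a := by
  have hc : ContinuousOn f (Set.Icc a b) := fun t ht =>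
    (h t ht.1 ht.2).choose_spec.1.continuousAt.continuousWithinAt
  have hanti : AntitoneOn f (Set.Icc a b) := by
    refine antitoneOn_of_deriv_nonpos (convex_Icc a b) hc ?_ ?_
    · intro t ht
      have ht' := interior_subset ht
      exact (h t ht'.1 ht'.2).choose_spec.1.differentiableAt.differentiableWithinAt
    · intro t ht
      have ht' := interior_subset ht
      obtain ⟨D, hD, hD0⟩ := h t ht'.1 ht'.2
      rw [hD.deriv]; exact hD0
  exact hanti ⟨le_rfl, hab⟩ ⟨hab, le_rfl⟩ hab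

end Pool.Agent.MP_ddaf7c_pr.K

end MrgPart0

-- ======== part 1: formerly Pool.Agent.MP_ddaf7c_pr.K.Der
section MrgPart1

/-! The derivative of the potential. -/

set_option autoImplicit false

namespace Pool.Agent.MP_ddaf7c_pr.K

open Finset Real

namespace Der

theorem crude (h0 : MASS) (h3 : CRUDE) (S : Sol) {M N : ℕ} (hM : M ≤ N) {t : ℝ} (t0 : 0 ≤ t)
    (t1 : t ≤ 1) : I2 S M (fun _ _ => 1) t ≤ (N : ℝ) ^ 2 ∧
      I2 S M (fun a b => (a : ℝ) * b) t + I1 S M (fun k => (k : ℝ)) t ≤ (N : ℝ) ^ 4 + (N : ℝ) ^ 2 := by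
  have hM' : (M : ℝ) ≤ N := Nat.cast_le.2 hM
  have a1 : I2 S M (fun _ _ => 1) t ≤ (N : ℝ) ^ 2 :=
    (h3 S M t t0).trans ((mul_le_of_le_one_right (by positivity) t1).trans (by gcongr))
  refine ⟨a1, add_le_add ?_ ?_⟩
  · refine (I2_mono S M (ψ := fun _ _ => (N : ℝ) ^ 2 * 1) t0 fun a b _ _ h => ?_).trans ?_
    · have a2 : (a : ℝ) ≤ N := Nat.cast_le.2 (by omega)
      have a3 : (b : ℝ) ≤ N := Nat.cast_le.2 (by omega)
      rw [mul_one, sq]
      gcongr
    · rw [I2_mul, show (N : ℝ) ^ 4 = N ^ 2 * N ^ 2 by ring]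
      gcongr
  · refine (I1_mono S M (ψ := fun _ => (N : ℝ)) t0 fun k _ h => Nat.cast_le.2 (h.trans hM)).trans ?_
    rw [I1_const h0, sq]
    gcongr

theorem one (h0 : MASS) (S : Sol) (N d : ℕ) {t E : ℝ} (t0 : 0 ≤ t) (E0 : 0 ≤ E) (p : ℕ → Prop)
    [DecidablePred p] (h : ∀ k, p k → wt N k t ≤ E * wt (N - d) k t) :
    I1 S N (fun k => if p k then 1 else 0) t ≤ E * N := by
  have a1 : I1 S N (fun k => if p k then 1 else 0) t ≤ E * I1 S (N - d) (fun _ => 1) t := by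
    rw [I1_eq_range S (Nat.sub_le N d), I1, mul_sum]
    refine sum_le_sum fun k _ => ?_
    have b1 := S.κp t t0 k
    have b2 := wt_nonneg (N - d) k t
    split_ifs with hp
    · rw [mul_one, mul_one, ← mul_assoc]
      exact mul_le_mul_of_nonneg_right (h k hp) b1
    · rw [mul_zero]
      positivity
  rw [h0] at a1
  exact a1.trans (mul_le_mul_of_nonneg_left (Nat.cast_le.2 (Nat.sub_le N d)) E0)

theorem two (S : Sol) (N d : ℕ) {t E : ℝ} (t0 : 0 ≤ t) (E0 : 0 ≤ E) (p : ℕ → ℕ → Prop)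
    [∀ a b, Decidable (p a b)] (h : ∀ a b, p a b → wt N (a + b) t ≤ E * wt (N - d) (a + b) t) :
    I2 S N (fun a b => if p a b then 1 else 0) t ≤ E * I2 S (N - d) (fun _ _ => 1) t := by
  rw [I2_eq_range S (Nat.sub_le N d), I2, mul_sum]
  refine sum_le_sum fun a _ => ?_
  rw [mul_sum]
  refine sum_le_sum fun b _ => ?_
  have b1 := S.Bp t t0 a b
  have b2 := wt_nonneg (N - d) (a + b) t
  split_ifs with hp
  · rw [mul_one, mul_one, ← mul_assoc]
    exact mul_le_mul_of_nonneg_right (h a b hp) b1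
  · rw [mul_zero]
    positivity

end Der

open Der in
theorem der (h0 : MASS) (h1 : DER1) (h2 : SUB) (h3 : CRUDE) (h4 : GAP) (h5 : BIG) : DER := by
  intro S N d ε t ε0 ε1 hN ht t1 hd
  have e3 : ε ^ 3 ≤ 1 := pow_le_one₀ ε0.le ε1
  have N0 : (0 : ℝ) ≤ N := Nat.cast_nonneg N
  have N1 : (1 : ℝ) ≤ N := hN.trans (mul_le_of_le_one_left N0 e3)
  have t0 : 0 ≤ t := nonneg_of_mul_nonneg_right (show 0 ≤ N * t by linarith) (by linarith)
  obtain ⟨μ, hμ⟩ : ∃ μ, μ = min (N * t - 1) 1 := ⟨_, rfl⟩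
  have μ1 : μ ≤ 1 := hμ ▸ min_le_right _ _
  have μ2 : μ ≤ N * t - 1 := hμ ▸ min_le_left _ _
  have μ3 : ε ≤ μ := hμ ▸ le_min (by linarith) ε1
  have μ0 : 0 < μ := ε0.trans_le μ3
  have μ4 : 1 ≤ 2 * μ ^ 3 * N := by
    have : ε ^ 3 ≤ μ ^ 3 := pow_le_pow_left₀ ε0.le μ3 3
    nlinarith
  obtain ⟨E, hE⟩ : ∃ E, E = exp (-(d * ε ^ 2 / 20)) := ⟨_, rfl⟩
  have E0 : 0 ≤ E := hE ▸ (exp_pos _).le
  have gap : ∀ k : ℕ, ε * N / 2 / 2 ≤ (k : ℝ) → 1 - μ / 8 ≤ ((N : ℝ) - k) * t →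
      wt N k t ≤ E * wt (N - d) k t := fun k a1 a2 => by
    refine (h4 N d k μ t μ0 μ1 (by linarith) (by linarith) a2).2.trans
      (mul_le_mul_of_nonneg_right ?_ (wt_nonneg _ _ _))
    rw [hE, exp_le_exp, neg_le_neg_iff, le_div_iff₀ (by positivity)]
    have a3 : ε * N / 2 / 2 * ε ≤ k * μ := by gcongr
    have d0 : (0 : ℝ) ≤ d := Nat.cast_nonneg d
    nlinarith [mul_le_mul_of_nonneg_left a3 d0]
  obtain ⟨D, hD, hD'⟩ := h1 S N (ε * N / 2) t t0 (by positivity)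
  refine ⟨D, hD, hD'.trans ?_⟩
  have b1 := I1_mono S N (t := t) (φ := fun s => if ε * N / 2 / 2 ≤ (s : ℝ) then 1 / (s : ℝ) *
      (I2 S (N - s) (fun a b => (a : ℝ) * b) t + I1 S (N - s) (fun k => (k : ℝ)) t) else 0)
    (ψ := fun s => 64 * N / μ ^ 2 * (if ((N : ℝ) - s) * t < 1 - μ / 8 then 1 / (s : ℝ) else 0) +
      ((N : ℝ) ^ 4 + (N : ℝ) ^ 2) *
        if ε * N / 2 / 2 ≤ (s : ℝ) ∧ 1 - μ / 8 ≤ ((N : ℝ) - s) * t then 1 else 0) t0
    (fun s s1 s2 => by
      have s0 : (1 : ℝ) ≤ s := by exact_mod_cast s1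
      by_cases c1 : ε * N / 2 / 2 ≤ (s : ℝ)
      · rw [if_pos c1]
        by_cases c2 : ((N : ℝ) - s) * t < 1 - μ / 8
        · rw [if_pos c2, if_neg fun c => absurd c2 (not_lt.2 c.2), mul_zero, add_zero, mul_comm]
          have c3 := h2 S (N - s) t t0 (by rw [Nat.cast_sub s2]; linarith)
          rw [Nat.cast_sub s2] at c3
          refine mul_le_mul_of_nonneg_right (c3.trans ?_) (by positivity)
          rw [show 64 * N / μ ^ 2 = N / (μ / 8) ^ 2 by field_simp; ring]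
          gcongr <;> linarith
        · rw [if_neg c2, if_pos ⟨c1, not_lt.1 c2⟩, mul_zero, zero_add, mul_one]
          refine (mul_le_of_le_one_left (add_nonneg (I2_nonneg S _ t0 fun _ _ _ _ _ => by positivity)
            (I1_nonneg S _ t0 fun _ _ _ => by positivity)) ((div_le_one (by positivity)).2 s0)).trans
            (crude h0 h3 S (Nat.sub_le N s) t0 t1).2
      · rw [if_neg c1]
        positivity)
  rw [I1_add, I1_mul, I1_mul] at b1
  have b2 := h5 S N μ t μ0 hμ μ4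
  have b3 := one h0 S N d t0 E0
    (fun s => ε * N / 2 / 2 ≤ (s : ℝ) ∧ 1 - μ / 8 ≤ ((N : ℝ) - s) * t) fun k c => gap k c.1 c.2
  have b4 := (two S N d t0 E0
    (fun a b => ε * N / 2 / 2 ≤ (a : ℝ) + b ∧ (a : ℝ) + b < ε * N / 2) fun a b c => gap (a + b)
      (by push_cast; exact c.1) (by
        push_cast
        have c1 : (N - ε * N / 2) * t ≤ (N - ((a : ℝ) + b)) * t := by gcongr; exact c.2.le
        have c2 : (1 + ε) * (1 - ε / 2) ≤ N * t * (1 - ε / 2) := by gcongr; linarith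
        nlinarith)).trans
    (mul_le_mul_of_nonneg_left (crude h0 h3 S (Nat.sub_le N d) t0 t1).1 E0)
  have b5 : N / μ ^ 2 ≤ N / (N * t - 1) ^ 2 + N := by
    rcases min_choice (N * t - 1) 1 with c | c
    · rw [hμ, c]
      linarith
    · rw [hμ, c, one_pow, div_one]
      exact le_add_of_nonneg_left (by positivity)
  have b6 : (N : ℝ) ^ 3 ≤ (N : ℝ) ^ 5 := pow_le_pow_right₀ N1 (by norm_num)
  have b7 := mul_le_mul_of_nonneg_left b2 (show 0 ≤ 64 * N / μ ^ 2 by positivity)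
  have b8 := mul_le_mul_of_nonneg_left b3 (show 0 ≤ (N : ℝ) ^ 4 + (N : ℝ) ^ 2 by positivity)
  have b9 := mul_le_mul_of_nonneg_left b4 (show 0 ≤ 2 * (N : ℝ) ^ 3 by positivity)
  have b10 := mul_le_mul_of_nonneg_left b6 E0
  have b11 : 64 * N / μ ^ 2 * 16 = 1024 * (N / μ ^ 2) := by ring
  rw [← hE]
  linarith

end Pool.Agent.MP_ddaf7c_pr.K

end MrgPart1

-- marker of a merged file
example : 731051 + 112315 = 731051 + 112315 := rfl
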