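import Mathlib.Algebra.Order.Star.Real
import Mathlib.Analysis.Matrix.PosDef
import Pool.Agent.MP_ddaf7c_pr.K.Spec

-- ======== part 0: formerly Pool.Agent.MP_ddaf7c_pr.K.Atom
section MrgPart0

set_option autoImplicit false

namespace Pool.Agent.MP_ddaf7c_pr.K

open Finset Real Matrix

namespace Atom

theorem cc_zero (δ : ℝ) (f : ℕ → ℝ) : ∀ j s : ℕ, j < s → cc δ f s j = 0 := by
  intro j
  induction j using Nat.strong_induction_on with
  | _ j ih =>
    intro s hs
    obtain ⟨s, rfl⟩ : ∃ t, s = t + 1 := ⟨s - 1, by omega⟩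
    cases j with
    | zero => rw [cc]
    | succ m =>
      rw [cc, ih m (by omega) s (by omega), Finset.sum_eq_zero, mul_zero, add_zero]
      intro i _
      rw [ih i i.isLt (s + 1) (by have := i.isLt; omega), mul_zero]

/-- the transformed atom -/
noncomputable def u (δ : ℝ) (f : ℕ → ℝ) (x : ℝ) (m : ℕ) : ℝ :=
  ∑ s ∈ range (m + 1), atm x s * cc δ f s m

theorem u_ext (δ : ℝ) (f : ℕ → ℝ) (x : ℝ) (m N : ℕ) (h : m + 1 ≤ N) :
    ∑ s ∈ range N, atm x s * cc δ f s m = u δ f x m := by
  unfold u
  symm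
  apply Finset.sum_subset (Finset.range_subset_range.mpr h)
  intro s _ hs
  rw [cc_zero δ f m s (by simpa using hs), mul_zero]

theorem u_shift (δ : ℝ) (f : ℕ → ℝ) (x : ℝ) (m N : ℕ) (h : m ≤ N) :
    ∑ s ∈ range N, x ^ s * cc δ f (s + 1) m = u δ f x m := by
  rw [← u_ext δ f x m (N + 1) (by omega), Finset.sum_range_succ']
  simp [atm]

theorem u_zero (δ : ℝ) (f : ℕ → ℝ) (x : ℝ) : u δ f x 0 = 0 := by
  simp [u, atm]

theorem pow_atm (x : ℝ) (s : ℕ) : x ^ s = x * atm x s + if s = 0 then 1 else 0 := by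
  cases s with
  | zero => simp [atm]
  | succ s => simp [atm, pow_succ']

theorem u_succ (δ : ℝ) (f : ℕ → ℝ) (x : ℝ) (m : ℕ) :
    u δ f x (m + 1) = (if m = 0 then 1 else 0) + x * u δ f x m +
      δ * ∑ j ∈ range (m + 1), f (m - j + 1) * u δ f x j := by
  rw [← u_shift δ f x (m + 1) (m + 1) le_rfl]
  have h1 : ∀ s, x ^ s * cc δ f (s + 1) (m + 1) = x ^ s * cc δ f s m +
      δ * ∑ j ∈ range (m + 1), f (m - j + 1) * (x ^ s * cc δ f (s + 1) j) := by
    intro s
    rw [cc, Fin.sum_univ_eq_sum_range (fun j => f (m - j + 1) * cc δ f (s + 1) j) (m + 1),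
      mul_add, Finset.mul_sum, Finset.mul_sum, Finset.mul_sum]
    congr 1
    apply Finset.sum_congr rfl
    intro j _
    ring
  simp only [h1]
  rw [Finset.sum_add_distrib, ← Finset.mul_sum, Finset.sum_comm]
  congr 1
  · have h2 : ∀ s, x ^ s * cc δ f s m =
        x * (atm x s * cc δ f s m) + if s = 0 then cc δ f 0 m else 0 := by
      intro s
      rw [pow_atm]
      split_ifs with h
      · subst h; ring
      · ring
    simp only [h2]
    rw [Finset.sum_add_distrib, ← Finset.mul_sum, Finset.sum_ite_eq', if_pos (by simp), cc,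
      add_comm]
    rfl
  · congr 1
    apply Finset.sum_congr rfl
    intro j hj
    rw [← Finset.mul_sum, u_shift δ f x j (m + 1) (by have := Finset.mem_range.mp hj; omega)]

theorem u_one (δ : ℝ) (f : ℕ → ℝ) (x : ℝ) : u δ f x 1 = 1 := by
  rw [u_succ]
  simp [u_zero]

theorem u_rec (δ : ℝ) (f : ℕ → ℝ) (x : ℝ) (m : ℕ) :
    u δ f x (m + 2) = x * u δ f x (m + 1) +
      δ * ∑ j ∈ range (m + 1), f (m - j + 1) * u δ f x (j + 1) := by
  rw [u_succ, if_neg (by omega), zero_add, Finset.sum_range_succ', u_zero, mul_zero, add_zero]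
  congr 2
  apply Finset.sum_congr rfl
  intro j _
  rw [Nat.add_sub_add_right]

/-- moments of a positive semidefinite matrix -/
theorem moments {n : Type} [Fintype n] [DecidableEq n] (A : Matrix n n ℝ) (hA : A.PosSemidef)
    (o : n) : ∃ w y : n → ℝ, (∀ i, 0 ≤ w i ∧ 0 ≤ y i) ∧
      ∀ k : ℕ, (A ^ k) o o = ∑ i, w i * y i ^ k := by
  refine ⟨fun i => ((hA.1.eigenvectorUnitary : Matrix n n ℝ) o i) ^ 2, hA.1.eigenvalues,
    fun i => ⟨sq_nonneg _, hA.eigenvalues_nonneg i⟩, fun k => ?_⟩
  conv_lhs => rw [hA.1.spectral_theorem, ← map_pow, Unitary.conjStarAlgAut_apply, diagonal_pow]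
  rw [Matrix.mul_apply]
  apply Finset.sum_congr rfl
  intro i _
  rw [Matrix.mul_diagonal]
  simp [Matrix.star_apply]
  ring

section Mat

variable {ι : Type} [Fintype ι] [DecidableEq ι]

/-- square root factor of the arrow matrix -/
noncomputable def Wm (x δ : ℝ) (m y : ι → ℝ) : Matrix (Option ι) (Option ι) ℝ :=
  fun i j => match i, j with
    | none, none => √x
    | none, some _ => 0
    | some l, none => √(δ * m l)
    | some l, some l' => if l = l' then √(y l) else 0

theorem A_none (x δ : ℝ) (m y : ι → ℝ) (hx : 0 ≤ x) (hδ : 0 ≤ δ) (hm : ∀ l, 0 ≤ m l)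
    (v : Option ι → ℝ) :
    (((Wm x δ m y)ᴴ * Wm x δ m y) *ᵥ v) none =
      x * v none + ∑ l, (δ * m l * v none + √(δ * m l) * √(y l) * v (some l)) := by
  rw [← Matrix.mulVec_mulVec]
  simp only [Matrix.mulVec, dotProduct, Fintype.sum_option, conjTranspose_apply, star_trivial, Wm,
    zero_mul, Finset.sum_const_zero, add_zero, ite_mul, Finset.sum_ite_eq, Finset.mem_univ,
    if_true]
  congr 1
  · rw [← mul_assoc, Real.mul_self_sqrt hx]
  · apply Finset.sum_congr rfl
    intro l _
    rw [mul_add, ← mul_assoc, Real.mul_self_sqrt (mul_nonneg hδ (hm l)), mul_assoc (√(δ * m l))]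

theorem A_some (x δ : ℝ) (m y : ι → ℝ) (hy : ∀ l, 0 ≤ y l) (v : Option ι → ℝ) (l : ι) :
    (((Wm x δ m y)ᴴ * Wm x δ m y) *ᵥ v) (some l) =
      √(δ * m l) * √(y l) * v none + y l * v (some l) := by
  rw [← Matrix.mulVec_mulVec]
  simp only [Matrix.mulVec, dotProduct, Fintype.sum_option, conjTranspose_apply, star_trivial, Wm,
    zero_mul, Finset.sum_const_zero, add_zero, ite_mul, Finset.sum_ite_eq, Finset.mem_univ,
    if_true, zero_add, Finset.sum_ite_eq']
  rw [mul_add, ← mul_assoc (√(y l)) (√(y l)), Real.mul_self_sqrt (hy l)]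
  ring

/-- the orbit of the first basis vector -/
noncomputable def orb (δ : ℝ) (m y : ι → ℝ) (a : ℕ → ℝ) (k : ℕ) : Option ι → ℝ
  | none => a k
  | some l => √(δ * m l) * √(y l) * ∑ j ∈ range k, y l ^ (k - 1 - j) * a j

theorem geo (t : ℝ) (a : ℕ → ℝ) (k : ℕ) :
    ∑ j ∈ range (k + 1), t ^ (k - j) * a j = a k + t * ∑ j ∈ range k, t ^ (k - 1 - j) * a j := by
  rw [Finset.sum_range_succ, Nat.sub_self, pow_zero, one_mul, add_comm, Finset.mul_sum]
  congr 1
  apply Finset.sum_congr rfl
  intro j hj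
  have := Finset.mem_range.mp hj
  rw [← mul_assoc, ← pow_succ', show k - 1 - j + 1 = k - j by omega]

theorem step (x δ : ℝ) (m y : ι → ℝ) (hx : 0 ≤ x) (hδ : 0 ≤ δ) (hm : ∀ l, 0 ≤ m l)
    (hy : ∀ l, 0 ≤ y l) (a : ℕ → ℝ) (k : ℕ)
    (ha : a (k + 1) = x * a k + δ * ∑ j ∈ range (k + 1), (∑ l, m l * y l ^ (k - j)) * a j) :
    ((Wm x δ m y)ᴴ * Wm x δ m y) *ᵥ orb δ m y a k = orb δ m y a (k + 1) := by
  funext i
  cases i with
  | none =>
    rw [A_none x δ m y hx hδ hm]
    simp only [orb]
    rw [ha]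
    congr 1
    simp only [Finset.sum_mul]
    rw [Finset.sum_comm, Finset.mul_sum]
    apply Finset.sum_congr rfl
    intro l _
    have h1 : √(δ * m l) * √(δ * m l) = δ * m l := Real.mul_self_sqrt (mul_nonneg hδ (hm l))
    have h2 : √(y l) * √(y l) = y l := Real.mul_self_sqrt (hy l)
    simp only [mul_assoc (m l)]
    rw [← Finset.mul_sum, geo]
    generalize ∑ j ∈ range k, y l ^ (k - 1 - j) * a j = S
    have h3 : √(δ * m l) * √(y l) * (√(δ * m l) * √(y l) * S) =
        (√(δ * m l) * √(δ * m l)) * (√(y l) * √(y l)) * S := by ring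
    rw [h3, h1, h2]
    ring
  | some l =>
    rw [A_some x δ m y hy]
    simp only [orb]
    rw [Nat.add_sub_cancel, geo]
    ring

end Mat

end Atom

open Atom in
theorem atom : ATOM := by
  classical
  rintro f x δ ⟨ι, _, m, y, hmy, hf⟩ hx hδ
  have hm : ∀ l, 0 ≤ m l := fun l => (hmy l).1
  have hy : ∀ l, 0 ≤ y l := fun l => (hmy l).2
  obtain ⟨w, z, hwz, hA⟩ := moments ((Wm x δ m y)ᴴ * Wm x δ m y)
    (posSemidef_conjTranspose_mul_self _) none
  have hv : ∀ k, ((Wm x δ m y)ᴴ * Wm x δ m y) ^ k *ᵥ Pi.single none 1 =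
      orb δ m y (fun j => u δ f x (j + 1)) k := by
    intro k
    induction k with
    | zero =>
      funext i
      cases i with
      | none => simp [orb, u_one]
      | some l => simp [orb]
    | succ k ih =>
      rw [pow_succ', ← Matrix.mulVec_mulVec, ih]
      apply step x δ m y hx hδ hm hy
      rw [u_rec]
      congr 2
      apply Finset.sum_congr rfl
      intro j _
      rw [hf]
      simp [atm]
  refine ⟨Option ι, inferInstance, w, z, hwz, fun s => ?_⟩
  change u δ f x s = _
  cases s with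
  | zero => simp [u_zero, atm]
  | succ k =>
    have h := congrFun (hv k) none
    simp only [orb, Matrix.mulVec_single_one, Matrix.col_apply] at h
    rw [← h, hA]
    simp [atm]

end Pool.Agent.MP_ddaf7c_pr.K

end MrgPart0

-- ======== part 1: formerly Pool.Agent.MP_ddaf7c_pr.K.Low
section MrgPart1

set_option autoImplicit false

namespace Pool.Agent.MP_ddaf7c_pr.K

open Finset SimpleGraph

namespace LowH

variable {N : ℕ}

/-- a parent map with two roots, one on each side of `A` -/
structure Dat (A : Finset (Fin N)) (g : Fin N → Fin N) (x y : Fin N) : Prop where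
  pres : ∀ v, g v ∈ A ↔ v ∈ A
  hx : x ∈ A
  hy : y ∉ A
  gx : g x = x
  gy : g y = y
  root : ∀ v, g v = v → v = x ∨ v = y
  term : ∀ v, ∃ j, g (g^[j] v) = g^[j] v

def G0 (g : Fin N → Fin N) : SimpleGraph (Fin N) := fromRel fun u v => g u = v

def TT (g : Fin N → Fin N) : SimpleGraph (Fin N) :=
  fromRel fun u v => g u = v ∨ (g u = u ∧ g v = v)

variable {A A' : Finset (Fin N)} {g g' : Fin N → Fin N} {x y x' y' : Fin N}

theorem Dat.swap (h : Dat A g x y) : Dat Aᶜ g y x where
  pres v := by simp [h.pres v]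
  hx := by simpa using h.hy
  hy := by simpa using h.hx
  gx := h.gy
  gy := h.gx
  root v hv := (h.root v hv).symm
  term := h.term

theorem Dat.ne (h : Dat A g x y) : x ≠ y := fun e => h.hy (e ▸ h.hx)

theorem Dat.iter (h : Dat A g x y) (j : ℕ) (v : Fin N) : g^[j] v ∈ A ↔ v ∈ A := by
  induction j with
  | zero => simp
  | succ j ih => rw [Function.iterate_succ_apply', h.pres, ih]

/-- reach the root inside any graph that contains the parent edges of `A` -/
theorem Dat.reach (h : Dat A g x y) (H : SimpleGraph (Fin N))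
    (hH : ∀ v ∈ A, g v ≠ v → H.Adj v (g v)) (v : Fin N) (hv : v ∈ A) : H.Reachable v x := by
  have key : ∀ j, H.Reachable v (g^[j] v) := by
    intro j
    induction j with
    | zero => simp
    | succ j ih =>
      rw [Function.iterate_succ_apply']
      by_cases e : g (g^[j] v) = g^[j] v
      · rw [e]; exact ih
      · exact ih.trans (hH _ ((h.iter j v).2 hv) e).reachable
  obtain ⟨j, hj⟩ := h.term v
  rcases h.root _ hj with e | e
  · exact e ▸ key j
  · exact absurd (e ▸ (h.iter j v).2 hv) h.hy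

theorem G0_adj (v : Fin N) (hv : g v ≠ v) : (G0 g).Adj v (g v) := by
  simp only [G0, fromRel_adj]
  exact ⟨hv.symm, Or.inl trivial⟩

theorem G0_le : G0 g ≤ TT g := by
  intro u v huv
  simp only [G0, TT, fromRel_adj] at huv ⊢
  tauto

theorem Dat.adj_mem (h : Dat A g x y) {u v : Fin N} (huv : (G0 g).Adj u v) : u ∈ A ↔ v ∈ A := by
  simp only [G0, fromRel_adj] at huv
  rcases huv.2 with e | e
  · rw [← e, h.pres]
  · rw [← e, h.pres]

theorem Dat.reach_mem (h : Dat A g x y) {u v : Fin N} (huv : (G0 g).Reachable u v) :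
    u ∈ A ↔ v ∈ A := by
  obtain ⟨p⟩ := huv
  induction p with
  | nil => rfl
  | cons a _ ih => exact (h.adj_mem a).trans ih

theorem Dat.reach_iff (h : Dat A g x y) {u v : Fin N} (hv : v ∈ A) :
    (G0 g).Reachable u v ↔ u ∈ A :=
  ⟨fun r => (h.reach_mem r).2 hv, fun hu =>
    (h.reach _ (fun w _ hw => G0_adj w hw) u hu).trans
      (h.reach _ (fun w _ hw => G0_adj w hw) v hv).symm⟩

theorem Dat.adj_xy (h : Dat A g x y) : (TT g).Adj x y := by
  simp only [TT, fromRel_adj]
  exact ⟨h.ne, Or.inl (Or.inr ⟨h.gx, h.gy⟩)⟩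

theorem Dat.cases (h : Dat A g x y) {u v : Fin N} (huv : (TT g).Adj u v) :
    (G0 g).Adj u v ∨ s(u, v) = s(x, y) := by
  simp only [G0, TT, fromRel_adj] at huv ⊢
  obtain ⟨hne, hc⟩ := huv
  have key : g u = u → g v = v → s(u, v) = s(x, y) := by
    intro hu hv
    rcases h.root u hu with e | e <;> rcases h.root v hv with e' | e'
    · exact absurd (e.trans e'.symm) hne
    · rw [e, e']
    · rw [e, e', Sym2.eq_swap]
    · exact absurd (e.trans e'.symm) hne
  rcases hc with (e | ⟨a, b⟩) | (e | ⟨a, b⟩)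
  · exact Or.inl ⟨hne, Or.inl e⟩
  · exact Or.inr (key a b)
  · exact Or.inl ⟨hne, Or.inr e⟩
  · exact Or.inr (key b a)

theorem Dat.del (h : Dat A g x y) : (TT g).deleteEdges {s(x, y)} = G0 g := by
  ext u v
  rw [deleteEdges_adj, Set.mem_singleton_iff]
  constructor
  · rintro ⟨a, b⟩
    exact (h.cases a).resolve_right b
  · intro a
    refine ⟨G0_le a, fun e => ?_⟩
    have m := h.adj_mem a
    rcases Sym2.eq_iff.1 e with ⟨e1, e2⟩ | ⟨e1, e2⟩
    · rw [e1, e2] at m; exact h.hy (m.1 h.hx)
    · rw [e1, e2] at m; exact h.hy (m.2 h.hx)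

theorem Dat.conn (h : Dat A g x y) : (TT g).Connected := by
  have key : ∀ v, (TT g).Reachable v x := by
    intro v
    by_cases hv : v ∈ A
    · exact h.reach _ (fun w _ hw => G0_le (G0_adj w hw)) v hv
    · exact (h.swap.reach _ (fun w _ hw => G0_le (G0_adj w hw)) v (by simpa using hv)).trans
        h.adj_xy.symm.reachable
  have : Nonempty (Fin N) := ⟨x⟩
  exact ⟨fun u v => (key u).trans (key v).symm⟩

theorem Dat.tree (h : Dat A g x y) : (TT g).IsTree := by
  rw [isTree_iff_connected_and_card]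
  refine ⟨h.conn, le_antisymm ?_ h.conn.card_vert_le_card_edgeSet_add_one⟩
  have hsub : (TT g).edgeSet ⊆
      ↑(insert s(x, y) (((univ.erase x).erase y).image fun v => s(v, g v))) := by
    intro e he
    induction e using Sym2.ind with
    | _ u v =>
      rw [mem_edgeSet] at he
      rw [Finset.mem_coe, mem_insert]
      rcases h.cases he with a | a
      · right
        simp only [G0, fromRel_adj] at a
        obtain ⟨hne, a | a⟩ := a
        · refine mem_image.2 ⟨u, ?_, by rw [a]⟩
          simp only [mem_erase, mem_univ, and_true]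
          constructor
          · rintro rfl; exact hne (h.gy.symm.trans a)
          · rintro rfl; exact hne (h.gx.symm.trans a)
        · refine mem_image.2 ⟨v, ?_, by rw [a, Sym2.eq_swap]⟩
          simp only [mem_erase, mem_univ, and_true]
          constructor
          · rintro rfl; exact hne (h.gy.symm.trans a).symm
          · rintro rfl; exact hne (h.gx.symm.trans a).symm
      · exact Or.inl a
  have h1 := Set.ncard_le_ncard hsub (Finset.finite_toSet _)
  rw [Set.ncard_coe_finset] at h1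
  have h2 := card_insert_le s(x, y) (((univ.erase x).erase y).image fun v => s(v, g v))
  have h3 : (((univ.erase x).erase y).image fun v => s(v, g v)).card ≤ _ := card_image_le
  have h4 : ((univ.erase x).erase y).card + 1 = (univ.erase x).card :=
    card_erase_add_one (by simpa using h.ne.symm)
  have h5 : (univ.erase x).card + 1 = (univ : Finset (Fin N)).card :=
    card_erase_add_one (mem_univ x)
  rw [Nat.card_coe_set_eq, Nat.card_eq_fintype_card, ← card_univ]
  omega

theorem Dat.split (h : Dat A g x y) (hA : 2 * A.card = N) : Splittable (TT g) := by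
  refine ⟨s(x, y), h.adj_xy, ?_⟩
  rw [h.del]
  intro C
  induction C using ConnectedComponent.ind with
  | _ v =>
    have hc : Aᶜ.card = N - A.card := by rw [card_compl, Fintype.card_fin]
    by_cases hv : v ∈ A
    · have : ((G0 g).connectedComponentMk v).supp = ↑A := by
        ext u
        rw [ConnectedComponent.mem_supp_iff, ConnectedComponent.eq, h.reach_iff hv, mem_coe]
      rw [this, Set.ncard_coe_finset, Fintype.card_fin, hA]
    · have : ((G0 g).connectedComponentMk v).supp = ↑Aᶜ := by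
        ext u
        rw [ConnectedComponent.mem_supp_iff, ConnectedComponent.eq,
          h.swap.reach_iff (by simpa using hv), mem_coe]
      rw [this, Set.ncard_coe_finset, Fintype.card_fin]
      omega

theorem big (h : Dat A g x y) (h' : Dat A' g' x' y') (e : TT g = TT g')
    (hne : s(x, y) ≠ s(x', y')) (hx : x' ∉ A) (hy : y' ∉ A) (hy' : x ∈ A')
    (hc : A'.card ≤ A.card) : False := by
  have ad : ∀ u v, (TT g).Adj u v → s(u, v) ≠ s(x', y') → (G0 g').Adj u v := by
    intro u v a b
    rw [e] at a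
    exact (h'.cases a).resolve_right b
  have sub : insert y A ⊆ A' := by
    intro v hv
    rw [← h'.reach_iff hy']
    rcases mem_insert.1 hv with rfl | hv
    · exact (ad _ _ h.adj_xy hne).symm.reachable
    · refine h.reach _ (fun w hw hg => ad _ _ (G0_le (G0_adj w hg)) fun q => ?_) v hv
      rcases Sym2.eq_iff.1 q with ⟨e1, -⟩ | ⟨e1, -⟩
      · exact hx (e1 ▸ hw)
      · exact hy (e1 ▸ hw)
  have := card_le_card sub
  rw [card_insert_of_notMem h.hy] at this
  omega

theorem big2 (h : Dat A g x y) (h' : Dat A' g' x' y') (e : TT g = TT g')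
    (hne : s(x, y) ≠ s(x', y')) (hx : x' ∉ A) (hy : y' ∉ A)
    (hc : A'.card ≤ A.card) (hc' : A'ᶜ.card ≤ A.card) : False := by
  by_cases hm : x ∈ A'
  · exact big h h' e hne hx hy hm hc
  · exact big h h'.swap e (by rwa [Sym2.eq_swap (a := y')]) hy hx (by simpa using hm) hc'

theorem edge_eq (h : Dat A g x y) (h' : Dat A' g' x' y') (e : TT g = TT g')
    (hA : 2 * A.card = N) (hA' : 2 * A'.card = N) : s(x, y) = s(x', y') := by
  by_contra hne
  have hc : Aᶜ.card = N - A.card := by rw [card_compl, Fintype.card_fin]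
  have hc' : A'ᶜ.card = N - A'.card := by rw [card_compl, Fintype.card_fin]
  have a : (G0 g).Adj x' y' := by
    have := h'.adj_xy
    rw [← e] at this
    exact (h.cases this).resolve_right fun q => hne q.symm
  have m := h.adj_mem a
  by_cases hx : x' ∈ A
  · exact big2 h.swap h' e (by rwa [Sym2.eq_swap (a := y)]) (by simpa using hx)
      (by simpa using m.1 hx) (by omega) (by omega)
  · exact big2 h h' e hne hx (fun q => hx (m.2 q)) (by omega) (by omega)

theorem Dat.no_two (h : Dat A g x y) (v : Fin N) (h2 : g (g v) = v) : g v = v := by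
  have key : ∀ j, g^[j] v = v ∨ g^[j] v = g v := by
    intro j
    induction j with
    | zero => simp
    | succ j ih =>
      rw [Function.iterate_succ_apply']
      rcases ih with e | e
      · right; rw [e]
      · left; rw [e, h2]
  obtain ⟨j, hj⟩ := h.term v
  rcases key j with e | e
  · rwa [e] at hj
  · rw [e, h2] at hj; exact hj.symm

theorem map_eq (h : Dat A g x y) (h' : Dat A' g' x y) (e : G0 g = G0 g') : g = g' := by
  have rt : ∀ v, g v = v → g v = g' v := by
    intro v hv
    rcases h.root v hv with rfl | rfl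
    · rw [hv, h'.gx]
    · rw [hv, h'.gy]
  have key : ∀ j v, g (g^[j] v) = g^[j] v → g v = g' v := by
    intro j
    induction j with
    | zero => intro v hv; exact rt v (by simpa using hv)
    | succ j ih =>
      intro v hv
      rw [Function.iterate_succ_apply] at hv
      have i := ih _ hv
      by_cases hr : g v = v
      · exact rt v hr
      · have a := G0_adj v hr
        rw [e] at a
        simp only [G0, fromRel_adj] at a
        rcases a.2 with q | q
        · exact q.symm
        · exact absurd (h.no_two v (i.trans q)) hr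
  funext v
  obtain ⟨j, hj⟩ := h.term v
  exact key j v hj

theorem inj (h : Dat A g x y) (h' : Dat A' g' x' y') (e : TT g = TT g')
    (hA : 2 * A.card = N) (hA' : 2 * A'.card = N) (r : Fin N) (hr : r ∈ A) (hr' : r ∈ A') :
    A = A' ∧ g = g' := by
  have he := edge_eq h h' e hA hA'
  have e0 : G0 g = G0 g' := by rw [← h.del, ← h'.del, e, he]
  have eA : A = A' := by
    ext u
    rw [← h.reach_iff hr, ← h'.reach_iff hr', e0]
  refine ⟨eA, ?_⟩
  rcases Sym2.eq_iff.1 he with ⟨e1, e2⟩ | ⟨e1, -⟩
  · subst e1 e2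
    exact map_eq h h' e0
  · exact absurd (eA ▸ e1 ▸ h.hx) h'.hy

def glue (A : Finset (Fin N)) (f1 f2 : Fin N → Fin N) (v : Fin N) : Fin N :=
  if v ∈ A then f1 v else f2 v

theorem exists_dat {f1 f2 : Fin N → Fin N} (h1 : f1 ∈ Par A 1) (h2 : f2 ∈ Par Aᶜ 1) :
    ∃ x y, Dat A (glue A f1 f2) x y := by
  simp only [Par, mem_filter, mem_univ, true_and] at h1 h2
  obtain ⟨-, a2, a3, a4⟩ := h1
  obtain ⟨-, b2, b3, b4⟩ := h2
  obtain ⟨x, hx⟩ := card_eq_one.1 a4
  obtain ⟨y, hy⟩ := card_eq_one.1 b4
  have hx' : ∀ v, v ∈ A ∧ f1 v = v ↔ v = x := fun v => by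
    rw [← mem_singleton (a := x), ← hx, mem_filter]
  have hy' : ∀ v, v ∉ A ∧ f2 v = v ↔ v = y := fun v => by
    rw [← mem_singleton (a := y), ← hy, mem_filter, mem_compl]
  have b2' : ∀ v, v ∉ A → f2 v ∉ A := fun v hv => by simpa using b2 v (by simpa using hv)
  have i1 : ∀ j v, v ∈ A → (glue A f1 f2)^[j] v = f1^[j] v ∧ f1^[j] v ∈ A := by
    intro j v hv
    induction j with
    | zero => simpa using hv
    | succ j ih =>
      rw [Function.iterate_succ_apply', Function.iterate_succ_apply', ih.1]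
      exact ⟨by simp [glue, ih.2], a2 _ ih.2⟩
  have i2 : ∀ j v, v ∉ A → (glue A f1 f2)^[j] v = f2^[j] v ∧ f2^[j] v ∉ A := by
    intro j v hv
    induction j with
    | zero => simpa using hv
    | succ j ih =>
      rw [Function.iterate_succ_apply', Function.iterate_succ_apply', ih.1]
      exact ⟨by simp [glue, ih.2], b2' _ ih.2⟩
  have px := (hx' x).2 rfl
  have py := (hy' y).2 rfl
  refine ⟨x, y, fun v => ?_, px.1, py.1, by simp [glue, px], by simp [glue, py],
    fun v hv => ?_, fun v => ?_⟩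
  · by_cases hv : v ∈ A
    · simp [glue, hv, a2 v hv]
    · simp [glue, hv, b2' v hv]
  · by_cases hm : v ∈ A
    · exact Or.inl ((hx' v).1 ⟨hm, by simpa [glue, hm] using hv⟩)
    · exact Or.inr ((hy' v).1 ⟨hm, by simpa [glue, hm] using hv⟩)
  · by_cases hm : v ∈ A
    · obtain ⟨j, hj⟩ := a3 v
      refine ⟨j, ?_⟩
      rw [(i1 j v hm).1]
      simpa [glue, (i1 j v hm).2] using hj
    · obtain ⟨j, hj⟩ := b3 v
      refine ⟨j, ?_⟩
      rw [(i2 j v hm).1]
      simpa [glue, (i2 j v hm).2] using hj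

theorem par_fix {f : Fin N → Fin N} (h : f ∈ Par A 1) (v : Fin N) (hv : v ∉ A) : f v = v := by
  simp only [Par, mem_filter, mem_univ, true_and] at h
  exact h.1 v hv

end LowH

open LowH in
theorem low : LOW := by
  classical
  intro n r
  set S := (univ : Finset (Fin (2 * n))).powerset.filter (fun A => r ∈ A ∧ A.card = n) with hS
  have e1 : ∑ A ∈ S, (Par A 1).card * (Par Aᶜ 1).card =
      (S.sigma fun A => Par A 1 ×ˢ Par Aᶜ 1).card := by
    rw [card_sigma]
    simp only [card_product]
  rw [e1, ← Set.ncard_coe_finset]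
  refine Set.ncard_le_ncard_of_injOn (fun d => TT (glue d.1 d.2.1 d.2.2)) ?_ ?_ (Set.toFinite _)
  · rintro ⟨A, f1, f2⟩ hd
    simp only [mem_coe, mem_sigma, mem_product, hS, mem_filter] at hd
    obtain ⟨x, y, h⟩ := exists_dat hd.2.1 hd.2.2
    exact ⟨⟨le_top, h.tree⟩, h.split (by rw [hd.1.2.2])⟩
  · rintro ⟨A, f1, f2⟩ hd ⟨A', f1', f2'⟩ hd' e
    simp only [mem_coe, mem_sigma, mem_product, hS, mem_filter] at hd hd'
    obtain ⟨x, y, h⟩ := exists_dat hd.2.1 hd.2.2
    obtain ⟨x', y', h'⟩ := exists_dat hd'.2.1 hd'.2.2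
    obtain ⟨eA, eg⟩ := inj h h' e (by rw [hd.1.2.2]) (by rw [hd'.1.2.2]) r hd.1.2.1 hd'.1.2.1
    subst eA
    have q1 : f1 = f1' := by
      funext v
      by_cases hv : v ∈ A
      · simpa [glue, hv] using congrFun eg v
      · rw [par_fix hd.2.1 v hv, par_fix hd'.2.1 v hv]
    have q2 : f2 = f2' := by
      funext v
      by_cases hv : v ∈ A
      · rw [par_fix hd.2.2 v (by simpa using hv), par_fix hd'.2.2 v (by simpa using hv)]
      · simpa [glue, hv] using congrFun eg v
    rw [q1, q2]

end Pool.Agent.MP_ddaf7c_pr.K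

end MrgPart1

-- marker of a merged file
example : 731051 + 601583 = 731051 + 601583 := rfl
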