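import Mathlib.CategoryTheory.Countable
import Mathlib.MeasureTheory.Integral.IntervalIntegral.FundThmCalculus
import Mathlib.Analysis.Complex.ExponentialBounds
import Mathlib.Analysis.ODE.Gronwall
import Mathlib.MeasureTheory.Measure.RegularityCompacts
import Mathlib.Topology.UniformSpace.Uniformizable
import Pool.Agent.MP_ddaf7c_pr.K.Spec
import Pool.Agent.MP_ddaf7c_pr.K.Der
import Pool.Agent.MP_ddaf7c_pr.K.Low
import Pool.Agent.MP_ddaf7c_pr.A.Hinge

-- ======== part 0: formerly Pool.Agent.MP_ddaf7c_pr.K.Ex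
section MrgPart0

/-! Existence of a solution of the differential system. -/

set_option autoImplicit false

namespace Pool.Agent.MP_ddaf7c_pr.K

open Finset Real MeasureTheory

namespace Ex

/-- the solution of `x' = c x + F`, `x 0 = a` -/
noncomputable def sol (c a : ℝ) (F : ℝ → ℝ) (t : ℝ) : ℝ :=
  exp (c * t) * (a + ∫ s in (0 : ℝ)..t, exp (-(c * s)) * F s)

theorem sol_zero (c a : ℝ) (F : ℝ → ℝ) : sol c a F 0 = a := by simp [sol]

theorem sol_null (c t : ℝ) : sol c 0 (fun _ => 0) t = 0 := by simp [sol]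

theorem sol_der (c a : ℝ) {F : ℝ → ℝ} (hF : Continuous F) (t : ℝ) :
    HasDerivAt (sol c a F) (c * sol c a F t + F t) t := by
  have h1 : Continuous fun s => exp (-(c * s)) * F s := by fun_prop
  have h2 := ((h1.integral_hasStrictDerivAt 0 t).hasDerivAt).const_add a
  have h3 : HasDerivAt (fun s => exp (c * s)) (exp (c * t) * (c * 1)) t :=
    ((hasDerivAt_id t).const_mul c).exp
  have e : exp (c * t) * exp (-(c * t)) = 1 := by rw [← exp_add, add_neg_cancel, exp_zero]
  refine (h3.mul h2).congr_deriv ?_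
  unfold sol
  linear_combination F t * e

theorem sol_nonneg (c : ℝ) {a t : ℝ} {F : ℝ → ℝ} (ha : 0 ≤ a) (ht : 0 ≤ t)
    (hF : ∀ s, 0 ≤ s → 0 ≤ F s) : 0 ≤ sol c a F t :=
  mul_nonneg (exp_pos _).le (add_nonneg ha (intervalIntegral.integral_nonneg ht
    fun s hs => mul_nonneg (exp_pos _).le (hF s hs.1)))

/-- triangular systems -/
theorem tri {ι : Type} (r : ι → ℕ) (c a : ι → ℝ) (Φ : ι → ℝ → (ι → ℝ) → ℝ) (ha : ∀ i, 0 ≤ a i)
    (hc : ∀ i (x : ι → ℝ → ℝ), (∀ j, Continuous (x j)) → Continuous fun t => Φ i t fun j => x j t)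
    (hp : ∀ i t (y : ι → ℝ), 0 ≤ t → (∀ j, 0 ≤ y j) → 0 ≤ Φ i t y) :
    ∃ x : ι → ℝ → ℝ,
      (∀ i, x i = sol (c i) (a i) fun t => Φ i t fun j => if r j < r i then x j t else 0) ∧
      (∀ i t, HasDerivAt (x i)
        (c i * x i t + Φ i t fun j => if r j < r i then x j t else 0) t) ∧
      ∀ i t, 0 ≤ t → 0 ≤ x i t := by
  have wf : WellFounded fun j i => r j < r i := InvImage.wf r wellFounded_lt
  obtain ⟨x, hx⟩ : ∃ x : ι → ℝ → ℝ,
      ∀ i, x i = sol (c i) (a i) fun t => Φ i t fun j => if r j < r i then x j t else 0 :=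
    ⟨wf.fix fun i f => sol (c i) (a i) fun t => Φ i t fun j =>
      if h : r j < r i then f j h t else 0, fun i => by rw [wf.fix_eq]; rfl⟩
  have k : ∀ i, (∀ j, r j < r i → Continuous (x j)) → ∀ t, HasDerivAt (x i)
      (c i * x i t + Φ i t fun j => if r j < r i then x j t else 0) t := fun i h t => by
    have := sol_der (c i) (a i) (hc i (fun j t => if r j < r i then x j t else 0) fun j => by
      by_cases e : r j < r i
      · simpa only [if_pos e] using h j e
      · simpa only [if_neg e] using continuous_const) t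
    rwa [← hx i] at this
  have ct : ∀ i, Continuous (x i) := fun i => wf.induction (C := fun i => Continuous (x i)) i
    fun i h => continuous_iff_continuousAt.2 fun t => (k i h t).continuousAt
  refine ⟨x, hx, fun i => k i fun j _ => ct j, fun i => ?_⟩
  refine wf.induction (C := fun i => ∀ t, 0 ≤ t → 0 ≤ x i t) i fun i h t ht => ?_
  rw [hx i]
  refine sol_nonneg _ (ha i) ht fun s hs => hp i s _ hs fun j => ?_
  split_ifs with e
  exacts [h j e s hs, le_rfl]

theorem one : ∃ κ : ℕ → ℝ → ℝ, (∀ t, κ 0 t = 0) ∧ (∀ k, κ k 0 = if k = 1 then 1 else 0) ∧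
    (∀ k t, HasDerivAt (κ k) ((k : ℝ) ^ 2 / 2 * κ k t + V1 (fun j => κ j t) k) t) ∧
    ∀ k t, 0 ≤ t → 0 ≤ κ k t := by
  obtain ⟨x, h1, h2, h3⟩ := tri (fun k : ℕ => k) (fun k => (k : ℝ) ^ 2 / 2)
    (fun k => if k = 1 then 1 else 0) (fun k _ y => V1 y k)
    (fun i => by split_ifs <;> norm_num) (fun i x hx => by unfold V1; fun_prop)
    (fun i t y _ hy => sum_nonneg fun p _ =>
      mul_nonneg (mul_nonneg (Nat.cast_nonneg _) (hy _)) (hy _))
  have z : ∀ t, x 0 t = 0 := fun t => by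
    rw [h1 0]
    simp [V1, sol]
  refine ⟨x, z, fun k => by rw [h1 k, sol_zero], fun k t => (h2 k t).congr_deriv ?_, h3⟩
  refine congrArg _ (sum_congr rfl fun p hp => ?_)
  have e := mem_antidiagonal.1 hp
  rcases Nat.eq_zero_or_pos p.1 with a | a
  · simp [a]
  rcases Nat.eq_zero_or_pos p.2 with b | b
  · simp [b, z]
  simp only []
  rw [if_pos (by omega), if_pos (by omega)]

end Ex

open Ex

theorem ex : EX := by
  obtain ⟨κ, k1, k2, k3, k4⟩ := one
  have kc : ∀ k, Continuous (κ k) := fun k =>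
    continuous_iff_continuousAt.2 fun t => (k3 k t).continuousAt
  obtain ⟨x, h1, h2, h3⟩ := tri (fun p : ℕ × ℕ => p.1 + p.2) (fun p => ((p.1 : ℝ) + p.2) ^ 2 / 2)
    (fun _ => 0) (fun p t y => if p.1 = 0 ∨ p.2 = 0 then 0 else
      V2 (fun j => κ j t) (fun a b => y (a, b)) p.1 p.2)
    (fun _ => le_rfl) (fun i x hx => by
      split_ifs
      · exact continuous_const
      · unfold V2; fun_prop)
    (fun i t y ht hy => by
      split_ifs
      · exact le_rfl
      · exact add_nonneg (add_nonneg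
          (sum_nonneg fun p _ => mul_nonneg (mul_nonneg (Nat.cast_nonneg _) (hy _)) (k4 _ t ht))
          (sum_nonneg fun p _ => mul_nonneg (mul_nonneg (Nat.cast_nonneg _) (hy _)) (k4 _ t ht)))
          (mul_nonneg (k4 _ t ht) (k4 _ t ht)))
  have z : ∀ a b t, a = 0 ∨ b = 0 → x (a, b) t = 0 := fun a b t h => by
    rw [h1 (a, b)]
    simp only [if_pos h, sol_null]
  refine ⟨⟨fun t k => κ k t, fun t a b => x (a, b) t, k1, fun t b => z 0 b t (Or.inl rfl),
    fun t a => z a 0 t (Or.inr rfl), k2, fun a b => by rw [h1 (a, b), sol_zero], k3,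
    fun a b t => (h2 (a, b) t).congr_deriv (congrArg _ ?_), fun t ht k => k4 k t ht,
    fun t ht a b => h3 (a, b) t ht⟩⟩
  simp only []
  split_ifs with h
  · rcases h with rfl | rfl <;> simp [V2, z, k1]
  · unfold V2
    congr 2 <;> refine sum_congr rfl fun p hp => ?_ <;> have e := mem_antidiagonal.1 hp <;>
      rcases Nat.eq_zero_or_pos p.2 with b | b
    · simp [b, k1]
    · simp only []
      rw [if_pos (by omega)]
    · simp [b, k1]
    · simp only []
      rw [if_pos (by omega)]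

end Pool.Agent.MP_ddaf7c_pr.K

end MrgPart0

-- ======== part 1: formerly Pool.Agent.MP_ddaf7c_pr.K.StepA
section MrgPart1

/-! One step of the scheme preserves the two moment cones. -/

set_option autoImplicit false

namespace Pool.Agent.MP_ddaf7c_pr.K

open Finset Real

namespace StepA

variable {u v : ℕ → ℝ} {g g' : ℕ → ℕ → ℝ}

theorem atm_exp (h x : ℝ) (s : ℕ) : exp (h * s) * atm x s = exp h * atm (exp h * x) s := by
  cases s with
  | zero => simp [atm]
  | succ s =>
    simp only [atm, Nat.succ_ne_zero, if_false, Nat.add_sub_cancel, Nat.cast_succ]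
    rw [mul_add, mul_one, exp_add, mul_pow, ← exp_nat_mul, mul_comm (s : ℝ)]
    ring

theorem sum1 {κ : Type} [Fintype κ] (c : κ → ℝ) (w : κ → ℕ → ℝ) (hc : ∀ k, 0 ≤ c k)
    (hw : ∀ k, A1 (w k)) : A1 fun s => ∑ k, c k * w k s := by
  choose ι inst m x h e using hw
  refine ⟨Σ k, ι k, inferInstance, fun p => c p.1 * m p.1 p.2, fun p => x p.1 p.2,
    fun p => ⟨mul_nonneg (hc _) (h _ _).1, (h _ _).2⟩, fun s => ?_⟩
  simp only [Fintype.sum_sigma, e, mul_sum, mul_assoc]

theorem sum2 {κ : Type} [Fintype κ] (c : κ → ℝ) (w : κ → ℕ → ℕ → ℝ) (hc : ∀ k, 0 ≤ c k)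
    (hw : ∀ k, A2 (w k)) : A2 fun a b => ∑ k, c k * w k a b := by
  choose ι inst m x y h e using hw
  refine ⟨Σ k, ι k, inferInstance, fun p => c p.1 * m p.1 p.2, fun p => x p.1 p.2,
    fun p => y p.1 p.2, fun p => ⟨mul_nonneg (hc _) (h _ _).1, (h _ _).2⟩, fun a b => ?_⟩
  simp only [Fintype.sum_sigma, e, mul_sum, mul_assoc]

theorem lin1 {c d : ℝ} (hc : 0 ≤ c) (hd : 0 ≤ d) (hu : A1 u) (hv : A1 v) :
    A1 fun s => c * u s + d * v s := by
  simpa using sum1 (fun k : Bool => cond k c d) (fun k => cond k u v)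
    (fun k => by cases k <;> assumption) fun k => by cases k <;> assumption

theorem lin2 {c d : ℝ} (hc : 0 ≤ c) (hd : 0 ≤ d) (hu : A2 g) (hv : A2 g') :
    A2 fun a b => c * g a b + d * g' a b := by
  simpa using sum2 (fun k : Bool => cond k c d) (fun k => cond k g g')
    (fun k => by cases k <;> assumption) fun k => by cases k <;> assumption

theorem mul2 (hu : A1 u) (hv : A1 v) : A2 fun a b => u a * v b := by
  obtain ⟨ι, _, m, x, h, e⟩ := hu
  obtain ⟨ι', _, m', x', h', e'⟩ := hv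
  refine ⟨ι × ι', inferInstance, fun p => m p.1 * m' p.2, fun p => x p.1, fun p => x' p.2,
    fun p => ⟨mul_nonneg (h _).1 (h' _).1, (h _).2, (h' _).2⟩, fun a b => ?_⟩
  dsimp only
  rw [e, e', sum_mul_sum, Fintype.sum_prod_type]
  exact sum_congr rfl fun i _ => sum_congr rfl fun j _ => by ring

theorem dil1 (t : ℝ) (hu : A1 u) : A1 fun s => exp (t * s) * u s := by
  obtain ⟨ι, _, m, x, h, e⟩ := hu
  refine ⟨ι, inferInstance, fun i => m i * exp t, fun i => exp t * x i,
    fun i => ⟨mul_nonneg (h i).1 (exp_pos t).le, mul_nonneg (exp_pos t).le (h i).2⟩, fun s => ?_⟩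
  dsimp only
  rw [e, mul_sum]
  exact sum_congr rfl fun i _ => by rw [mul_left_comm, atm_exp, mul_assoc]

theorem dil2 (t : ℝ) (hg : A2 g) : A2 fun a b => exp (t * (a + b)) * g a b := by
  obtain ⟨ι, _, m, x, y, h, e⟩ := hg
  have p := (exp_pos t).le
  refine ⟨ι, inferInstance, fun i => m i * exp t * exp t, fun i => exp t * x i,
    fun i => exp t * y i, fun i => ⟨mul_nonneg (mul_nonneg (h i).1 p) p, mul_nonneg p (h i).2.1,
      mul_nonneg p (h i).2.2⟩, fun a b => ?_⟩
  dsimp only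
  rw [e, mul_sum, mul_add, exp_add]
  refine sum_congr rfl fun i _ => ?_
  calc _ = m i * (exp (t * a) * atm (x i) a) * (exp (t * b) * atm (y i) b) := by ring
    _ = _ := by rw [atm_exp, atm_exp]; ring

theorem cosh1 (t : ℝ) (hu : A1 u) : A1 fun s => cosh (t * s) * u s := by
  have e : (fun s : ℕ => cosh (t * s) * u s) =
      fun s : ℕ => 1 / 2 * (exp (t * s) * u s) + 1 / 2 * (exp (-t * s) * u s) := by
    ext s
    rw [cosh_eq, neg_mul]
    ring
  rw [e]
  exact lin1 one_half_pos.le one_half_pos.le (dil1 t hu) (dil1 (-t) hu)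

theorem cosh2 (t : ℝ) (hg : A2 g) : A2 fun a b => cosh (t * (a + b)) * g a b := by
  have e : (fun a b : ℕ => cosh (t * (a + b)) * g a b) = fun a b : ℕ =>
      1 / 2 * (exp (t * (a + b)) * g a b) + 1 / 2 * (exp (-t * (a + b)) * g a b) := by
    ext a b
    rw [cosh_eq, neg_mul]
    ring
  rw [e]
  exact lin2 one_half_pos.le one_half_pos.le (dil2 t hg) (dil2 (-t) hg)

end StepA

open StepA in
theorem stepa (h : ATOM) : STEPA := by
  intro f g δ hf hg hδ
  constructor
  · obtain ⟨ι, _, m, x, p, e⟩ := id hf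
    have k : (fun n => ∑ s ∈ range (n + 1), f s * cc δ f s n) =
        fun n => ∑ i, m i * ∑ s ∈ range (n + 1), atm (x i) s * cc δ f s n := by
      ext n
      simp only [mul_sum]
      rw [sum_comm]
      exact sum_congr rfl fun s _ => by rw [e s, sum_mul]; simp only [mul_assoc]
    refine cosh1 _ ?_
    rw [k]
    exact sum1 m _ (fun i => (p i).1) fun i => h f (x i) δ hf (p i).2 hδ
  · obtain ⟨ι, _, m, x, y, p, e⟩ := hg
    have k : (fun a b => ∑ s ∈ range (a + 1), ∑ r ∈ range (b + 1),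
        g s r * cc δ f s a * cc δ f r b) = fun a b => ∑ i, m i *
          ((∑ s ∈ range (a + 1), atm (x i) s * cc δ f s a) *
            ∑ r ∈ range (b + 1), atm (y i) r * cc δ f r b) := by
      ext a b
      simp only [sum_mul_sum]
      simp only [mul_sum]
      rw [sum_comm (s := univ)]
      refine sum_congr rfl fun s _ => ?_
      rw [sum_comm (s := univ)]
      refine sum_congr rfl fun r _ => ?_
      rw [e, sum_mul, sum_mul]
      exact sum_congr rfl fun i _ => by ring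
    have k2 := cosh2 (√δ) (k ▸ sum2 m _ (fun i => (p i).1) fun i =>
      mul2 (h f (x i) δ hf (p i).2.1 hδ) (h f (y i) δ hf (p i).2.2 hδ))
    have k3 := lin2 zero_le_one hδ k2 (mul2 hf hf)
    simp only [one_mul, ← mul_assoc] at k3
    exact k3

end Pool.Agent.MP_ddaf7c_pr.K

end MrgPart1

-- ======== part 2: formerly Pool.Agent.MP_ddaf7c_pr.K.Nag
section MrgPart2

set_option autoImplicit false

namespace Pool.Agent.MP_ddaf7c_pr.K

open Set Metric Filter Topology

theorem nag : NAG := by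
  intro E _ _ _ K V x hK hV hx h0 he T hT
  have := FiniteDimensional.proper_real E
  have hc : Continuous x := continuous_iff_continuousAt.2 fun t => (hx t).continuousAt
  obtain ⟨R, hR⟩ := (isCompact_Icc (a := (0 : ℝ)) (b := T)).exists_bound_of_continuousOn
    (hc.sub (continuous_const (y := x 0))).continuousOn
  obtain ⟨L, hL⟩ := hV.contDiffOn.exists_lipschitzOnWith one_ne_zero (convex_closedBall (x 0) (2 * R))
    (isCompact_closedBall _ _)
  have key := le_gronwallBound_of_liminf_deriv_right_le (f := fun t => infDist (x t) K)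
    (f' := fun t => L * infDist (x t) K) (δ := 0) (K := L) (ε := 0) (a := 0) (b := T)
    ((continuous_infDist_pt K).comp hc).continuousOn (fun t ht r hr => ?_)
    (infDist_zero_of_mem h0).le (fun t _ => (add_zero _).ge) T ⟨hT, le_rfl⟩
  · rw [gronwallBound_ε0_δ0] at key
    exact (hK.mem_iff_infDist_zero ⟨_, h0⟩).2 (key.antisymm infDist_nonneg)
  obtain ⟨p, hp, e1⟩ := hK.exists_infDist_eq_dist ⟨_, h0⟩ (x t)
  obtain ⟨e, e0, eK, hd⟩ := he p hp
  have h1 : dist (x t) (x 0) ≤ R := by rw [dist_eq_norm]; exact hR t ⟨ht.1, ht.2.le⟩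
  have h2 : dist (x t) p ≤ R := e1.ge.trans ((infDist_le_dist_of_mem h0).trans h1)
  have h3 := hL.dist_le_mul (x t) (mem_closedBall.2 (by linarith [dist_nonneg.trans h1])) p
    (mem_closedBall.2 (by linarith [dist_triangle_left p (x 0) (x t)]))
  have h4 := HasDerivWithinAt.scomp t (h := fun u => u - t) (by rw [sub_self]; exact hd)
    ((hasDerivAt_id t).sub_const t).hasDerivWithinAt fun u (hu : u ∈ Ici t) => sub_nonneg.2 hu
  rw [one_smul] at h4
  refine (((hx t).hasDerivWithinAt.sub h4).liminf_right_slope_norm_le (r := r)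
    (by rw [← dist_eq_norm]; exact h3.trans_lt (e1 ▸ hr))).mp ?_
  filter_upwards [self_mem_nhdsWithin] with u (hu : t < u) h
  refine lt_of_le_of_lt (mul_le_mul_of_nonneg_left ?_ (inv_nonneg.2 (sub_pos.2 hu).le)) h
  simp only [Pi.sub_apply, Function.comp_apply, sub_self, e0, ← dist_eq_norm, e1]
  exact sub_le_sub_right (infDist_le_dist_of_mem (eK _ (sub_pos.2 hu).le)) _

theorem dini : DINI := by
  intro G P Q hQ hP h0 hG T hT
  obtain ⟨M, hM⟩ := ((isCompact_Icc (a := (0 : ℝ)) (b := T)).prod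
    (isCompact_Icc (a := (0 : ℝ)) (b := T))).exists_bound_of_continuousOn hQ.continuousOn
  have hL : LipschitzOnWith M.toNNReal G (Icc 0 T) :=
    LipschitzOnWith.of_le_add_mul _ fun s hs t ht => by
      rcases le_total s t with h | h
      · exact (hG s t hs.1 h).1.trans (le_add_of_nonneg_right (by positivity))
      · refine (hG t s ht.1 h).2.trans (add_le_add_right ?_ _)
        rw [Real.dist_eq, abs_of_nonneg (sub_nonneg.2 h), mul_comm]
        exact mul_le_mul_of_nonneg_right (((le_abs_self _).trans (hM (t, s) ⟨ht, hs⟩)).trans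
          (Real.le_coe_toNNReal M)) (sub_nonneg.2 h)
  refine image_le_of_liminf_slope_right_le_deriv_boundary hL.continuousOn h0
    (fun t _ => (hP t).continuousAt.continuousWithinAt) (fun t _ => (hP t).hasDerivWithinAt)
    (fun t ht r hr => Eventually.frequently ?_) ⟨hT, le_rfl⟩
  have h1 : Continuous fun u => Q t u := hQ.comp (Continuous.prodMk_right t)
  filter_upwards [self_mem_nhdsWithin,
    nhdsWithin_le_nhds ((h1.tendsto t).eventually (gt_mem_nhds hr))] with u (hu : t < u) h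
  rw [slope_def_field]
  refine lt_of_le_of_lt ((div_le_iff₀ (sub_pos.2 hu)).2 ?_) h
  linarith [(hG t u ht.1 hu.le).2]

end Pool.Agent.MP_ddaf7c_pr.K

end MrgPart2

-- ======== part 3: formerly Pool.Agent.MP_ddaf7c_pr.K.Gen1
section MrgPart3

set_option autoImplicit false

namespace Pool.Agent.MP_ddaf7c_pr.K

open Finset Real

namespace Gen1

lemma raw (S : Sol) (M : ℕ) (φ : ℝ → ℕ → ℝ) (φ' : ℕ → ℝ) (t : ℝ)
    (h : ∀ k, HasDerivAt (fun τ => φ τ k) (φ' k) t) :
    HasDerivAt (fun τ => I1 S M (φ τ) τ)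
      (I1 S M (fun k => φ' k + k * (I1 S (M - k) (fun s => φ t (k + s)) t -
        ((M - k : ℕ) : ℝ) * φ t k)) t) t := by
  have hd : HasDerivAt (fun τ => ∑ k ∈ range (M + 1), wt M k τ * S.κ τ k * φ τ k)
      (∑ k ∈ range (M + 1),
        (((((k : ℝ) ^ 2 / 2 - k * M) * wt M k t) * S.κ t k +
          wt M k t * ((k : ℝ) ^ 2 / 2 * S.κ t k + V1 (S.κ t) k)) * φ t k +
          wt M k t * S.κ t k * φ' k)) t :=
    HasDerivAt.fun_sum fun k _ => ((wt_deriv M k t).fun_mul (S.dκ k t)).fun_mul (h k)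
  refine hd.congr_deriv ?_
  have hgain : ∑ k ∈ range (M + 1), wt M k t * V1 (S.κ t) k * φ t k =
      ∑ k ∈ range (M + 1), wt M k t * S.κ t k *
        (k * I1 S (M - k) (fun s => φ t (k + s)) t) := by
    have h1 : ∑ k ∈ range (M + 1), wt M k t * V1 (S.κ t) k * φ t k =
        ∑ k ∈ range (M + 1), ∑ p ∈ antidiagonal k,
          (fun i j : ℕ => wt M (i + j) t * ((i : ℝ) * S.κ t i * S.κ t j) * φ t (i + j))
            p.1 p.2 := by
      refine sum_congr rfl fun k _ => ?_
      unfold V1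
      rw [mul_sum, sum_mul]
      refine sum_congr rfl fun p hp => ?_
      rw [HasAntidiagonal.mem_antidiagonal] at hp
      simp only [hp]
    rw [h1, sum_antidiag M
      (fun i j : ℕ => wt M (i + j) t * ((i : ℝ) * S.κ t i * S.κ t j) * φ t (i + j))
      (fun i j hij => by rw [wt_of_lt hij]; simp)]
    refine sum_congr rfl fun k _ => ?_
    rw [I1_eq_range S (Nat.sub_le M k), mul_sum, mul_sum]
    exact sum_congr rfl fun s _ => by rw [wt_add]; ring
  have hsplit : ∀ k ∈ range (M + 1),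
      (((((k : ℝ) ^ 2 / 2 - k * M) * wt M k t) * S.κ t k +
          wt M k t * ((k : ℝ) ^ 2 / 2 * S.κ t k + V1 (S.κ t) k)) * φ t k +
          wt M k t * S.κ t k * φ' k) =
        wt M k t * S.κ t k * (φ' k - k * (((M - k : ℕ) : ℝ) * φ t k)) +
          wt M k t * V1 (S.κ t) k * φ t k := by
    intro k hk
    have hk' : k ≤ M := by simp at hk; omega
    rw [Nat.cast_sub hk']; ring
  rw [sum_congr rfl hsplit, sum_add_distrib, hgain, ← sum_add_distrib, I1]
  exact sum_congr rfl fun k _ => by ring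

end Gen1

theorem mass : MASS := by
  intro S M
  induction M using Nat.strong_induction_on with
  | _ M ih =>
    have hd : ∀ t, HasDerivAt (fun τ => I1 S M (fun _ => 1) τ) 0 t := by
      intro t
      have := Gen1.raw S M (fun _ _ => 1) (fun _ => 0) t (fun _ => hasDerivAt_const _ _)
      refine this.congr_deriv ?_
      refine Eq.trans (I1_congr S M t fun k hk hkM => ?_) (I1_zero S M t)
      rw [ih (M - k) (by omega) t]; ring
    intro t
    have hc := is_const_of_deriv_eq_zero (f := fun τ => I1 S M (fun _ => 1) τ)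
      (fun τ => (hd τ).differentiableAt) (fun τ => (hd τ).deriv) t 0
    rw [hc, I1_at_zero]; ring

theorem gen1 : GEN1 := by
  intro S M φ φ' t h
  refine (Gen1.raw S M φ φ' t h).congr_deriv ?_
  refine I1_congr S M t fun k _ _ => ?_
  rw [I1_sub S (M - k) (fun s => φ t (k + s)) (fun _ => φ t k) t, I1_const mass]
  ring

end Pool.Agent.MP_ddaf7c_pr.K

end MrgPart3

-- ======== part 4: formerly Pool.Agent.MP_ddaf7c_pr.K.Gen2
section MrgPart4

set_option autoImplicit false

namespace Pool.Agent.MP_ddaf7c_pr.K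

open Finset Real

namespace Gen2

/-- the first transport term -/
lemma tr1 (S : Sol) (M : ℕ) (g ψ : ℕ → ℕ → ℝ) (t : ℝ) :
    ∑ a ∈ range (M + 1), ∑ b ∈ range (M + 1),
        wt M (a + b) t * (∑ p ∈ antidiagonal a, (p.1 : ℝ) * g p.1 b * S.κ t p.2) * ψ a b =
      ∑ a ∈ range (M + 1), ∑ b ∈ range (M + 1),
        wt M (a + b) t * g a b * (a * I1 S (M - (a + b)) (fun s => ψ (a + s) b) t) := by
  rw [sum_comm, sum_comm (s := range (M + 1)) (t := range (M + 1))
    (f := fun a b => wt M (a + b) t * g a b * (a * I1 S (M - (a + b)) (fun s => ψ (a + s) b) t))]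
  refine sum_congr rfl fun b _ => ?_
  have h1 : ∀ a ∈ range (M + 1),
      wt M (a + b) t * (∑ p ∈ antidiagonal a, (p.1 : ℝ) * g p.1 b * S.κ t p.2) * ψ a b =
        ∑ p ∈ antidiagonal a, (fun j s : ℕ => wt M (j + s + b) t *
          ((j : ℝ) * g j b * S.κ t s) * ψ (j + s) b) p.1 p.2 := by
    intro a _
    rw [mul_sum, sum_mul]
    refine sum_congr rfl fun p hp => ?_
    rw [HasAntidiagonal.mem_antidiagonal] at hp
    simp only [hp]
  rw [sum_congr rfl h1, sum_antidiag M (fun j s : ℕ => wt M (j + s + b) t *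
          ((j : ℝ) * g j b * S.κ t s) * ψ (j + s) b) ?_]
  · refine sum_congr rfl fun j _ => ?_
    rw [I1_eq_range S (Nat.sub_le M (j + b)), mul_sum, mul_sum]
    refine sum_congr rfl fun s _ => ?_
    rw [show j + s + b = j + b + s by ring, wt_add M (j + b) s]
    ring
  · intro i j hij
    rw [wt_of_lt (by omega)]
    simp

/-- the second transport term -/
lemma tr2 (S : Sol) (M : ℕ) (g ψ : ℕ → ℕ → ℝ) (t : ℝ) :
    ∑ a ∈ range (M + 1), ∑ b ∈ range (M + 1),
        wt M (a + b) t * (∑ p ∈ antidiagonal b, (p.1 : ℝ) * g a p.1 * S.κ t p.2) * ψ a b =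
      ∑ a ∈ range (M + 1), ∑ b ∈ range (M + 1),
        wt M (a + b) t * g a b * (b * I1 S (M - (a + b)) (fun s => ψ a (b + s)) t) := by
  have h := tr1 S M (fun a b => g b a) (fun a b => ψ b a) t
  rw [sum_comm] at h
  rw [sum_comm (s := range (M + 1)) (t := range (M + 1))
    (f := fun a b => wt M (a + b) t * g a b * (b * I1 S (M - (a + b)) (fun s => ψ a (b + s)) t))]
  calc _ = _ := sum_congr rfl fun a _ => sum_congr rfl fun b _ => by rw [add_comm a b]
    _ = _ := h
    _ = _ := sum_congr rfl fun b _ => sum_congr rfl fun a _ => by rw [add_comm b a]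

/-- the source term -/
lemma src (S : Sol) (M : ℕ) (ψ : ℕ → ℕ → ℝ) (t : ℝ) :
    ∑ a ∈ range (M + 1), ∑ b ∈ range (M + 1), wt M (a + b) t * (S.κ t a * S.κ t b) * ψ a b =
      I1 S M (fun a => I1 S (M - a) (fun b => ψ a b) t) t := by
  rw [I1]
  refine sum_congr rfl fun a _ => ?_
  rw [I1_eq_range S (Nat.sub_le M a), mul_sum]
  exact sum_congr rfl fun b _ => by rw [wt_add]; ring

/-- the linear term -/
lemma lin (M k : ℕ) (t : ℝ) :
    wt M k t * ((k : ℝ) ^ 2 - k * M) = -(wt M k t * (k * ((M - k : ℕ) : ℝ))) := by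
  by_cases hk : M < k
  · rw [wt_of_lt hk]; simp
  · rw [Nat.cast_sub (by omega)]; ring

end Gen2

open Gen2 in
theorem gen2 (h : MASS) : GEN2 := by
  intro S M φ φ' t hφ
  have hd : HasDerivAt (fun τ => I2 S M (φ τ) τ)
      (∑ a ∈ range (M + 1), ∑ b ∈ range (M + 1),
        ((((((a + b : ℕ) : ℝ) ^ 2 / 2 - ((a + b : ℕ) : ℝ) * M) * wt M (a + b) t) * S.B t a b +
          wt M (a + b) t * (((a : ℝ) + b) ^ 2 / 2 * S.B t a b + V2 (S.κ t) (S.B t) a b)) *
            φ t a b + wt M (a + b) t * S.B t a b * φ' a b)) t := by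
    unfold I2
    refine HasDerivAt.fun_sum fun a _ => HasDerivAt.fun_sum fun b _ => ?_
    exact ((wt_deriv M (a + b) t).fun_mul (S.dB a b t)).fun_mul (hφ a b)
  refine hd.congr_deriv ?_
  rw [← src, I2]
  have e1 := tr1 S M (S.B t) (φ t) t
  have e2 := tr2 S M (S.B t) (φ t) t
  have key : ∀ a ∈ range (M + 1), ∀ b ∈ range (M + 1),
      (((((a + b : ℕ) : ℝ) ^ 2 / 2 - ((a + b : ℕ) : ℝ) * M) * wt M (a + b) t) * S.B t a b +
          wt M (a + b) t * (((a : ℝ) + b) ^ 2 / 2 * S.B t a b + V2 (S.κ t) (S.B t) a b)) *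
            φ t a b + wt M (a + b) t * S.B t a b * φ' a b +
        wt M (a + b) t * S.B t a b * (a * I1 S (M - (a + b)) (fun s => φ t (a + s) b) t) +
        wt M (a + b) t * S.B t a b * (b * I1 S (M - (a + b)) (fun s => φ t a (b + s)) t) =
      wt M (a + b) t * S.B t a b * (φ' a b +
          a * I1 S (M - (a + b)) (fun s => φ t (a + s) b - φ t a b) t +
          b * I1 S (M - (a + b)) (fun s => φ t a (b + s) - φ t a b) t) +
        wt M (a + b) t * (S.κ t a * S.κ t b) * φ t a b +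
        wt M (a + b) t * (∑ p ∈ antidiagonal a, (p.1 : ℝ) * S.B t p.1 b * S.κ t p.2) * φ t a b +
        wt M (a + b) t * (∑ p ∈ antidiagonal b, (p.1 : ℝ) * S.B t a p.1 * S.κ t p.2) *
          φ t a b := by
    intro a _ b _
    rw [I1_sub, I1_sub, I1_const h, V2]
    have hl := lin M (a + b) t
    rw [Nat.cast_add] at hl ⊢
    linear_combination (S.B t a b * φ t a b) * hl
  have hs := sum_congr rfl fun a ha => sum_congr rfl fun b hb => key a ha b hb
  simp only [sum_add_distrib] at hs ⊢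
  linarith [hs, e1, e2]

end Pool.Agent.MP_ddaf7c_pr.K

end MrgPart4

-- ======== part 5: formerly Pool.Agent.MP_ddaf7c_pr.K.Lam
section MrgPart5

/-! The exponential test functions. -/

set_option autoImplicit false

namespace Pool.Agent.MP_ddaf7c_pr.K

open Real

namespace Lam

theorem one_sub_le (r : ℝ) (hr : 0 ≤ r) : 1 - exp (-(r + r ^ 2 / 2)) ≤ r := by
  have h := le_of_deriv_nonpos (f := fun x => (1 - x) * exp (x + x * x / 2)) hr fun x _ _ =>
    ⟨_, ((hasDerivAt_id' x).const_sub 1).fun_mul (((hasDerivAt_id' x).fun_add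
      (((hasDerivAt_id' x).fun_mul (hasDerivAt_id' x)).div_const 2)).exp), by
      have := mul_nonneg (sq_nonneg x) (exp_pos (x + x * x / 2)).le
      nlinarith⟩
  simp only [sub_zero, mul_zero, zero_div, add_zero, exp_zero, mul_one] at h
  rw [exp_neg, sq]
  have h2 := (le_div_iff₀ (exp_pos (r + r * r / 2))).2 h
  rw [one_div] at h2
  linarith

/-- the test function -/
noncomputable def ph (N : ℕ) (ε t0 t : ℝ) (k : ℕ) : ℝ := 1 - exp (-(th N ε t0 t * k))

theorem ph_deriv (N : ℕ) (ε t0 t : ℝ) (k : ℕ) : HasDerivAt (fun τ => ph N ε t0 τ k)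
    (-(4 * ε * N) * (k * exp (-(th N ε t0 t * k)))) t := by
  have h := ((((((hasDerivAt_id' t).const_sub t0).const_mul (4 * ε * N)).const_add
    (4 * ε ^ 2)).mul_const (k : ℝ)).fun_neg.exp).const_sub 1
  exact h.congr_deriv (by unfold th; ring)

theorem ph_add (N : ℕ) (ε t0 t : ℝ) (k s : ℕ) :
    ph N ε t0 t (k + s) - ph N ε t0 t k = exp (-(th N ε t0 t * k)) * ph N ε t0 t s := by
  unfold ph
  rw [mul_sub, ← exp_add]
  push_cast
  rw [show -(th N ε t0 t * (k + s)) = -(th N ε t0 t * k) + -(th N ε t0 t * s) by ring]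
  ring

theorem ph_nonneg (N : ℕ) {ε t0 t : ℝ} (hε : 0 ≤ ε) (ht : t ≤ t0) (k : ℕ) :
    0 ≤ ph N ε t0 t k := by
  have h1 : 0 ≤ t0 - t := sub_nonneg.2 ht
  have h2 : 0 ≤ th N ε t0 t * k := by unfold th; positivity
  exact sub_nonneg.2 (exp_le_one_iff.2 (by linarith))

theorem lam' (h : GEN1) (S : Sol) (N : ℕ) (ε t0 : ℝ) (hε : 0 ≤ ε) (h0 : N * t0 = 1 + ε) (M : ℕ) :
    M ≤ N → ∀ t, 0 ≤ t → t ≤ t0 → I1 S M (ph N ε t0 t) t ≤ 4 * ε * N := by
  induction M using Nat.strong_induction_on with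
  | _ M ih =>
    intro hM t ht ht0
    have h1 : I1 S M (ph N ε t0 t) t ≤ I1 S M (ph N ε t0 0) 0 := by
      refine le_of_deriv_nonpos (f := fun τ => I1 S M (ph N ε t0 τ) τ) ht fun τ a b =>
        ⟨_, h S M (ph N ε t0) _ τ (ph_deriv N ε t0 τ), ?_⟩
      rw [← I1_zero S M τ]
      refine I1_mono S M a fun k k1 k2 => ?_
      simp only [ph_add]
      rw [I1_mul]
      have h2 := ih (M - k) (by omega) (by omega) τ a (b.trans ht0)
      have h3 : 0 ≤ (k : ℝ) * exp (-(th N ε t0 τ * k)) := by positivity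
      have := mul_le_mul_of_nonneg_left h2 h3
      linarith
    have e : th N ε t0 0 * ((1 : ℕ) : ℝ) = 4 * ε + (4 * ε) ^ 2 / 2 := by
      unfold th; push_cast; linear_combination 4 * ε * h0
    have h4 : ph N ε t0 0 1 ≤ 4 * ε := by
      rw [ph, e]; exact one_sub_le _ (by linarith)
    have h5 : (M : ℝ) ≤ N := by exact_mod_cast hM
    rw [I1_at_zero] at h1
    have h6 := mul_le_mul_of_nonneg_left h4 (Nat.cast_nonneg (α := ℝ) M)
    have h7 := mul_le_mul_of_nonneg_right h5 hε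
    linarith

end Lam

open Lam

theorem lam (h : GEN1) : LAM := fun S N ε t0 hε h0 M => lam' h S N ε t0 hε h0 M

theorem two (h1 : GEN1) (h2 : GEN2) : TWO := by
  intro S N ε t0 hε h0
  have ht0 : 0 ≤ t0 := by
    by_contra hn
    have := mul_nonpos_of_nonneg_of_nonpos (Nat.cast_nonneg (α := ℝ) N) (not_le.1 hn).le
    linarith
  have hL := lam' h1 S N ε t0 hε h0
  have hρ : 0 ≤ 4 * ε * N := by positivity
  have h3 := le_of_deriv_nonpos (f := fun τ =>
    I2 S N (fun a b => ph N ε t0 τ a * ph N ε t0 τ b) τ - τ * (4 * ε * N) ^ 2) ht0 fun τ p q => by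
      refine ⟨_, (h2 S N (fun τ a b => ph N ε t0 τ a * ph N ε t0 τ b) _ τ fun a b =>
        (ph_deriv N ε t0 τ a).fun_mul (ph_deriv N ε t0 τ b)).fun_sub
        ((hasDerivAt_id' τ).mul_const _), ?_⟩
      have hn := ph_nonneg N hε q
      have s1 : I1 S N (fun a => I1 S (N - a) (fun b => ph N ε t0 τ a * ph N ε t0 τ b) τ) τ ≤
          (4 * ε * N) ^ 2 := by
        calc _ ≤ I1 S N (fun a => 4 * ε * N * ph N ε t0 τ a) τ := by
              refine I1_mono S N p fun a _ _ => ?_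
              rw [I1_mul, mul_comm (4 * ε * N)]
              exact mul_le_mul_of_nonneg_left (hL _ (Nat.sub_le _ _) τ p q) (hn a)
          _ ≤ _ := by
              rw [I1_mul, sq]
              exact mul_le_mul_of_nonneg_left (hL _ le_rfl τ p q) hρ
      rw [one_mul, sub_nonpos]
      refine (add_le_add ?_ s1).trans (zero_add _).le
      rw [← I2_zero S N τ]
      refine I2_mono S N p fun a b _ _ _ => ?_
      have e1 : ∀ s, ph N ε t0 τ (a + s) * ph N ε t0 τ b - ph N ε t0 τ a * ph N ε t0 τ b =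
          (exp (-(th N ε t0 τ * a)) * ph N ε t0 τ b) * ph N ε t0 τ s := fun s => by
        rw [← sub_mul, ph_add]; ring
      have e2 : ∀ s, ph N ε t0 τ a * ph N ε t0 τ (b + s) - ph N ε t0 τ a * ph N ε t0 τ b =
          (exp (-(th N ε t0 τ * b)) * ph N ε t0 τ a) * ph N ε t0 τ s := fun s => by
        rw [← mul_sub, ph_add]; ring
      simp only [e1, e2]
      rw [I1_mul, I1_mul]
      have h4 := hL (N - (a + b)) (Nat.sub_le _ _) τ p q
      have h5 : 0 ≤ (a : ℝ) * (exp (-(th N ε t0 τ * a)) * ph N ε t0 τ b) := by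
        have := hn b; positivity
      have h6 : 0 ≤ (b : ℝ) * (exp (-(th N ε t0 τ * b)) * ph N ε t0 τ a) := by
        have := hn a; positivity
      have h7 := mul_le_mul_of_nonneg_left h4 h5
      have h8 := mul_le_mul_of_nonneg_left h4 h6
      linarith
  have e : ∀ k : ℕ, ph N ε t0 t0 k = 1 - exp (-(4 * ε ^ 2 * k)) := fun k => by simp [ph, th]
  simp only [e, I2_at_zero] at h3
  linarith

end Pool.Agent.MP_ddaf7c_pr.K

end MrgPart5

-- ======== part 6: formerly Pool.Agent.MP_ddaf7c_pr.K.Sub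
section MrgPart6

set_option autoImplicit false

namespace Pool.Agent.MP_ddaf7c_pr.K

open Finset Real

namespace SubA

/-- the first moment -/
noncomputable def Sg (S : Sol) (M : ℕ) (t : ℝ) : ℝ := I1 S M (fun k => (k : ℝ)) t

variable (S : Sol) (M : ℕ) {t : ℝ}

theorem dSg (h1 : GEN1) (t : ℝ) :
    HasDerivAt (Sg S M) (I1 S M (fun k => k * Sg S (M - k) t) t) t :=
  (h1 S M (fun _ k => (k : ℝ)) (fun _ => 0) t fun _ => hasDerivAt_const _ _).congr_deriv
    (by simp [Sg])

theorem lin (t : ℝ) : HasDerivAt (fun τ : ℝ => 1 - M * τ) (-M) t :=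
  (((hasDerivAt_id' t).const_mul (M : ℝ)).const_sub 1).congr_deriv (by simp)

theorem up {M' : ℕ} (ht : 0 ≤ t) (hM : M' ≤ M) (h : Sg S M' t * (1 - M' * t) ≤ M') :
    (1 - M * t) * Sg S M' t ≤ M := by
  have h0 : 0 ≤ Sg S M' t := I1_nonneg S _ ht fun _ _ _ => Nat.cast_nonneg _
  have h2 : (M' : ℝ) ≤ M := Nat.cast_le.2 hM
  nlinarith [mul_nonneg h0 (mul_nonneg (sub_nonneg.2 h2) ht)]

theorem der_le (ht : 0 ≤ t) (h : ∀ k, 1 ≤ k → k ≤ M → (1 - M * t) * Sg S (M - k) t ≤ M) :
    (1 - M * t) * I1 S M (fun k => k * Sg S (M - k) t) t ≤ M * Sg S M t := by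
  rw [← I1_mul, Sg, ← I1_mul]
  exact I1_mono S M ht fun k a b => by nlinarith [h k a b, Nat.cast_nonneg (α := ℝ) k]

theorem sg (h1 : GEN1) : ∀ t : ℝ, 0 ≤ t → M * t < 1 → Sg S M t * (1 - M * t) ≤ M := by
  induction M using Nat.strong_induction_on with
  | _ M ih =>
    intro t ht h
    have := le_of_deriv_nonpos (f := fun τ => Sg S M τ * (1 - M * τ)) ht fun τ h0 hτ =>
      ⟨_, (dSg S M h1 τ).fun_mul (lin M τ), by
        have := der_le S M h0 fun k a b => up S M h0 (Nat.sub_le _ _) (ih _ (by omega) τ h0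
          (lt_of_le_of_lt (by gcongr; omega) h))
        linarith⟩
    simpa [Sg, I1_at_zero] using this

end SubA

open SubA

theorem sub (h1 : GEN1) (h2 : GEN2) : SUB := by
  intro S M t ht h
  have key := le_of_deriv_nonpos
    (f := fun τ => (I2 S M (fun a b => (a : ℝ) * b) τ + Sg S M τ) * (1 - M * τ) ^ 2) ht
    fun τ h0 hτ => ?_
  · rw [le_div_iff₀ (pow_pos (sub_pos.2 h) 2)]
    simpa [Sg, I1_at_zero, I2_at_zero] using key
  have hM : M * τ < 1 := lt_of_le_of_lt (by gcongr) h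
  have hb : ∀ k, (1 - M * τ) * Sg S (M - k) τ ≤ M := fun k => up S M h0 (Nat.sub_le _ _)
    (sg S _ h1 τ h0 (lt_of_le_of_lt (by gcongr; omega) hM))
  have d : HasDerivAt (fun τ => I2 S M (fun a b => (a : ℝ) * b) τ)
      (I2 S M (fun a b => 2 * (a * b) * Sg S (M - (a + b)) τ) τ +
        I1 S M (fun k => k * Sg S (M - k) τ) τ) τ := by
    refine (h2 S M (fun _ a b => (a : ℝ) * b) (fun _ _ => 0) τ
      fun _ _ => hasDerivAt_const _ _).congr_deriv ?_
    congr 1
    · refine I2_congr S M τ fun a b _ _ _ => ?_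
      rw [I1_congr S _ τ (ψ := fun s => b * (s : ℝ)) fun s _ _ => by push_cast; ring,
        I1_congr S _ τ (φ := fun s => a * ((b + s : ℕ) : ℝ) - a * b) (ψ := fun s => a * (s : ℝ))
          fun s _ _ => by push_cast; ring, I1_mul, I1_mul, Sg]
      ring
    · exact I1_congr S M τ fun a _ _ => I1_mul S _ _ _ τ
  have b1 := der_le S M h0 fun k _ _ => hb k
  have b2 : (1 - M * τ) * I2 S M (fun a b => 2 * (a * b) * Sg S (M - (a + b)) τ) τ ≤
      2 * M * I2 S M (fun a b => (a : ℝ) * b) τ := by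
    rw [← I2_mul, ← I2_mul]
    exact I2_mono S M h0 fun a b _ _ _ => by
      nlinarith [hb (a + b), mul_nonneg (Nat.cast_nonneg (α := ℝ) a) (Nat.cast_nonneg (α := ℝ) b)]
  refine ⟨_, (d.fun_add (dSg S M h1 τ)).fun_mul ((lin M τ).fun_pow 2), ?_⟩
  norm_num
  nlinarith [sub_pos.2 hM]

theorem crude (h0 : MASS) (h2 : GEN2) : CRUDE := by
  intro S M t ht
  have key := le_of_deriv_nonpos (f := fun τ => I2 S M (fun _ _ => 1) τ - (M : ℝ) ^ 2 * τ) ht
    fun τ h _ => ⟨_, (h2 S M (fun _ _ _ => 1) (fun _ _ => 0) τ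
      fun _ _ => hasDerivAt_const _ _).fun_sub ((hasDerivAt_id' τ).const_mul _), by
        have := I1_mono S M h (φ := fun a => I1 S (M - a) (fun _ => 1) τ) (ψ := fun _ => M)
          fun a _ _ => by rw [h0]; exact Nat.cast_le.2 (Nat.sub_le _ _)
        rw [I1_const h0] at this
        simp only [sub_self, I1_zero, mul_zero, add_zero, I2_zero]
        linarith⟩
  simpa [I2_at_zero] using key

end Pool.Agent.MP_ddaf7c_pr.K

end MrgPart6

-- ======== part 7: formerly Pool.Agent.MP_ddaf7c_pr.K.Gap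
section MrgPart7

set_option autoImplicit false

namespace Pool.Agent.MP_ddaf7c_pr.K

open Finset Real

namespace Gap

theorem one_le_mul_exp {y c : ℝ} (h0 : 0 ≤ y) (h1 : y < 1) (hc : 0 ≤ c)
    (h : 1 ≤ c ^ 2 * (1 - y)) : 1 ≤ (1 - y) * exp (c * y) := by
  obtain ⟨r, hr, hr2⟩ : ∃ r : ℝ, 0 < r ∧ r ^ 2 = 1 - y :=
    ⟨√(1 - y), sqrt_pos.2 (by linarith), sq_sqrt (by linarith)⟩
  have r1 : r ≤ 1 := by nlinarith
  have hx : 1 ≤ r⁻¹ := (one_le_inv₀ hr).2 r1
  have a := self_le_sinh_iff.2 (log_nonneg hx)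
  rw [sinh_log (inv_pos.2 hr), inv_inv] at a
  have cr : 1 ≤ c * r := by
    by_contra hlt
    push Not at hlt
    have : 0 ≤ c * r := by positivity
    nlinarith
  have b : r⁻¹ - r ≤ c * y := by
    have e : r⁻¹ - r = y / r := by
      field_simp
      linarith
    rw [e, div_le_iff₀ hr]
    nlinarith
  have d : r⁻¹ ^ 2 ≤ exp (c * y) := by
    rw [← exp_log (pow_pos (inv_pos.2 hr) 2), log_pow]
    apply exp_le_exp.2
    push_cast
    linarith
  rw [← hr2]
  calc (1 : ℝ) = r ^ 2 * r⁻¹ ^ 2 := by field_simp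
    _ ≤ _ := by gcongr

theorem poly {μ L : ℝ} (h0 : 0 < μ) (h1 : μ ≤ 1) (hL : 1 + 7 * μ / 8 ≤ L) :
    L ≤ (L - μ / 5) ^ 2 * (1 - μ / 4) := by
  obtain ⟨s, hs, rfl⟩ : ∃ s, 0 ≤ s ∧ L = 1 + 7 * μ / 8 + s := ⟨L - (1 + 7 * μ / 8), by linarith,
    by ring⟩
  have a : 0 ≤ μ * (1 - μ) := mul_nonneg h0.le (by linarith)
  have b : 0 ≤ μ ^ 2 * (1 - μ) := mul_nonneg (sq_nonneg _) (by linarith)
  have c : 0 ≤ s * (1 - μ) := mul_nonneg hs (by linarith)
  have d : 0 ≤ s ^ 2 * (1 - μ / 4) := mul_nonneg (sq_nonneg _) (by linarith)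
  have e : 0 ≤ s * (μ * (1 - μ)) := mul_nonneg hs a
  have f : 0 ≤ s * μ := mul_nonneg hs h0.le
  nlinarith [sq_nonneg μ]

theorem step (N ν k : ℕ) (μ t : ℝ) (h0 : 0 < μ) (h1 : μ ≤ 1) (ht : 0 < t) (hν : ν + 1 ≤ N)
    (hL : 1 + 7 * μ / 8 ≤ t * (ν + 1)) (hk : 1 - μ / 4 ≤ ((ν : ℝ) + 1 - k) * t) :
    wt (ν + 1) k t ≤ exp (-(k * μ / (5 * N))) * wt ν k t := by
  have hm : (0 : ℝ) < (ν : ℝ) + 1 := by positivity
  have hmk : (0 : ℝ) < (ν : ℝ) + 1 - k := by
    by_contra hlt
    push Not at hlt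
    nlinarith
  have hkm : k ≤ ν + 1 := by
    have : (k : ℝ) ≤ (ν : ℝ) + 1 := by linarith
    exact_mod_cast this
  have hN : (ν : ℝ) + 1 ≤ N := by exact_mod_cast hν
  have hD : ((ν : ℝ) + 1 - k) * ((ν + 1).descFactorial k : ℝ) =
      ((ν : ℝ) + 1) * (ν.descFactorial k : ℝ) := by
    have := congrArg (Nat.cast : ℕ → ℝ) (Nat.succ_descFactorial ν k)
    push_cast [Nat.cast_sub hkm] at this
    exact this
  have hy : 1 - (k : ℝ) / (ν + 1) = ((ν : ℝ) + 1 - k) / (ν + 1) := by field_simp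
  have a := one_le_mul_exp (y := (k : ℝ) / (ν + 1)) (c := t * (ν + 1) - μ / 5) (by positivity)
    ((div_lt_one hm).2 (by linarith)) (by linarith) (by
      have p := poly h0 h1 hL
      have q := mul_le_mul_of_nonneg_left hk (sq_nonneg (t * (ν + 1) - μ / 5))
      rw [hy, ← mul_div_assoc, le_div_iff₀ hm]
      apply le_of_mul_le_mul_right _ ht
      nlinarith)
  have b : (t * (ν + 1) - μ / 5) * ((k : ℝ) / (ν + 1)) ≤ t * k - k * μ / (5 * N) := by
    have e : (t * (ν + 1) - μ / 5) * ((k : ℝ) / (ν + 1)) = t * k - k * μ / (5 * (ν + 1)) := by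
      field_simp
    have : k * μ / (5 * N) ≤ k * μ / (5 * ((ν : ℝ) + 1)) := by gcongr
    linarith
  have c : (ν : ℝ) + 1 ≤ ((ν : ℝ) + 1 - k) * exp (t * k - k * μ / (5 * N)) := by
    have d := a.trans (mul_le_mul_of_nonneg_left (exp_le_exp.2 b) (by rw [hy]; positivity))
    rwa [hy, div_mul_eq_mul_div, le_div_iff₀ hm, one_mul] at d
  have g : ((ν + 1).descFactorial k : ℝ) ≤
      exp (t * k - k * μ / (5 * N)) * (ν.descFactorial k : ℝ) := by
    apply le_of_mul_le_mul_left _ hmk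
    rw [hD, ← mul_assoc]
    gcongr
  have e : exp (-(k * μ / (5 * N))) * wt ν k t = exp (t * k - k * μ / (5 * N)) *
      (ν.descFactorial k : ℝ) * exp ((k : ℝ) ^ 2 * t / 2 - t * k * ((ν + 1 : ℕ) : ℝ)) := by
    rw [wt, mul_left_comm, ← exp_add, mul_comm (exp _), mul_assoc _ (exp _), ← exp_add]
    congr 2
    push_cast
    ring
  rw [e, wt]
  gcongr

end Gap

theorem gap : GAP := by
  intro N d k μ t h0 h1 hN hd hk
  have ht : 0 < t := by
    by_contra hlt
    push Not at hlt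
    have : (N : ℝ) * t ≤ 0 := mul_nonpos_of_nonneg_of_nonpos (Nat.cast_nonneg _) hlt
    linarith
  have hdN : d ≤ N := by
    have : (d : ℝ) ≤ N := le_of_mul_le_mul_right (by linarith) ht
    exact_mod_cast this
  refine ⟨hdN, ?_⟩
  have key : ∀ j ≤ d, wt N k t ≤ exp (-(j * k * μ / (5 * N))) * wt (N - j) k t := by
    intro j hj
    induction j with
    | zero => simp
    | succ j ih =>
      have e : N - j = N - (j + 1) + 1 := by omega
      have c : ((N - (j + 1) : ℕ) : ℝ) + 1 = N - j := by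
        rw [Nat.cast_sub (by omega)]; push_cast; ring
      have hj' : (j : ℝ) * t ≤ d * t := by
        gcongr
        omega
      have s := Gap.step N (N - (j + 1)) k μ t h0 h1 ht (by omega) (by rw [c]; linarith)
        (by rw [c]; linarith)
      rw [← e] at s
      refine (ih (by omega)).trans ((mul_le_mul_of_nonneg_left s (exp_pos _).le).trans_eq ?_)
      rw [← mul_assoc, ← exp_add]
      congr 2
      push_cast
      ring
  exact key d le_rfl

end Pool.Agent.MP_ddaf7c_pr.K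

end MrgPart7

-- ======== part 8: formerly Pool.Agent.MP_ddaf7c_pr.K.Big
section MrgPart8

set_option autoImplicit false

namespace Pool.Agent.MP_ddaf7c_pr.K

open Finset Real

namespace Big

lemma key {x y : ℝ} (hx : 0 ≤ x) (h1 : y ≤ x) (h2 : y ≤ 1) : y ≤ 2 * (1 - exp (-x)) := by
  have he : exp (-x) * (1 + x) ≤ 1 := by
    have h3 : x + 1 ≤ exp x := add_one_le_exp x
    have h4 : exp (-x) * exp x = 1 := by rw [← exp_add]; simp
    have h5 := exp_pos (-x)
    nlinarith
  have h6 : y * (1 + x) ≤ 2 * x := by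
    rcases le_total x 1 with h | h
    · nlinarith
    · nlinarith
  have h7 : 0 < 1 + x := by linarith
  by_contra hc
  push Not at hc
  nlinarith

lemma half {x : ℝ} (hx : 1 ≤ x) : 1 ≤ 2 * (1 - exp (-x)) := key (by linarith) hx le_rfl

lemma nn {x : ℝ} (hx : 0 ≤ x) : 0 ≤ 1 - exp (-x) := by
  have := key hx hx zero_le_one
  linarith

lemma pair {θ a b : ℝ} (hθ : 0 ≤ θ) (ha : 0 < a) (hb : 0 < b) (h : 1 ≤ θ * a) :
    a * b / (a + b) ^ 2 ≤ 4 * ((1 - exp (-(θ * a))) * (1 - exp (-(θ * b)))) := by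
  have hs : 0 < (a + b) ^ 2 := by positivity
  have hθb : 0 ≤ θ * b := by positivity
  have h1 : a * b / (a + b) ^ 2 ≤ θ * b := by
    rw [div_le_iff₀ hs]
    have e1 : a * b ≤ θ * a * (a * b) := by nlinarith [mul_pos ha hb]
    have e2 : a ^ 2 ≤ (a + b) ^ 2 := by nlinarith
    have e3 : θ * b * a ^ 2 ≤ θ * b * (a + b) ^ 2 := mul_le_mul_of_nonneg_left e2 hθb
    nlinarith
  have h2 : a * b / (a + b) ^ 2 ≤ 1 := by
    rw [div_le_one hs]; nlinarith [mul_pos ha hb]
  have h3 := key hθb h1 h2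
  have h4 := half h
  have h5 := nn hθb
  nlinarith

end Big

open Big

theorem big (h0 : MASS) (h : LAM) : BIG := by
  intro S N μ t hμ hmin hN
  have hμ1 : μ ≤ 1 := hmin ▸ min_le_right _ _
  have hμ2 : μ ≤ N * t - 1 := hmin ▸ min_le_left _ _
  have hN0 : (0 : ℝ) < N := by
    rcases (Nat.cast_nonneg N : (0 : ℝ) ≤ N).eq_or_lt with h | h
    · rw [← h] at hN; norm_num at hN
    · exact h
  have ht : 0 < t := by
    by_contra hc
    push Not at hc
    nlinarith [mul_nonneg hN0.le (neg_nonneg.2 hc)]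
  rcases le_total (N * t - 1) 1 with hc | hc
  · have hε : μ = N * t - 1 := by rw [hmin, min_eq_left hc]
    have hl := h S N μ t hμ.le (by linarith) N le_rfl t ht.le le_rfl
    have hth : th N μ t t = 4 * μ ^ 2 := by unfold th; ring
    rw [hth] at hl
    have hμN : 0 < μ * N := mul_pos hμ hN0
    calc I1 S N (fun s => if ((N : ℝ) - s) * t < 1 - μ / 8 then 1 / (s : ℝ) else 0) t
        ≤ I1 S N (fun s => 4 / (μ * N) * (1 - exp (-(4 * μ ^ 2 * s)))) t := by
          refine I1_mono S N ht.le fun k hk _ => ?_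
          have hk0 : (0 : ℝ) < k := by exact_mod_cast hk
          split_ifs with hs
          · have e1 : μ < k * t := by nlinarith
            have e2 : μ * N ≤ 2 * k := by nlinarith
            have e3 : 1 ≤ 4 * μ ^ 2 * k := by nlinarith [mul_pos hμ hμ]
            have e4 := half e3
            have e5 : 1 / (k : ℝ) ≤ 2 / (μ * N) := by
              rw [div_le_div_iff₀ hk0 hμN]; linarith
            have e6 : 0 < 2 / (μ * N) := by positivity
            have e7 : 4 / (μ * N) = 2 * (2 / (μ * N)) := by ring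
            rw [e7]
            nlinarith
          · exact mul_nonneg (by positivity) (nn (by positivity))
      _ = 4 / (μ * N) * I1 S N (fun s => 1 - exp (-(4 * μ ^ 2 * s))) t := I1_mul S N _ _ t
      _ ≤ 4 / (μ * N) * (4 * μ * N) := mul_le_mul_of_nonneg_left hl (by positivity)
      _ = 16 := by field_simp; norm_num
  · have hε : μ = 1 := by rw [hmin, min_eq_right hc]
    calc I1 S N (fun s => if ((N : ℝ) - s) * t < 1 - μ / 8 then 1 / (s : ℝ) else 0) t
        ≤ I1 S N (fun _ => 2 / (N : ℝ)) t := by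
          refine I1_mono S N ht.le fun k hk _ => ?_
          have hk0 : (0 : ℝ) < k := by exact_mod_cast hk
          split_ifs with hs
          · rw [div_le_div_iff₀ hk0 hN0]
            have e1 : N * t ≤ 2 * k * t := by nlinarith
            have e2 : (N : ℝ) ≤ 2 * k := le_of_mul_le_mul_right e1 ht
            linarith
          · positivity
      _ = 2 / (N : ℝ) * N := I1_const h0 S N _ t
      _ = 2 := by field_simp
      _ ≤ 16 := by norm_num

theorem init (h : TWO) : INIT := by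
  intro S N ε t0 hε hε1 hN ht
  have hN0 : (0 : ℝ) < N := by
    rcases (Nat.cast_nonneg N : (0 : ℝ) ≤ N).eq_or_lt with h | h
    · rw [← h] at hN; norm_num at hN
    · exact h
  have ht0 : 0 < t0 := by
    by_contra hc
    push Not at hc
    nlinarith [mul_nonneg hN0.le (neg_nonneg.2 hc)]
  have hl := h S N ε t0 hε.le ht
  have hθ : 0 ≤ 4 * ε ^ 2 := by positivity
  unfold Psi
  calc I2 S N (fun a b => if ε * N / 2 ≤ (a : ℝ) + b then (a : ℝ) * b / ((a : ℝ) + b) ^ 2 else 0) t0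
      ≤ I2 S N (fun a b =>
          4 * ((1 - exp (-(4 * ε ^ 2 * a))) * (1 - exp (-(4 * ε ^ 2 * b))))) t0 := by
        refine I2_mono S N ht0.le fun a b ha hb _ => ?_
        have ha0 : (0 : ℝ) < a := by exact_mod_cast ha
        have hb0 : (0 : ℝ) < b := by exact_mod_cast hb
        split_ifs with hs
        · rcases le_total (a : ℝ) b with hab | hab
          · have e1 : ε * N ≤ 4 * b := by linarith
            have e2 : 1 ≤ 4 * ε ^ 2 * b := by nlinarith [mul_pos hε hε]
            have e3 := pair hθ hb0 ha0 e2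
            rw [mul_comm (b : ℝ) a, add_comm (b : ℝ) a, mul_comm (1 - exp (-(4 * ε ^ 2 * b)))] at e3
            exact e3
          · have e1 : ε * N ≤ 4 * a := by linarith
            have e2 : 1 ≤ 4 * ε ^ 2 * a := by nlinarith [mul_pos hε hε]
            exact pair hθ ha0 hb0 e2
        · exact mul_nonneg (by norm_num) (mul_nonneg (nn (by positivity)) (nn (by positivity)))
    _ = 4 * I2 S N (fun a b =>
          (1 - exp (-(4 * ε ^ 2 * a))) * (1 - exp (-(4 * ε ^ 2 * b)))) t0 := I2_mul S N _ _ t0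
    _ ≤ 4 * (t0 * (4 * ε * N) ^ 2) := by linarith
    _ = 64 * ε ^ 2 * N * (N * t0) := by ring
    _ ≤ 64 * ε ^ 2 * N * 2 := mul_le_mul_of_nonneg_left (by linarith) (by positivity)
    _ = 128 * ε ^ 2 * N := by ring

end Pool.Agent.MP_ddaf7c_pr.K

end MrgPart8

-- ======== part 9: formerly Pool.Agent.MP_ddaf7c_pr.K.Der1
section MrgPart9

/-! Row DER1: first reduction of the derivative of the potential. -/

set_option autoImplicit false

namespace Pool.Agent.MP_ddaf7c_pr.K

open Finset Real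

namespace Der1

/-- the test function -/
noncomputable def ph (K a b : ℝ) : ℝ := if K ≤ a + b then a * b / (a + b) ^ 2 else 0

lemma sum_eq {a b s : ℝ} :
    a * ((a + s) * b / (a + s + b) ^ 2) + b * (a * (b + s) / (a + (b + s)) ^ 2) =
      a * b * ((a + b + 2 * s) / (a + b + s) ^ 2) := by
  rw [show a + s + b = a + b + s by ring, show a + (b + s) = a + b + s by ring]
  ring

lemma pt {K N a b s : ℝ} (ha : 1 ≤ a) (hb : 1 ≤ b) (hs : 1 ≤ s) (hN : a + b ≤ N) :
    a * (ph K (a + s) b - ph K a b) + b * (ph K a (b + s) - ph K a b) ≤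
      (if K / 2 ≤ s then 1 / s else 0) * (2 * (a * b)) +
        (if K / 2 ≤ a + b ∧ a + b < K then 1 else 0) * (2 * N ^ 2) := by
  have hab : 0 ≤ a * b := by positivity
  have hk : 0 < a + b := by linarith
  have hks : 0 < a + b + s := by linarith
  have r1 : 0 ≤ (if K / 2 ≤ s then 1 / s else 0) * (2 * (a * b)) := by
    split_ifs <;> positivity
  have r2 : 0 ≤ (if K / 2 ≤ a + b ∧ a + b < K then (1 : ℝ) else 0) * (2 * N ^ 2) := by
    split_ifs <;> positivity
  have e := sum_eq (a := a) (b := b) (s := s)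
  unfold ph
  by_cases h1 : K ≤ a + b
  · rw [if_pos h1, if_pos (show K ≤ a + s + b by linarith),
      if_pos (show K ≤ a + (b + s) by linarith)]
    have e2 : a * (a * b / (a + b) ^ 2) + b * (a * b / (a + b) ^ 2) = a * b * (1 / (a + b)) := by
      field_simp
    have e3 : (a + b + 2 * s) / (a + b + s) ^ 2 ≤ 1 / (a + b) := by
      rw [div_le_div_iff₀ (by positivity) hk]
      nlinarith [sq_nonneg s]
    have e4 := mul_le_mul_of_nonneg_left e3 hab
    linarith
  rw [if_neg h1]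
  by_cases h2 : K ≤ a + b + s
  · rw [if_pos (show K ≤ a + s + b by linarith), if_pos (show K ≤ a + (b + s) by linarith)]
    have e3 : (a + b + 2 * s) / (a + b + s) ^ 2 ≤ 2 / (a + b + s) := by
      rw [div_le_div_iff₀ (by positivity) hks]
      nlinarith [mul_pos hk hks]
    have e4 := mul_le_mul_of_nonneg_left e3 hab
    by_cases h3 : K / 2 ≤ s
    · have e5 : 2 / (a + b + s) ≤ 2 / s :=
        div_le_div_of_nonneg_left (by norm_num) (by linarith) (by linarith)
      have e6 := mul_le_mul_of_nonneg_left e5 hab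
      have e7 : (if K / 2 ≤ s then 1 / s else 0) * (2 * (a * b)) = a * b * (2 / s) := by
        rw [if_pos h3]; ring
      linarith
    · have e5 : 2 / (a + b + s) ≤ 2 := by
        rw [div_le_iff₀ hks]; linarith
      have e6 := mul_le_mul_of_nonneg_left e5 hab
      have e7 : a * b ≤ N ^ 2 := by nlinarith
      rw [if_pos (show K / 2 ≤ a + b ∧ a + b < K from ⟨by linarith, by linarith⟩)]
      linarith
  · rw [if_neg (show ¬K ≤ a + s + b by linarith), if_neg (show ¬K ≤ a + (b + s) by linarith)]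
    linarith

lemma src {K a b : ℝ} (ha : 1 ≤ a) (hb : 1 ≤ b) :
    ph K a b ≤ (if K / 2 ≤ a then 1 / a else 0) * b + (if K / 2 ≤ b then 1 / b else 0) * a := by
  have r1 : 0 ≤ (if K / 2 ≤ a then 1 / a else 0) * b := by split_ifs <;> positivity
  have r2 : 0 ≤ (if K / 2 ≤ b then 1 / b else 0) * a := by split_ifs <;> positivity
  unfold ph
  by_cases h1 : K ≤ a + b
  · rw [if_pos h1]
    by_cases h2 : K / 2 ≤ a
    · have : a * b / (a + b) ^ 2 ≤ 1 / a * b := by
        rw [one_div_mul_eq_div, div_le_div_iff₀ (by positivity) (by linarith)]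
        nlinarith [mul_pos (show 0 < a by linarith) (show 0 < b by linarith), sq_nonneg b,
          mul_nonneg (show 0 ≤ b by linarith) (sq_nonneg b)]
      rw [if_pos h2]
      linarith
    · have : a * b / (a + b) ^ 2 ≤ 1 / b * a := by
        rw [one_div_mul_eq_div, div_le_div_iff₀ (by positivity) (by linarith)]
        nlinarith [mul_pos (show 0 < a by linarith) (show 0 < b by linarith), sq_nonneg a,
          mul_nonneg (show 0 ≤ a by linarith) (sq_nonneg a)]
      rw [if_pos (show K / 2 ≤ b by linarith)]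
      linarith
  · rw [if_neg h1]
    linarith

end Der1

open Der1 in
theorem der1 (h0 : MASS) (h2 : GEN2) : DER1 := by
  intro S N K t ht _
  refine ⟨_, h2 S N (fun _ a b => ph K a b) (fun _ _ => 0) t fun _ _ => hasDerivAt_const _ _, ?_⟩
  set c : ℕ → ℝ := fun s => if K / 2 ≤ (s : ℝ) then 1 / (s : ℝ) else 0 with hc
  set χ : ℕ → ℕ → ℝ := fun a b => if K / 2 ≤ (a : ℝ) + b ∧ (a : ℝ) + b < K then 1 else 0 with hχ
  have χ0 : ∀ a b, 0 ≤ χ a b := fun a b => by
    simp only [hχ]; split_ifs <;> norm_num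
  have k1 : I2 S N (fun a b => 0 +
        a * I1 S (N - (a + b)) (fun s => ph K (a + s : ℕ) b - ph K a b) t +
        b * I1 S (N - (a + b)) (fun s => ph K a (b + s : ℕ) - ph K a b) t) t ≤
      I2 S N (fun a b => I1 S (N - (a + b)) (fun s => c s * (2 * ((a : ℝ) * b))) t +
        2 * (N : ℝ) ^ 3 * χ a b) t := by
    refine I2_mono S N ht fun a b ha hb hab => ?_
    have hN : (a : ℝ) + b ≤ N := by exact_mod_cast hab
    rw [zero_add, ← I1_mul, ← I1_mul, ← I1_add]
    refine (I1_mono S _ ht (ψ := fun s => c s * (2 * ((a : ℝ) * b)) + χ a b * (2 * (N : ℝ) ^ 2))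
      fun s hs _ => ?_).trans ?_
    · push_cast
      exact pt (by exact_mod_cast ha) (by exact_mod_cast hb) (by exact_mod_cast hs) hN
    · rw [I1_add, I1_const h0]
      have a1 : ((N - (a + b) : ℕ) : ℝ) ≤ N := by exact_mod_cast Nat.sub_le _ _
      have a2 := mul_le_mul_of_nonneg_left a1
        (mul_nonneg (χ0 a b) (by positivity : (0 : ℝ) ≤ 2 * (N : ℝ) ^ 2))
      linarith
  have k2 : I2 S N (fun a b => I1 S (N - (a + b)) (fun s => c s * (2 * ((a : ℝ) * b))) t) t =
      2 * I1 S N (fun s => c s * I2 S (N - s) (fun a b => (a : ℝ) * b) t) t := by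
    rw [swap21 S N (fun a b s => c s * (2 * ((a : ℝ) * b))), ← I1_mul]
    refine I1_congr S N t fun s _ _ => ?_
    rw [I2_mul, I2_mul]
    ring
  have k3 : I1 S N (fun a => I1 S (N - a) (fun b => ph K a b) t) t ≤
      I1 S N (fun a => I1 S (N - a) (fun b => c a * b) t +
        I1 S (N - a) (fun b => c b * a) t) t := by
    refine I1_mono S N ht fun a ha _ => ?_
    rw [← I1_add]
    exact I1_mono S _ ht fun b hb _ => src (by exact_mod_cast ha) (by exact_mod_cast hb)
  have k4 : I1 S N (fun a => I1 S (N - a) (fun b => c a * b) t) t =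
      I1 S N (fun s => c s * I1 S (N - s) (fun k => (k : ℝ)) t) t :=
    I1_congr S N t fun s _ _ => I1_mul S _ _ _ t
  have k5 : I1 S N (fun s => if K / 2 ≤ (s : ℝ) then 1 / (s : ℝ) *
        (I2 S (N - s) (fun a b => (a : ℝ) * b) t + I1 S (N - s) (fun k => (k : ℝ)) t) else 0) t =
      I1 S N (fun s => c s * I2 S (N - s) (fun a b => (a : ℝ) * b) t) t +
        I1 S N (fun s => c s * I1 S (N - s) (fun k => (k : ℝ)) t) t := by
    rw [← I1_add]
    refine I1_congr S N t fun s _ _ => ?_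
    simp only [hc]
    split_ifs <;> ring
  have k6 := I2_add S N (fun a b => I1 S (N - (a + b)) (fun s => c s * (2 * ((a : ℝ) * b))) t)
    (fun a b => 2 * (N : ℝ) ^ 3 * χ a b) t
  rw [I2_mul S N _ χ, k2] at k6
  rw [I1_add, swap11 S N (fun a b => c b * a), k4] at k3
  rw [k5]
  linarith

end Pool.Agent.MP_ddaf7c_pr.K

end MrgPart9

-- ======== part 10: formerly Pool.Agent.MP_ddaf7c_pr.K.Core
section MrgPart10

set_option autoImplicit false

namespace Pool.Agent.MP_ddaf7c_pr.K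

open Finset Real

theorem core (h1 : INIT) (h2 : DER) (h3 : TAIL) (h4 : ZPSI) : CORE := by
  intro S n d ε t1 t hA ht
  obtain ⟨hN, hε, hε1, hε3, ht1, ht11, hd, hexp⟩ := hA
  have hn : 2 ≤ n := by omega
  have hnR : (2 : ℝ) ≤ n := by exact_mod_cast hn
  set N : ℕ := 2 * n with hNdef
  have hNR : (N : ℝ) = 2 * n := by rw [hNdef]; push_cast; ring
  have hN0 : (0 : ℝ) < N := by rw [hNR]; linarith
  set t0 : ℝ := (1 + ε) / N with ht0
  have hNt0 : N * t0 = 1 + ε := by rw [ht0]; field_simp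
  have ht00 : 0 ≤ t0 := by rw [ht0]; positivity
  have ht01 : t0 ≤ t1 := by rw [ht0, div_le_iff₀ hN0]; linarith
  have ht1p : 0 ≤ t1 := ht00.trans ht01
  set c : ℝ := 6 * (N : ℝ) ^ 5 * exp (-(d * ε ^ 2 / 20)) with hc
  have hc0 : 0 ≤ c := by rw [hc]; positivity
  have hmono := le_of_deriv_nonpos
    (f := fun τ => Psi S N (ε * N / 2) τ + 2048 * (N * τ - 1)⁻¹ - (2048 * N + c) * τ) ht01 (by
      intro τ hτ0 hτ1
      have hNτ : 1 + ε ≤ N * τ := by rw [← hNt0]; exact mul_le_mul_of_nonneg_left hτ0 hN0.le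
      have hdτ : d * τ ≤ ε / 8 :=
        (mul_le_mul_of_nonneg_left hτ1 (Nat.cast_nonneg d)).trans hd
      obtain ⟨D, hD, hDle⟩ := h2 S N d ε τ hε hε1 hε3 hNτ (hτ1.trans ht11) hdτ
      have hne : (N : ℝ) * τ - 1 ≠ 0 := by linarith [hε] |> ne_of_gt
      have hi : HasDerivAt (fun τ : ℝ => ((N : ℝ) * τ - 1)⁻¹) (-(N : ℝ) / (N * τ - 1) ^ 2) τ := by
        have := (((hasDerivAt_id' τ).const_mul (N : ℝ)).sub_const 1).fun_inv hne
        exact this.congr_deriv (by ring)
      refine ⟨D + 2048 * (-(N : ℝ) / (N * τ - 1) ^ 2) - (2048 * N + c) * 1,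
        (hD.fun_add (hi.const_mul 2048)).fun_sub ((hasDerivAt_id' τ).const_mul _), ?_⟩
      have e1 : 2048 * (-(N : ℝ) / (N * τ - 1) ^ 2) = -(2048 * ((N : ℝ) / (N * τ - 1) ^ 2)) := by
        ring
      rw [e1]; linarith)
  have hinit := h1 S N ε t0 hε hε1 hε3 hNt0
  have hpsi : Psi S N (ε * N / 2) t1 ≤ 128 * ε ^ 2 * N + 2048 * (1 / ε + N * t1) + c := by
    have e1 : ((N : ℝ) * t0 - 1)⁻¹ = 1 / ε := by rw [hNt0]; simp
    have e2 : 0 ≤ ((N : ℝ) * t1 - 1)⁻¹ := inv_nonneg.2 (by linarith)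
    have e3 : 0 ≤ (2048 * N + c) * t0 := by positivity
    have e4 : c * t1 ≤ c := by nlinarith
    simp only [e1] at hmono
    nlinarith
  have hz := h4 S n (ε * N / 2) t1 (by omega) ht1p (by rw [hNR]; nlinarith)
  have htail := h3 S n t1 t hn ht1p ht (by
    have : t1 * N / 2 = t1 * n := by rw [hNR]; ring
    rw [this, hNR] at hexp; exact hexp)
  unfold bnd
  have e5 : (8 : ℝ) / N = 4 / n := by rw [hNR]; field_simp; norm_num
  have e6 : t1 * N / 4 = t1 * n / 2 := by rw [hNR]; ring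
  rw [e5, e6, ← hc]
  have e7 : 4 / (n : ℝ) * Psi S (2 * n) (ε * N / 2) t1 ≤
      4 / n * (128 * ε ^ 2 * N + 2048 * (1 / ε + N * t1) + c) :=
    mul_le_mul_of_nonneg_left hpsi (by positivity)
  rw [← hNR] at htail
  linarith

end Pool.Agent.MP_ddaf7c_pr.K

end MrgPart10

-- ======== part 11: formerly Pool.Agent.MP_ddaf7c_pr.K.Asy
section MrgPart11

/-! The choice of the parameters. -/

set_option autoImplicit false

namespace Pool.Agent.MP_ddaf7c_pr.K

open Real Filter

namespace Asy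

theorem exp_neg (x : ℝ) (hx : 0 < x) (k : ℕ) : exp (-(k * log x)) = (x ^ k)⁻¹ := by
  rw [Real.exp_neg, exp_nat_mul, exp_log hx]

theorem core (N : ℕ) (c u : ℝ) (h4 : 4 ≤ N) (hc : 0 < c) (hcx : c ^ 3 * N = 1) (hu : 1 ≤ u)
    (hcu : c * u ≤ 1) (hL : log N * c ≤ 3) (hL2 : 22624 * log N ^ 2 ≤ u ^ 3)
    (hK : 1400000 ≤ u) : ∃ (d : ℕ) (ε t1 : ℝ), Adm N d ε t1 ∧ bnd N d ε t1 ≤ c ^ 2 * u ^ 3 := by
  have hx4 : (4 : ℝ) ≤ N := by exact_mod_cast h4
  have hx : (0 : ℝ) < N := by linarith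
  have hL1 : 1 ≤ log N := by
    rw [le_log_iff_exp_le hx]
    linarith [exp_one_lt_d9]
  set L := log N with hLd
  have hu0 : 0 < u := by linarith
  have he : 0 < c * u := mul_pos hc hu0
  have hc1 : c ≤ 1 := by nlinarith
  have hinv : (N : ℝ)⁻¹ = c ^ 3 := (eq_inv_of_mul_eq_one_left hcx).symm
  have he3 : (c * u) ^ 3 * N = u ^ 3 := by linear_combination u ^ 3 * hcx
  have hu3 : u ^ 3 ≤ N := by
    rw [← he3]
    exact mul_le_of_le_one_left hx.le (pow_le_one₀ he.le hcu)
  have ht : (N : ℝ) * (28 * L / N) = 28 * L := by field_simp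
  have ht0 : 0 < 28 * L / N := by positivity
  have hq : 0 ≤ c * u / (8 * (28 * L / N)) := by positivity
  have hd1 := Nat.floor_le hq
  have hd2 := Nat.lt_floor_add_one (c * u / (8 * (28 * L / N)))
  set d := ⌊c * u / (8 * (28 * L / N))⌋₊ with hd
  refine ⟨d, c * u, 28 * L / N, ⟨h4, he, hcu, ?_, ?_, ?_, ?_, ?_⟩, ?_⟩
  · rw [he3]; exact one_le_pow₀ hu
  · rw [ht]; linarith
  · rw [div_le_one hx]; nlinarith
  · rw [le_div_iff₀ (by positivity)] at hd1; linarith
  · have e : 28 * L / N * N / 2 = (14 : ℕ) * L := by push_cast; field_simp; ring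
    rw [e, exp_neg _ hx, ← div_eq_mul_inv, div_le_one (by positivity)]
    exact le_self_pow₀ (by linarith) (by norm_num)
  · have hce : c ^ 2 ≤ (c * u) ^ 2 := by
      rw [mul_pow]; exact le_mul_of_one_le_right (by positivity) (one_le_pow₀ hu)
    have h32 : c ^ 3 ≤ c ^ 2 := pow_le_pow_of_le_one hc.le hc1 (by norm_num)
    have hexp : exp (-(d * (c * u) ^ 2 / 20)) ≤ ((N : ℝ) ^ 5)⁻¹ := by
      rw [← exp_neg _ hx, exp_le_exp, neg_le_neg_iff]
      have e1 : c * u / (8 * (28 * L / N)) * (c * u) ^ 2 = u ^ 3 / (224 * L) := by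
        rw [← he3]; field_simp; ring
      have e2 : 101 * L ≤ u ^ 3 / (224 * L) := by
        rw [le_div_iff₀ (by positivity)]; linarith
      have e3 : (c * u) ^ 2 ≤ 1 := pow_le_one₀ he.le hcu
      have e4 := mul_le_mul_of_nonneg_right hd2.le (sq_nonneg (c * u))
      rw [e1] at e4
      push_cast
      linarith
    have e5 : 28 * L / N * N / 4 = (7 : ℕ) * L := by push_cast; field_simp; ring
    have t1 : 8 / N * (128 * (c * u) ^ 2 * N) = 1024 * (c * u) ^ 2 := by field_simp; ring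
    have t2 : 8 / N * (2048 * (1 / (c * u))) ≤ 16384 * c ^ 2 := by
      have : 8 / N * (2048 * (1 / (c * u))) = 16384 * c ^ 2 / u := by
        rw [div_eq_mul_inv 8, hinv]; field_simp; ring
      rw [this]
      exact div_le_self (by positivity) hu
    have t3 : 8 / N * (2048 * (28 * L)) ≤ 1376256 * c ^ 2 := by
      rw [div_eq_mul_inv 8, hinv]
      have := mul_le_mul_of_nonneg_right hL (sq_nonneg c)
      nlinarith
    have t4 : 8 / N * (6 * (N : ℝ) ^ 5 * exp (-(d * (c * u) ^ 2 / 20))) ≤ 48 * c ^ 3 := by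
      have h1 : (N : ℝ) ^ 5 * exp (-(d * (c * u) ^ 2 / 20)) ≤ 1 := by
        have := mul_le_mul_of_nonneg_left hexp (pow_pos hx 5).le
        rwa [mul_inv_cancel₀ (pow_pos hx 5).ne'] at this
      rw [div_eq_mul_inv 8, hinv]
      have := mul_le_mul_of_nonneg_left h1 (pow_pos hc 3).le
      nlinarith
    have t5 : 2 * (N : ℝ) ^ 5 * ((N : ℝ) ^ 7)⁻¹ ≤ 2 * c ^ 3 := by
      have : 2 * (N : ℝ) ^ 5 * ((N : ℝ) ^ 7)⁻¹ = 2 * (N : ℝ)⁻¹ / N := by field_simp
      rw [this, hinv]
      exact div_le_self (by positivity) (by linarith)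
    have t6 : 1400000 * (c * u) ^ 2 ≤ c ^ 2 * u ^ 3 := by
      have := mul_le_mul_of_nonneg_right hK (sq_nonneg (c * u))
      nlinarith
    rw [bnd, e5, exp_neg _ hx, ht, mul_add, mul_add, mul_add 2048, mul_add, t1]
    nlinarith [sq_nonneg c]

end Asy

theorem asy : ASY := by
  intro η hη
  obtain ⟨e, he0, he1, he2⟩ : ∃ e : ℝ, 0 < e ∧ e ≤ 1 / 4 ∧ 3 * e ≤ η :=
    ⟨min η 1 / 4, by positivity, by linarith [min_le_right η 1], by linarith [min_le_left η 1]⟩
  have hT : Tendsto (fun N : ℕ => (N : ℝ) ^ e) atTop atTop :=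
    (tendsto_rpow_atTop he0).comp tendsto_natCast_atTop_atTop
  obtain ⟨N0, h⟩ := eventually_atTop.1 ((eventually_ge_atTop 4).and
    ((hT.eventually_ge_atTop 1400000).and (hT.eventually_ge_atTop (22624 / e ^ 2))))
  refine ⟨N0, fun N hN => ?_⟩
  obtain ⟨h4, h1, h2⟩ := h N hN
  have hx4 : (4 : ℝ) ≤ N := by exact_mod_cast h4
  have hx : (0 : ℝ) < N := by linarith
  have hx1 : (1 : ℝ) ≤ N := by linarith
  have hL0 : 0 ≤ log N := log_nonneg hx1
  have hc : 0 < (N : ℝ) ^ (-(1 / 3) : ℝ) := rpow_pos_of_pos hx _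
  have hu : 0 < (N : ℝ) ^ e := rpow_pos_of_pos hx _
  obtain ⟨d, ε, t1, ha, hb⟩ := Asy.core N ((N : ℝ) ^ (-(1 / 3) : ℝ)) ((N : ℝ) ^ e) h4 hc
    (by rw [← rpow_natCast, ← rpow_mul hx.le, ← rpow_add_one hx.ne']; norm_num)
    (by linarith)
    (by rw [← rpow_add hx]; exact rpow_le_one_of_one_le_of_nonpos hx1 (by linarith))
    (by
      have h3 := log_le_rpow_div hx.le (by norm_num : (0 : ℝ) < 1 / 3)
      have h5 : (N : ℝ) ^ (1 / 3 : ℝ) * (N : ℝ) ^ (-(1 / 3) : ℝ) = 1 := by
        rw [← rpow_add hx]; norm_num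
      have := mul_le_mul_of_nonneg_right h3 hc.le
      linarith)
    (by
      have h3 := log_le_rpow_div hx.le he0
      have h5 : log N ^ 2 ≤ ((N : ℝ) ^ e / e) ^ 2 := pow_le_pow_left₀ hL0 h3 2
      have h6 := mul_le_mul_of_nonneg_right h2 (sq_nonneg ((N : ℝ) ^ e))
      have h7 : 22624 / e ^ 2 * ((N : ℝ) ^ e) ^ 2 = 22624 * ((N : ℝ) ^ e / e) ^ 2 := by ring
      nlinarith)
    h1
  refine ⟨d, ε, t1, ha, hb.trans ?_⟩
  rw [← rpow_natCast, ← rpow_natCast, ← rpow_mul hx.le, ← rpow_mul hx.le, ← rpow_add hx]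
  exact rpow_le_rpow_of_exponent_le hx1 (by push_cast; linarith)

end Pool.Agent.MP_ddaf7c_pr.K

end MrgPart11

-- ======== part 12: formerly Pool.Agent.MP_ddaf7c_pr.K.Kinv
section MrgPart12

set_option autoImplicit false

namespace Pool.Agent.MP_ddaf7c_pr.K

open Finset

namespace Kinv

variable {V : Type} [DecidableEq V] {ω ω' : V → V → ℝ} {A B : Finset V} {u u' : ℝ}

theorem mono1 (h : u ≤ u') (k : Kr ω A u) : Kr ω A u' := by
  cases k with
  | one v => exact .one v _
  | join A B x y _ d hx hy l a b m => exact .join A B x y _ d hx hy (l.trans h) a b m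

theorem mono2 (h : u ≤ u') (k : Kr2 ω A B u) : Kr2 ω A B u' := by
  cases k with
  | cross _ _ x y _ d hx hy l a b m => exact .cross _ _ x y _ d hx hy (l.trans h) a b m
  | left R A _ x y _ d hx hy l a b m => exact .left R A _ x y _ d hx hy (l.trans h) a b m
  | right R _ B x y _ d hx hy l a b m => exact .right R _ B x y _ d hx hy (l.trans h) a b m

theorem dep1 (k : Kr ω A u) (h : ∀ p ∈ A, ∀ q ∈ A, ω p q = ω' p q) : Kr ω' A u := by
  induction k with
  | one v => exact .one v _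
  | join A B x y u d hx hy l _ _ m a b =>
    have e := fun p hp q hq => h p (mem_union_left B hp) q (mem_union_right A hq)
    rw [e x hx y hy] at l a b m
    exact .join A B x y _ d hx hy l
      (a fun p hp q hq => h p (mem_union_left _ hp) q (mem_union_left _ hq))
      (b fun p hp q hq => h p (mem_union_right _ hp) q (mem_union_right _ hq))
      fun p hp q hq n => e p hp q hq ▸ m p hp q hq n

theorem dep2 (k : Kr2 ω A B u) (h : ∀ p ∈ A ∪ B, ∀ q ∈ A ∪ B, ω p q = ω' p q) : Kr2 ω' A B u := by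
  induction k with
  | cross A B x y u d hx hy l a b m =>
    have e := fun p hp q hq => h p (mem_union_left B hp) q (mem_union_right A hq)
    rw [e x hx y hy] at l a b m
    exact .cross A B x y _ d hx hy l
      (dep1 a fun p hp q hq => h p (mem_union_left _ hp) q (mem_union_left _ hq))
      (dep1 b fun p hp q hq => h p (mem_union_right _ hp) q (mem_union_right _ hq))
      fun p hp q hq n => e p hp q hq ▸ m p hp q hq n
  | left R A B x y u d hx hy l a _ m b =>
    rw [union_assoc] at h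
    have e := fun p hp q hq => h p (mem_union_left (A ∪ B) hp) q (mem_union_right R hq)
    rw [e x hx y (mem_union_left _ hy)] at l a b m
    exact .left R A B x y _ d hx hy l
      (dep1 a fun p hp q hq => h p (mem_union_left _ hp) q (mem_union_left _ hq))
      (b fun p hp q hq => h p (mem_union_right _ hp) q (mem_union_right _ hq))
      fun p hp q hq n => e p hp q hq ▸ m p hp q hq n
  | right R A B x y u d hx hy l a _ m b =>
    rw [union_left_comm] at h
    have e := fun p hp q hq => h p (mem_union_left (A ∪ B) hp) q (mem_union_right R hq)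
    rw [e x hx y (mem_union_right _ hy)] at l a b m
    exact .right R A B x y _ d hx hy l
      (dep1 a fun p hp q hq => h p (mem_union_left _ hp) q (mem_union_left _ hq))
      (b fun p hp q hq => h p (mem_union_right _ hp) q (mem_union_right _ hq))
      fun p hp q hq n => e p hp q hq ▸ m p hp q hq n

omit [DecidableEq V] in
theorem ne_of {x y : V} (d : Disjoint A B) (hx : x ∈ A) (hy : y ∈ B) : x ≠ y :=
  disjoint_iff_ne.1 d x hx y hy

theorem ex1 (k : Kr ω A u) (h : 2 ≤ A.card) : ∃ x y, x ≠ y ∧ ω x y ≤ u := by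
  cases k with
  | one v => simp at h
  | join A B x y _ d hx hy l => exact ⟨x, y, ne_of d hx hy, l⟩

theorem ex2 (k : Kr2 ω A B u) :
    A.Nonempty ∧ B.Nonempty ∧ Disjoint A B ∧ ∃ x y, x ≠ y ∧ ω x y ≤ u := by
  induction k with
  | cross A B x y u d hx hy l => exact ⟨⟨x, hx⟩, ⟨y, hy⟩, d, x, y, ne_of d hx hy, l⟩
  | left R A B x y u d hx hy l _ _ _ b =>
    exact ⟨b.1.mono subset_union_right, b.2.1,
      disjoint_union_left.2 ⟨(disjoint_union_right.1 d).2, b.2.2.1⟩, x, y,
      ne_of d hx (mem_union_left _ hy), l⟩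
  | right R A B x y u d hx hy l _ _ _ b =>
    exact ⟨b.1, b.2.1.mono subset_union_right,
      disjoint_union_right.2 ⟨(disjoint_union_right.1 d).1.symm, b.2.2.1⟩, x, y,
      ne_of d hx (mem_union_right _ hy), l⟩

omit [DecidableEq V] in
theorem blk {x y : V} (h : u < ω x y) (l : ω x y ≤ u')
    (m : ∀ p ∈ A, ∀ q ∈ B, (p, q) ≠ (x, y) → ω x y < ω p q) : Blk ω A B x y u u' :=
  ⟨h, l, fun p hp q hq n => h.trans (m p hp q hq n)⟩

theorem inv1 (s : ∀ x y, ω x y = ω y x) {r : V} (k : Kr ω A u') (hr : r ∈ A) : Kr ω A u ∨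
    ∃ C ∈ (A.erase r).powerset, ∃ x ∈ insert r C, ∃ y ∈ A \ insert r C,
      Blk ω (insert r C) (A \ insert r C) x y u u' ∧ Kr ω (insert r C) u' ∧
        Kr ω (A \ insert r C) u' := by
  cases k with
  | one v => exact Or.inl (.one v _)
  | join A B x y _ d hx hy l a b m =>
    rcases le_or_gt (ω x y) u with h | h
    · exact Or.inl (.join A B x y _ d hx hy h a b m)
    rcases mem_union.1 hr with hr | hr
    · refine Or.inr ⟨A.erase r, mem_powerset.2 (erase_subset_erase r subset_union_left), ?_⟩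
      rw [insert_erase hr, union_sdiff_cancel_left d]
      exact ⟨x, hx, y, hy, blk h l m, mono1 l a, mono1 l b⟩
    · refine Or.inr ⟨B.erase r, mem_powerset.2 (erase_subset_erase r subset_union_right), ?_⟩
      rw [insert_erase hr, union_sdiff_cancel_right d]
      refine ⟨y, hy, x, hx, blk (s x y ▸ h) (s x y ▸ l) fun p hp q hq n => ?_, mono1 l b, mono1 l a⟩
      rw [s y x, s p q]
      exact m q hq p hp fun e => n (congrArg Prod.swap e)

theorem inv2 (k : Kr2 ω A B u') : Kr2 ω A B u ∨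
    (∃ x ∈ A, ∃ y ∈ B, Blk ω A B x y u u' ∧ Kr ω A u' ∧ Kr ω B u') ∨
    (∃ R ∈ A.powerset, ∃ x ∈ R, ∃ y ∈ A \ R,
      Blk ω R (A \ R ∪ B) x y u u' ∧ Kr ω R u' ∧ Kr2 ω (A \ R) B u') ∨
    (∃ R ∈ B.powerset, ∃ x ∈ R, ∃ y ∈ B \ R,
      Blk ω R (A ∪ B \ R) x y u u' ∧ Kr ω R u' ∧ Kr2 ω A (B \ R) u') := by
  cases k with
  | cross _ _ x y _ d hx hy l a b m =>
    rcases le_or_gt (ω x y) u with h | h
    · exact Or.inl (.cross _ _ x y _ d hx hy h a b m)
    · exact Or.inr (Or.inl ⟨x, hx, y, hy, blk h l m, mono1 l a, mono1 l b⟩)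
  | left R A _ x y _ d hx hy l a b m =>
    rcases le_or_gt (ω x y) u with h | h
    · exact Or.inl (.left R A _ x y _ d hx hy h a b m)
    · refine Or.inr (Or.inr (Or.inl ⟨R, mem_powerset.2 subset_union_left, ?_⟩))
      rw [union_sdiff_cancel_left (disjoint_union_right.1 d).1]
      exact ⟨x, hx, y, hy, blk h l m, mono1 l a, mono2 l b⟩
  | right R _ B x y _ d hx hy l a b m =>
    rcases le_or_gt (ω x y) u with h | h
    · exact Or.inl (.right R _ B x y _ d hx hy h a b m)
    · refine Or.inr (Or.inr (Or.inr ⟨R, mem_powerset.2 subset_union_left, ?_⟩))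
      rw [union_sdiff_cancel_left (disjoint_union_right.1 d).2]
      exact ⟨x, hx, y, hy, blk h l m, mono1 l a, mono2 l b⟩

end Kinv

open Kinv

theorem kinv : KINV := fun _ _ s =>
  ⟨fun _ _ _ => mono1, fun _ _ _ _ => mono2, fun _ _ _ h k => dep1 k h, fun _ _ _ _ h k => dep2 k h,
    fun _ _ => ex1, fun _ _ _ => ex2, fun _ _ _ _ h k => inv1 s k h, fun _ _ _ _ => inv2⟩

end Pool.Agent.MP_ddaf7c_pr.K

end MrgPart12

-- ======== part 13: formerly Pool.Agent.MP_ddaf7c_pr.K.Ind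
section MrgPart13

/-! Independence of events that depend on disjoint sets of edges. -/

set_option autoImplicit false

namespace Pool.Agent.MP_ddaf7c_pr.K

open Finset Real MeasureTheory

namespace Ind

theorem indep {ι : Type} [Fintype ι] (ν : Measure ℝ) [IsProbabilityMeasure ν] (p : ι → Prop)
    (E F : Set (ι → ℝ)) (hE : ∀ w w' : ι → ℝ, (∀ i, p i → w i = w' i) → w ∈ E → w' ∈ E)
    (hF : ∀ w w' : ι → ℝ, (∀ i, ¬ p i → w i = w' i) → w ∈ F → w' ∈ F) :
    (Measure.pi fun _ : ι => ν).real (E ∩ F) =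
      (Measure.pi fun _ : ι => ν).real E * (Measure.pi fun _ : ι => ν).real F := by
  classical
  let e := MeasurableEquiv.piEquivPiSubtypeProd (fun _ : ι => ℝ) p
  have he := measurePreserving_piEquivPiSubtypeProd (fun _ : ι => ν) p
  have h1 : E = e ⁻¹' ((Prod.fst '' (e '' E)) ×ˢ Set.univ) := by
    ext w
    refine ⟨fun h => ⟨⟨_, ⟨w, h, rfl⟩, rfl⟩, trivial⟩, ?_⟩
    rintro ⟨⟨_, ⟨w', h, rfl⟩, k⟩, -⟩
    exact hE w' w (fun i hi => congrFun k ⟨i, hi⟩) h
  have h2 : F = e ⁻¹' (Set.univ ×ˢ (Prod.snd '' (e '' F))) := by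
    ext w
    refine ⟨fun h => ⟨trivial, _, ⟨w, h, rfl⟩, rfl⟩, ?_⟩
    rintro ⟨-, _, ⟨w', h, rfl⟩, k⟩
    exact hF w' w (fun i hi => congrFun k ⟨i, hi⟩) h
  generalize Prod.fst '' (e '' E) = E' at h1
  generalize Prod.snd '' (e '' F) = F' at h2
  rw [h1, h2, ← Set.preimage_inter, Set.prod_inter_prod, Set.inter_univ, Set.univ_inter]
  simp only [Measure.real, e, he.measure_preimage_equiv, Measure.prod_prod, measure_univ, mul_one,
    one_mul, ENNReal.toReal_mul]

theorem box {ι : Type} [Fintype ι] [DecidableEq ι] (X : Finset ι) (i : ι) (hi : i ∈ X) (u u' : ℝ)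
    (h1 : u ≤ u') (h2 : u ≤ 1) :
    (Measure.pi fun _ : ι => volume.restrict (Set.Icc (0 : ℝ) 1)).real
      (Set.univ.pi fun e => if e = i then Set.Ioc u u' else if e ∈ X then Set.Ioi u else Set.univ)
      ≤ (u' - u) * (1 - u) ^ (X.card - 1) := by
  rw [Measure.real, Measure.pi_pi, ENNReal.toReal_prod, ← prod_subset (subset_univ X),
    ← mul_prod_erase X _ hi, if_pos rfl, ← card_erase_of_mem hi, ← prod_const]
  · refine mul_le_mul ?_ (prod_le_prod (fun _ _ => ENNReal.toReal_nonneg) fun e he => ?_)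
      (prod_nonneg fun _ _ => ENNReal.toReal_nonneg) (sub_nonneg.2 h1)
    · refine ENNReal.toReal_le_of_le_ofReal (sub_nonneg.2 h1) ?_
      rw [← Real.volume_Ioc]
      exact Measure.restrict_apply_le _ _
    · refine ENNReal.toReal_le_of_le_ofReal (sub_nonneg.2 h2) ?_
      rw [if_neg (ne_of_mem_erase he), if_pos (mem_of_mem_erase he), ← Real.volume_Ioc,
        Measure.restrict_apply measurableSet_Ioi]
      exact measure_mono fun t ht => ⟨ht.1, ht.2.2⟩
  · intro e _ he
    rw [if_neg fun k : e = i => he (k ▸ hi), if_neg he, measure_univ, ENNReal.toReal_one]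

theorem W_eq {N : ℕ} (w : Ed N → ℝ) (e : Ed N) {p q : Fin N} (h : e.1 = s(p, q)) :
    W w p q = w e := by
  obtain ⟨e, he⟩ := e
  subst h
  exact dif_pos he

theorem W_congr {N : ℕ} {w w' : Ed N → ℝ} {p q : Fin N}
    (h : ∀ e : Ed N, e.1 = s(p, q) → w e = w' e) : W w p q = W w' p q := by
  unfold W
  split_ifs
  exacts [h _ rfl, rfl]

end Ind

theorem ind : IND := by
  classical
  intro N A B x y u u' E F hd hx hy h0 h1 h2 hE hF
  have hne : ∀ p ∈ A, ∀ q ∈ B, p ≠ q := fun p hp q hq e => disjoint_left.1 hd hp (e ▸ hq)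
  let X : Finset (Ed N) := univ.filter fun e => ∃ p ∈ A, ∃ q ∈ B, e.1 = s(p, q)
  have hX : ∀ e, e ∈ X ↔ ∃ p ∈ A, ∃ q ∈ B, e.1 = s(p, q) := fun e => by simp [X]
  let i : Ed N := ⟨s(x, y), hne x hx y hy⟩
  have hi : i ∈ X := (hX i).2 ⟨x, hx, y, hy, rfl⟩
  have hc : A.card * B.card ≤ X.card := by
    rw [← card_product, ← card_image_of_injOn (f := fun z : Fin N × Fin N => s(z.1, z.2))]
    · refine le_trans (card_le_card fun e he => ?_) (card_image_le (f := Subtype.val))
      obtain ⟨z, hz, rfl⟩ := mem_image.1 he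
      obtain ⟨a, b⟩ := mem_product.1 hz
      exact mem_image.2 ⟨⟨_, hne _ a _ b⟩, (hX _).2 ⟨_, a, _, b, rfl⟩, rfl⟩
    · intro z hz z' hz' e
      rcases Sym2.eq_iff.1 e with k | k
      · exact Prod.ext k.1 k.2
      · exact absurd k.1 (hne _ (mem_product.1 hz).1 _ (mem_product.1 hz').2)
  have hsub : {w | Blk (W w) A B x y u u'} ∩ E ∩ F ⊆ (Set.univ.pi fun e =>
      if e = i then Set.Ioc u u' else if e ∈ X then Set.Ioi u else Set.univ) ∩ (E ∩ F) := by
    rintro w ⟨⟨⟨a1, a2, a3⟩, b⟩, c⟩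
    refine ⟨fun e _ => ?_, b, c⟩
    beta_reduce
    split_ifs with k1 k2
    · rw [k1, ← Ind.W_eq w i rfl]
      exact ⟨a1, a2⟩
    · obtain ⟨p, hp, q, hq, k⟩ := (hX e).1 k2
      rw [← Ind.W_eq w e k]
      refine a3 p hp q hq fun k' => k1 (Subtype.ext ?_)
      obtain ⟨rfl, rfl⟩ := Prod.mk.inj k'
      exact k
    · trivial
  unfold Pr
  refine (measureReal_mono hsub).trans ?_
  rw [Ind.indep _ (· ∈ X), Ind.indep _ (fun e : Ed N => ∀ v ∈ e.1, v ∈ A) E F, ← mul_assoc]
  · refine mul_le_mul_of_nonneg_right (mul_le_mul_of_nonneg_right ?_ measureReal_nonneg)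
      measureReal_nonneg
    refine (Ind.box X i hi u u' h1 (h1.trans h2)).trans (mul_le_mul_of_nonneg_left
      (pow_le_pow_of_le_one (by linarith) (by linarith) (by omega)) (sub_nonneg.2 h1))
  · refine fun w w' h => hE w w' fun p hp q hq => Ind.W_congr fun e k => h e fun v hv => ?_
    rw [k] at hv
    rcases Sym2.mem_iff.1 hv with rfl | rfl
    exacts [hp, hq]
  · refine fun w w' h => hF w w' fun p hp q _ => Ind.W_congr fun e k => h e fun hv => ?_
    exact hne p (hv p (k ▸ Sym2.mem_mk_left p q)) p hp rfl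
  · intro w w' h hw e he
    by_cases k : e ∈ X
    · exact h e k ▸ hw e he
    · beta_reduce
      rw [if_neg fun k' : e = i => k (k' ▸ hi), if_neg k]
      trivial
  · intro w w' h hw
    refine ⟨hE w w' (fun p hp q hq => Ind.W_congr fun e k => h e fun k' => ?_) hw.1,
      hF w w' (fun p hp q hq => Ind.W_congr fun e k => h e fun k' => ?_) hw.2⟩
    · obtain ⟨p', -, q', hq', k'⟩ := (hX e).1 k'
      rcases Sym2.eq_iff.1 (k.symm.trans k') with a | a
      exacts [hne q hq q' hq' a.2, hne p hp q' hq' a.1]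
    · obtain ⟨p', hp', q', -, k'⟩ := (hX e).1 k'
      rcases Sym2.eq_iff.1 (k.symm.trans k') with a | a
      exacts [hne p' hp' p hp a.1.symm, hne p' hp' q hq a.2.symm]

end Pool.Agent.MP_ddaf7c_pr.K

end MrgPart13

-- ======== part 14: formerly Pool.Agent.MP_ddaf7c_pr.K.Kone
section MrgPart14

set_option autoImplicit false

namespace Pool.Agent.MP_ddaf7c_pr.K

open Finset Real MeasureTheory

namespace Kone

variable {N : ℕ}

theorem W_symm (w : Ed N → ℝ) (x y : Fin N) : W w x y = W w y x := by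
  unfold W
  by_cases h : x = y
  · subst h; rfl
  · rw [dif_pos h, dif_pos (Ne.symm h)]
    exact congrArg w (Subtype.ext Sym2.eq_swap)

theorem Pr_nonneg (E : Set (Ed N → ℝ)) : 0 ≤ Pr N E := measureReal_nonneg

theorem Pr_le_one (E : Set (Ed N → ℝ)) : Pr N E ≤ 1 := measureReal_le_one

theorem Pr_mono {E F : Set (Ed N → ℝ)} (h : E ⊆ F) : Pr N E ≤ Pr N F := measureReal_mono h

theorem Pr_union (E F : Set (Ed N → ℝ)) : Pr N (E ∪ F) ≤ Pr N E + Pr N F :=
  measureReal_union_le E F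

theorem Pr_biUnion {ι : Type} (s : Finset ι) (E : ι → Set (Ed N → ℝ)) :
    Pr N (⋃ i ∈ s, E i) ≤ ∑ i ∈ s, Pr N (E i) := measureReal_biUnion_finset_le s E

/-- the union bound over a block and an edge -/
theorem Pr_ex {ι : Type} (s : Finset ι) (X Y : ι → Finset (Fin N))
    (G : ι → Fin N → Fin N → Set (Ed N → ℝ)) (b : ι → ℝ)
    (hb : ∀ C ∈ s, ∀ x ∈ X C, ∀ y ∈ Y C, Pr N (G C x y) ≤ b C) :
    Pr N {w | ∃ C ∈ s, ∃ x ∈ X C, ∃ y ∈ Y C, w ∈ G C x y} ≤
      ∑ C ∈ s, ((X C).card : ℝ) * (Y C).card * b C := by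
  have e : {w | ∃ C ∈ s, ∃ x ∈ X C, ∃ y ∈ Y C, w ∈ G C x y} =
      ⋃ C ∈ s, ⋃ x ∈ X C, ⋃ y ∈ Y C, G C x y := by
    ext w
    simp only [Set.mem_ofPred_eq, Set.mem_iUnion, exists_prop]
  rw [e]
  refine (Pr_biUnion _ _).trans (sum_le_sum fun C hC => (Pr_biUnion _ _).trans
    ((sum_le_sum fun x hx => (Pr_biUnion _ _).trans (sum_le_sum (hb C hC x hx))).trans_eq ?_))
  rw [sum_const, sum_const, nsmul_eq_mul, nsmul_eq_mul, mul_assoc]

theorem Pr_or {E E₀ E₁ : Set (Ed N → ℝ)} {b : ℝ} (h : ∀ w ∈ E, w ∈ E₀ ∨ w ∈ E₁)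
    (hb : Pr N E₁ ≤ b) : Pr N E ≤ Pr N E₀ + b :=
  (Pr_mono (F := E₀ ∪ E₁) h).trans ((Pr_union _ _).trans (add_le_add le_rfl hb))

/-- no weight is nonpositive -/
theorem Pr_null {E : Set (Ed N → ℝ)} (h : ∀ w ∈ E, ∃ x y, x ≠ y ∧ W w x y ≤ 0) : Pr N E = 0 := by
  refine le_antisymm ((Pr_mono (F := ⋃ e : Ed N, Function.eval e ⁻¹' Set.Iic 0)
    fun w hw => ?_).trans_eq ?_) (Pr_nonneg _)
  · obtain ⟨x, y, h1, h2⟩ := h w hw
    rw [W, dif_pos h1] at h2
    exact Set.mem_iUnion.2 ⟨_, h2⟩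
  · rw [Pr, Measure.real, measure_iUnion_null fun e => Measure.pi_eval_preimage_null _ ?_,
      ENNReal.toReal_zero]
    rw [Measure.restrict_apply measurableSet_Iic]
    exact measure_mono_null (fun x hx => le_antisymm hx.1 hx.2.1) (measure_singleton 0)

/-- the bound for one block, in the time variable -/
theorem step (h2 : IND) {A B : Finset (Fin N)} {x y : Fin N} {t t' a b : ℝ}
    {E F : Set (Ed N → ℝ)} (hd : Disjoint A B) (hx : x ∈ A) (hy : y ∈ B) (h0 : 0 ≤ t)
    (ht : t ≤ t') (hE : Dep A E) (hF : Dep B F) (ha : Pr N E ≤ a) (hb : Pr N F ≤ b) :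
    Pr N ({w | Blk (W w) A B x y (1 - exp (-t)) (1 - exp (-t'))} ∩ E ∩ F) ≤
      (t' - t) * (exp (-(t * (A.card * B.card : ℕ))) * a * b) := by
  have e1 : exp (-t) ≤ 1 := exp_le_one_iff.2 (by linarith)
  have e2 : exp (-t') ≤ exp (-t) := exp_le_exp.2 (by linarith)
  have e3 := exp_pos (-t')
  have e4 : exp (-t) - exp (-t') ≤ (t' - t) * exp (-t) := by
    have := add_one_le_exp (t - t')
    rw [show -t' = t - t' + -t by ring, exp_add]
    nlinarith [exp_pos (-t)]
  obtain ⟨c, hc⟩ : ∃ c, A.card * B.card = c + 1 := Nat.exists_eq_succ_of_ne_zero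
    (Nat.mul_pos (card_pos.2 ⟨x, hx⟩) (card_pos.2 ⟨y, hy⟩)).ne'
  refine (h2 N A B x y _ _ E F hd hx hy (by linarith) (by linarith) (by linarith) hE hF).trans ?_
  have a0 := (Pr_nonneg E).trans ha
  have := Pr_nonneg E
  have := Pr_nonneg F
  have : 0 ≤ t' - t := by linarith
  rw [hc, Nat.add_sub_cancel, sub_sub_sub_cancel_left, sub_sub_cancel,
    show -(t * ((c + 1 : ℕ) : ℝ)) = ((c + 1 : ℕ) : ℝ) * -t by ring, exp_nat_mul, pow_succ]
  calc _ ≤ (t' - t) * exp (-t) * exp (-t) ^ c * a * b := by gcongr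
    _ = _ := by ring

theorem dep (h1 : KINV) (A : Finset (Fin N)) (u : ℝ) : Dep A {w | Kr (W w) A u} :=
  fun w w' h hw => (h1 N _ (W_symm w)).2.2.1 (W w') A u h hw

theorem p1_zero (S : Sol) (t : ℝ) : p1 S 0 t = 0 := by rw [p1, S.κz, mul_zero]

theorem p1_nonneg (S : Sol) (s : ℕ) {t : ℝ} (h : 0 ≤ t) : 0 ≤ p1 S s t :=
  mul_nonneg (by positivity) (S.κp t h s)

theorem p1_cont (h4 : PDER) (S : Sol) (s : ℕ) : Continuous (p1 S s) := by
  cases s with
  | zero => exact continuous_const.congr fun t => (p1_zero S t).symm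
  | succ s => exact continuous_iff_continuousAt.2 fun t => ((h4 S t).2.1 s).continuousAt

end Kone

open Kone

theorem kone (h1 : KINV) (h2 : IND) (h3 : DINI) (h4 : PDER) : KONE := by
  intro S N A
  induction A using Finset.strongInduction with | H A ih => ?_
  rintro t ⟨r, hr⟩ h0
  obtain ⟨s, hs⟩ : ∃ s, A.card = s + 1 := Nat.exists_eq_succ_of_ne_zero (card_pos.2 ⟨r, hr⟩).ne'
  rcases Nat.eq_zero_or_pos s with rfl | s0
  · rw [hs, zero_add, (h4 S t).1]
    exact Pr_le_one _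
  rw [hs]
  have key := h3 (fun t => Pr N {w | Kr (W w) A (1 - exp (-t))}) (p1 S (s + 1))
    fun t t' => ∑ i ∈ range (s + 1), (s.choose i : ℝ) * (((i + 1 : ℕ) : ℝ) * ((s - i : ℕ) : ℝ) *
      (exp (-(t * ((i + 1) * (s - i) : ℕ))) * p1 S (i + 1) t' * p1 S (s - i) t'))
  beta_reduce at key
  refine key ?_ (fun t => (h4 S t).2.1 s) ?_ (fun t t' h0 ht => ⟨?_, ?_⟩) t h0
  · have := p1_cont h4 S
    fun_prop
  · refine (Pr_null fun w hw => ?_).trans_le (p1_nonneg S _ le_rfl)
    simpa using (h1 N _ (W_symm w)).2.2.2.2.1 A _ hw (by omega)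
  · exact Pr_mono fun w hw => (h1 N _ (W_symm w)).1 A _ _
      (sub_le_sub_left (exp_le_exp.2 (neg_le_neg ht)) 1) hw
  have c1 : ∀ C ∈ (A.erase r).powerset, insert r C ⊆ A := fun C hC =>
    insert_subset hr ((mem_powerset.1 hC).trans (erase_subset _ _))
  have k := Pr_ex (A.erase r).powerset (fun C => insert r C) (fun C => A \ insert r C)
    (fun C x y =>
      {w | Blk (W w) (insert r C) (A \ insert r C) x y (1 - exp (-t)) (1 - exp (-t'))} ∩
        {w | Kr (W w) (insert r C) (1 - exp (-t'))} ∩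
        {w | Kr (W w) (A \ insert r C) (1 - exp (-t'))}) _ fun C hC x hx y hy =>
    step h2 disjoint_sdiff hx hy h0 ht (dep h1 _ _) (dep h1 _ _)
      (ih _ ((Finset.ssubset_iff_of_subset (c1 C hC)).2
        ⟨y, (mem_sdiff.1 hy).1, (mem_sdiff.1 hy).2⟩) t' (insert_nonempty _ _) (h0.trans ht))
      (ih _ (sdiff_ssubset (c1 C hC) (insert_nonempty _ _)) t' ⟨y, hy⟩ (h0.trans ht))
  refine Pr_or (fun w hw => ?_) (k.trans_eq ?_)
  · refine ((h1 N _ (W_symm w)).2.2.2.2.2.2.1 A (1 - exp (-t)) _ r hr hw).imp id ?_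
    rintro ⟨C, hC, x, hx, y, hy, a, b, c⟩
    exact ⟨C, hC, x, hx, y, hy, ⟨a, b⟩, c⟩
  have e := sum_powerset_apply_card (x := A.erase r) fun i => (t' - t) *
    (((i + 1 : ℕ) : ℝ) * ((s - i : ℕ) : ℝ) *
      (exp (-(t * ((i + 1) * (s - i) : ℕ))) * p1 S (i + 1) t' * p1 S (s - i) t'))
  rw [card_erase_of_mem hr, hs, Nat.add_sub_cancel] at e
  refine (sum_congr rfl fun C hC => ?_).trans (e.trans ?_)
  · have c2 : (insert r C).card = C.card + 1 :=
      card_insert_of_notMem fun h => notMem_erase r A (mem_powerset.1 hC h)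
    rw [card_sdiff_of_subset (c1 C hC), hs, c2, Nat.add_sub_add_right]
    ring
  · rw [mul_sum]
    exact sum_congr rfl fun i _ => by rw [nsmul_eq_mul]; ring

end Pool.Agent.MP_ddaf7c_pr.K

end MrgPart14

-- ======== part 15: formerly Pool.Agent.MP_ddaf7c_pr.K.Cut
section MrgPart15

set_option autoImplicit false

namespace Pool.Agent.MP_ddaf7c_pr.K

open SimpleGraph

theorem cut : CUT := by
  classical
  intro N w T hT hmin x y p q hxy hp hq hne
  have hb : ¬ (T.deleteEdges {s(x, y)}).Reachable x y :=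
    isBridge_iff.1 (isAcyclic_iff_forall_adj_isBridge.1 hT.isAcyclic hxy)
  have hpq : p ≠ q := by
    rintro rfl
    exact hb (hp.trans hq.symm)
  have hs : s(p, q) ≠ s(x, y) := by
    intro h
    rcases Sym2.eq_iff.1 h with ⟨rfl, rfl⟩ | ⟨rfl, rfl⟩
    · exact hne rfl
    · exact hb hp
  have hn : s(p, q) ∉ T.edgeSet := fun h =>
    hb (hp.trans ((deleteEdges_adj.2 ⟨h, hs⟩).reachable.trans hq.symm))
  obtain ⟨T', hT'⟩ : ∃ T', T' = T.deleteEdges {s(x, y)} ⊔ edge p q := ⟨_, rfl⟩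
  have hE : T'.edgeSet = insert s(p, q) (T.edgeSet \ {s(x, y)}) := by
    rw [hT', edgeSet_sup, edgeSet_deleteEdges, edgeSet_edge_of_ne hpq, Set.union_singleton]
  have hle : T.deleteEdges {s(x, y)} ≤ T' := hT' ▸ le_sup_left
  have hr : T'.Reachable x y := by
    have h1 : T'.Adj p q := by
      rw [← mem_edgeSet, hE]
      exact Set.mem_insert _ _
    exact (hp.mono hle).trans (h1.reachable.trans (hq.mono hle).symm)
  have hadj : ∀ a b, T.Adj a b → T'.Reachable a b := fun a b h => by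
    by_cases h1 : s(a, b) = s(x, y)
    · rcases Sym2.eq_iff.1 h1 with ⟨rfl, rfl⟩ | ⟨rfl, rfl⟩
      · exact hr
      · exact hr.symm
    · exact (hle (deleteEdges_adj.2 ⟨h, h1⟩)).reachable
  have hc : T'.Connected := by
    have := hT.connected.nonempty
    refine ⟨fun a b => ?_⟩
    obtain ⟨W⟩ := hT.connected.preconnected a b
    induction W with
    | nil => rfl
    | cons h _ ih => exact (hadj _ _ h).trans ih
  have htree : T'.IsTree := by
    refine isTree_iff_connected_and_card.2 ⟨hc, ?_⟩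
    rw [← (isTree_iff_connected_and_card.1 hT).2, Nat.card_coe_set_eq, Nat.card_coe_set_eq, hE,
      Set.ncard_exchange hn hxy]
  have hlt := hmin T' ⟨le_top, htree⟩ fun h => hn (by rw [← h, hE]; exact Set.mem_insert _ _)
  rw [W, W, dif_pos hxy.ne, dif_pos hpq]
  rw [weight, weight, ← sub_pos, ← Finset.sum_sub_distrib,
    Finset.sum_eq_add_of_mem (⟨s(p, q), hpq⟩ : Ed N) ⟨s(x, y), hxy.ne⟩ ?_ ?_
      (fun h => hs (congrArg Subtype.val h)) ?_] at hlt
  · have h1 : s(p, q) ∈ T'.edgeSet := hE ▸ Set.mem_insert _ _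
    have h2 : s(x, y) ∉ T'.edgeSet := by
      rw [hE]
      rintro (h | h)
      · exact hs h.symm
      · exact h.2 rfl
    rw [if_pos h1, if_neg hn, if_neg h2, if_pos (show s(x, y) ∈ T.edgeSet from hxy)] at hlt
    linarith
  · exact @Finset.mem_univ _ (_) _
  · exact @Finset.mem_univ _ (_) _
  · rintro c - ⟨h1, h2⟩
    have h3 : (c : Sym2 (Fin N)) ∈ T'.edgeSet ↔ (c : Sym2 (Fin N)) ∈ T.edgeSet := by
      rw [hE]
      exact ⟨fun h => (h.resolve_left fun h' => h1 (Subtype.ext h')).1,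
        fun h => Or.inr ⟨h, fun h' => h2 (Subtype.ext h')⟩⟩
    rw [if_congr h3 rfl rfl, sub_self]

end Pool.Agent.MP_ddaf7c_pr.K

end MrgPart15

-- ======== part 16: formerly Pool.Agent.MP_ddaf7c_pr.K.Link
section MrgPart16

/-! From the minimum spanning tree to the Kruskal predicates. -/

set_option autoImplicit false

namespace Pool.Agent.MP_ddaf7c_pr.K

open Finset Real MeasureTheory

namespace Link

variable {N : ℕ}

theorem Pr_eq (inst : Fintype (Ed N)) (E : Set (Ed N → ℝ)) : Pr N E = (cube (Ed N)).real E := by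
  unfold Pr
  congr
  exact Subsingleton.elim _ _

theorem pMST_eq (N : ℕ) : pMST (⊤ : SimpleGraph (Fin N)) = Pr N {w | ∃ T, IsSpanningTree ⊤ T ∧
    Splittable T ∧ ∀ T', IsSpanningTree ⊤ T' → T' ≠ T → weight ⊤ w T < weight ⊤ w T'} :=
  (Pr_eq _ _).symm

theorem W_symm (w : Ed N → ℝ) (x y : Fin N) : W w x y = W w y x := by
  unfold W
  by_cases h : x = y
  · simp [h]
  · rw [dif_pos h, dif_pos (Ne.symm h)]
    congr 2
    exact Sym2.eq_swap

theorem coord {ι : Type} [Fintype ι] (e : ι) {u : ℝ} (h1 : u ≤ 1) :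
    (cube ι).real {w | u < w e} ≤ 1 - u := by
  have h := (measurePreserving_eval (fun _ : ι => volume.restrict (Set.Icc (0 : ℝ) 1)) e).measure_preimage
    (measurableSet_Ioi (a := u)).nullMeasurableSet
  have h2 : (cube ι) {w | u < w e} ≤ ENNReal.ofReal (1 - u) := by
    refine h.le.trans ?_
    rw [Measure.restrict_apply measurableSet_Ioi, ← Real.volume_Ioc]
    exact measure_mono fun x hx => ⟨hx.1, hx.2.2⟩
  exact ENNReal.toReal_le_of_le_ofReal (by linarith) h2

theorem pair (x y : Fin N) {u : ℝ} (h0 : 0 ≤ u) (h1 : u ≤ 1) :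
    Pr N {w | u < W w x y} ≤ 1 - u := by
  classical
  rw [Pr_eq inferInstance]
  by_cases h : x = y
  · have : {w : Ed N → ℝ | u < W w x y} = ∅ := by
      ext w
      simp [W, h, h0]
    rw [this, measureReal_empty]
    linarith
  · simp only [W, dif_pos h]
    exact coord _ h1

theorem cover {α β : Type} (s : Finset α) (r : Finset β) (E : Set (Ed N → ℝ))
    (F : α → Set (Ed N → ℝ)) (G : β → Set (Ed N → ℝ))
    (h : ∀ w ∈ E, (∃ a ∈ s, w ∈ F a) ∨ ∃ b ∈ r, w ∈ G b) :
    Pr N E ≤ ∑ a ∈ s, Pr N (F a) + ∑ b ∈ r, Pr N (G b) := by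
  classical
  simp only [Pr_eq inferInstance]
  refine (measureReal_mono (s₂ := (⋃ a ∈ s, F a) ∪ ⋃ b ∈ r, G b) fun w hw => ?_).trans
    ((measureReal_union_le _ _).trans
      (add_le_add (measureReal_biUnion_finset_le _ _) (measureReal_biUnion_finset_le _ _)))
  simpa using h w hw

end Link

open Link in
theorem link (h1 : CUT) (h2 : TREE) (h3 : KTWO) : LINK := by
  intro S n t ht
  have e0 := exp_pos (-t)
  have e1 : exp (-t) ≤ 1 := exp_le_one_iff.2 (by linarith)
  rw [pMST_eq]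
  refine (cover (powersetCard n (univ : Finset (Fin (2 * n)))) (univ : Finset (Fin (2 * n) × Fin (2 * n)))
    _ (fun A => {w | Kr2 (W w) A Aᶜ (1 - exp (-t))}) (fun p => {w | 1 - exp (-t) < W w p.1 p.2})
    ?_).trans (add_le_add ?_ ?_)
  · rintro w ⟨T, hT, hs, hm⟩
    by_cases hc : ∀ x y, W w x y ≤ 1 - exp (-t)
    · obtain ⟨A, a1, a2⟩ := h2 _ (W w) T _ (W_symm w) hT.2 hs hc (h1 _ w T hT.2 hm)
      exact Or.inl ⟨A, mem_powersetCard.2 ⟨subset_univ _, by omega⟩, a2⟩
    · push Not at hc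
      obtain ⟨x, y, h⟩ := hc
      exact Or.inr ⟨(x, y), mem_univ _, h⟩
  · refine (sum_le_card_nsmul _ _ (p2 S n n t) fun A hA => ?_).trans (le_of_eq ?_)
    · have a1 := (mem_powersetCard.1 hA).2
      have a2 : Aᶜ.card = n := by
        rw [card_compl, Fintype.card_fin, a1]
        omega
      have := h3 S _ A Aᶜ t ht
      rwa [a1, a2] at this
    · have a1 := Nat.choose_mul_factorial_mul_factorial (show n ≤ 2 * n by omega)
      rw [show 2 * n - n = n by omega] at a1
      rw [card_powersetCard, card_univ, Fintype.card_fin, nsmul_eq_mul, zz, wt, p2,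
        Nat.descFactorial_self, ← a1]
      have a2 : -(((n : ℝ) + n) ^ 2 * t / 2) =
          ((2 * n : ℕ) : ℝ) ^ 2 * t / 2 - t * ((2 * n : ℕ) : ℝ) * ((2 * n : ℕ) : ℝ) := by
        push_cast
        ring
      rw [a2]
      push_cast
      ring
  · refine (sum_le_card_nsmul _ _ (exp (-t)) fun p _ => ?_).trans (le_of_eq ?_)
    · exact (pair p.1 p.2 (by linarith) (by linarith)).trans (by linarith)
    · rw [card_univ, Fintype.card_prod, Fintype.card_fin, nsmul_eq_mul]
      push_cast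
      ring

end Pool.Agent.MP_ddaf7c_pr.K

end MrgPart16

-- ======== part 17: formerly Pool.Agent.MP_ddaf7c_pr.K.All
section MrgPart17

set_option autoImplicit false

namespace Pool.Agent.MP_ddaf7c_pr.K

open Real Filter Topology

theorem mid_all : MID := mid (stepa atom) stepd stepc nag

theorem core_all : CORE :=
  core (init (two gen1 (gen2 mass)))
    (der mass (der1 mass (gen2 mass)) (sub gen1 (gen2 mass)) (crude mass (gen2 mass)) gap
      (big mass (lam gen1)))
    (tail mass (crude mass (gen2 mass))) (zpsi mid_all)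

theorem link_all : LINK :=
  link cut tree (ktwo kinv ind dini pder (kone kinv ind dini pder))

theorem ust_all : UST := ust pit upp low

theorem pMST_le_bnd (n d : ℕ) (ε t1 : ℝ) (h : Adm (2 * n) d ε t1) :
    pMST (⊤ : SimpleGraph (Fin (2 * n))) ≤ bnd (2 * n) d ε t1 := by
  obtain ⟨S⟩ := ex
  have hlim : Tendsto (fun t : ℝ => bnd (2 * n) d ε t1 + (2 * n : ℝ) ^ 2 * exp (-t)) atTop
      (𝓝 (bnd (2 * n) d ε t1 + (2 * n : ℝ) ^ 2 * 0)) :=
    tendsto_const_nhds.add (tendsto_exp_neg_atTop_nhds_zero.const_mul _)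
  rw [mul_zero, add_zero] at hlim
  refine ge_of_tendsto hlim ?_
  filter_upwards [eventually_ge_atTop t1, eventually_ge_atTop 0] with t h1 h0
  have := core_all S n d ε t1 t h h1
  have := link_all S n t h0
  linarith

theorem pMST_le_rpow (η : ℝ) (hη : 0 < η) : ∃ N0 : ℕ, ∀ N ≥ N0, Even N →
    pMST (⊤ : SimpleGraph (Fin N)) ≤ (N : ℝ) ^ (-(2 / 3 : ℝ) + η) := by
  obtain ⟨N0, h⟩ := asy η hη
  refine ⟨N0, fun N hN hev => ?_⟩
  obtain ⟨n, rfl⟩ : ∃ n, N = 2 * n := by obtain ⟨n, hn⟩ := hev; exact ⟨n, by omega⟩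
  obtain ⟨d, ε, t1, hA, hb⟩ := h _ hN
  exact (pMST_le_bnd n d ε t1 hA).trans hb

theorem rpow_le_pUST (N : ℕ) (hN : 1 ≤ N) (hev : Even N) :
    (N : ℝ) ^ (-(1 / 2 : ℝ)) ≤ pUST (⊤ : SimpleGraph (Fin N)) := by
  obtain ⟨n, rfl⟩ : ∃ n, N = 2 * n := by obtain ⟨n, hn⟩ := hev; exact ⟨n, by omega⟩
  have hn : 1 ≤ n := by omega
  refine le_trans ?_ (ust_all n hn)
  have hn0 : (0 : ℝ) < n := by exact_mod_cast hn
  rw [rpow_neg (Nat.cast_nonneg _), ← sqrt_eq_rpow, one_div]
  refine inv_anti₀ (sqrt_pos.2 hn0) (sqrt_le_sqrt ?_)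
  push_cast; linarith

theorem ratio (η : ℝ) (hη : 0 < η) : ∃ N0 : ℕ, ∀ N ≥ N0, Even N →
    pMST (⊤ : SimpleGraph (Fin N)) ≤
      (N : ℝ) ^ (-(1 / 6 : ℝ) + η) * pUST (⊤ : SimpleGraph (Fin N)) := by
  obtain ⟨N0, h⟩ := pMST_le_rpow η hη
  refine ⟨max N0 1, fun N hN hev => ?_⟩
  have h1 : 1 ≤ N := le_trans (le_max_right _ _) hN
  have hN0 : (0 : ℝ) < N := by exact_mod_cast h1
  refine (h N (le_trans (le_max_left _ _) hN) hev).trans ?_
  have e : (N : ℝ) ^ (-(2 / 3 : ℝ) + η) =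
      (N : ℝ) ^ (-(1 / 6 : ℝ) + η) * (N : ℝ) ^ (-(1 / 2 : ℝ)) := by
    rw [← rpow_add hN0]; congr 1; ring
  rw [e]
  exact mul_le_mul_of_nonneg_left (rpow_le_pUST N h1 hev) (rpow_nonneg hN0.le _)

end Pool.Agent.MP_ddaf7c_pr.K

end MrgPart17

-- marker of a merged file
example : 731051 + 339445 = 731051 + 339445 := rfl
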