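import Mathlib
import Pool.Agent.MP_ddaf7c_pr.K.Spec

set_option autoImplicit false

namespace Pool.Agent.MP_ddaf7c_pr.K

open Finset Real

namespace GenAll

theorem wt_zero {M k : ℕ} (h : M < k) (t : ℝ) : wt M k t = 0 := by
  simp [wt, Nat.descFactorial_eq_zero_iff_lt.2 h]

theorem wt_nonneg (M k : ℕ) (t : ℝ) : 0 ≤ wt M k t := by unfold wt; positivity

theorem wt_add (M k j : ℕ) (t : ℝ) : wt M (k + j) t = wt M k t * wt (M - k) j t := by
  rcases lt_or_ge M k with h | h
  · rw [wt_zero h, wt_zero (by omega), zero_mul]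
  · have e := Nat.descFactorial_mul_descFactorial (n := M) (Nat.le_add_right k j)
    rw [Nat.add_sub_cancel_left] at e
    unfold wt
    rw [← e, mul_mul_mul_comm, ← exp_add, Nat.cast_sub h]
    push_cast
    congr 1
    · ring
    · congr 1; ring

theorem wt_sub (M k : ℕ) (t : ℝ) : wt M k t * ((M - k : ℕ) : ℝ) = wt M k t * (M - k) := by
  rcases lt_or_ge M k with h | h
  · rw [wt_zero h, zero_mul, zero_mul]
  · rw [Nat.cast_sub h]

theorem wt_deriv (M k : ℕ) (t : ℝ) :
    HasDerivAt (fun τ => wt M k τ) (((k : ℝ) ^ 2 / 2 - k * M) * wt M k t) t := by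
  have h := (((hasDerivAt_id' t).const_mul ((k : ℝ) ^ 2)).div_const 2).fun_sub
    (((hasDerivAt_id' t).mul_const (k : ℝ)).mul_const (M : ℝ))
  unfold wt
  refine (h.exp.const_mul (M.descFactorial k : ℝ)).congr_deriv ?_
  ring

theorem I1_ext (S : Sol) {M L : ℕ} (h : M ≤ L) (φ : ℕ → ℝ) (t : ℝ) :
    I1 S M φ t = ∑ k ∈ range (L + 1), wt M k t * S.κ t k * φ k := by
  refine sum_subset (range_mono (by omega)) fun k _ hk => ?_
  rw [wt_zero (by simpa [Nat.lt_succ_iff] using hk), zero_mul, zero_mul]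

theorem conv (M : ℕ) (F : ℕ → ℕ → ℝ) :
    ∑ k ∈ range (M + 1), ∑ p ∈ antidiagonal k, F p.1 p.2 =
      ∑ i ∈ range (M + 1), ∑ j ∈ range (M - i + 1), F i j := by
  simp only [Finset.Nat.sum_antidiagonal_eq_sum_range_succ F]
  rw [sum_range_diag_flip]
  refine sum_congr rfl fun i hi => ?_
  rw [mem_range] at hi
  rw [show M + 1 - i = M - i + 1 by omega]

/-- the transport term after exchanging the sums -/
theorem transport (S : Sol) (M b : ℕ) (g ψ : ℕ → ℝ) (t : ℝ) :
    ∑ a ∈ range (M + 1), wt M (a + b) t * (∑ p ∈ antidiagonal a, (p.1 : ℝ) * g p.1 * S.κ t p.2) *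
        ψ a =
      ∑ a ∈ range (M + 1), wt M (a + b) t * g a *
        (a * I1 S (M - (a + b)) (fun s => ψ (a + s)) t) := by
  have e : ∀ a ∈ range (M + 1),
      wt M (a + b) t * (∑ p ∈ antidiagonal a, (p.1 : ℝ) * g p.1 * S.κ t p.2) * ψ a =
      ∑ p ∈ antidiagonal a, wt M (p.1 + b) t * g p.1 *
        (p.1 * (wt (M - (p.1 + b)) p.2 t * S.κ t p.2 * ψ (p.1 + p.2))) := by
    intro a _
    rw [mul_sum, sum_mul]
    refine sum_congr rfl fun p hp => ?_
    rw [← mem_antidiagonal.1 hp, show p.1 + p.2 + b = p.1 + b + p.2 by ring, wt_add]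
    ring
  rw [sum_congr rfl e, conv M fun i j => wt M (i + b) t * g i *
    (i * (wt (M - (i + b)) j t * S.κ t j * ψ (i + j)))]
  refine sum_congr rfl fun i _ => ?_
  rw [I1_ext S (show M - (i + b) ≤ M - i by omega), mul_sum, mul_sum]

theorem raw1 (S : Sol) (M : ℕ) (φ : ℝ → ℕ → ℝ) (φ' : ℕ → ℝ) (t : ℝ)
    (h : ∀ k, HasDerivAt (fun τ => φ τ k) (φ' k) t) :
    HasDerivAt (fun τ => I1 S M (φ τ) τ)
      (I1 S M (fun k => φ' k + k * (I1 S (M - k) (fun s => φ t (k + s)) t -
        ((M - k : ℕ) : ℝ) * φ t k)) t) t := by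
  have d := HasDerivAt.fun_sum (u := range (M + 1)) fun k _ =>
    ((wt_deriv M k t).fun_mul (S.dκ k t)).fun_mul (h k)
  have tr := transport S M 0 (S.κ t) (φ t) t
  simp only [add_zero] at tr
  refine d.congr_deriv (Eq.symm ?_)
  rw [← sub_eq_zero, I1, ← sum_sub_distrib, ← sub_eq_zero.2 tr.symm, ← sum_sub_distrib]
  refine sum_congr rfl fun k _ => ?_
  unfold V1
  linear_combination (-(S.κ t k * k * φ t k)) * wt_sub M k t

theorem I1_sub (S : Sol) (M : ℕ) (φ : ℕ → ℝ) (c t : ℝ) :
    I1 S M (fun s => φ s - c) t = I1 S M φ t - I1 S M (fun _ => 1) t * c := by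
  simp only [I1, sum_mul, ← sum_sub_distrib]
  exact sum_congr rfl fun k _ => by ring

theorem mass : MASS := by
  intro S M
  induction M using Nat.strong_induction_on with
  | _ M ih =>
    have d : ∀ t, HasDerivAt (fun τ => I1 S M (fun _ => 1) τ) 0 t := by
      intro t
      refine (raw1 S M (fun _ _ => 1) (fun _ => 0) t fun _ => hasDerivAt_const _ _).congr_deriv
        (sum_eq_zero fun k hk => ?_)
      rw [mem_range] at hk
      rcases Nat.eq_zero_or_pos k with rfl | h
      · simp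
      · simp [ih (M - k) (by omega) t]
    intro t
    rw [is_const_of_deriv_eq_zero (fun t => (d t).differentiableAt) (fun t => (d t).deriv) t 0]
    simp only [I1, S.κi, wt]
    rcases Nat.eq_zero_or_pos M with rfl | h
    · simp
    · rw [sum_eq_single 1] <;> simp +contextual

theorem gen1 : GEN1 := by
  intro S M φ φ' t h
  simpa only [I1_sub, mass S] using raw1 S M φ φ' t h

theorem gen2 : GEN2 := by
  intro S M φ φ' t h
  have d := HasDerivAt.fun_sum (u := range (M + 1)) fun a _ =>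
    HasDerivAt.fun_sum (u := range (M + 1)) fun b _ =>
      ((wt_deriv M (a + b) t).fun_mul (by exact S.dB a b t)).fun_mul (h a b)
  have t1 := sum_congr (s₁ := range (M + 1)) rfl fun b _ =>
    transport S M b (fun a => S.B t a b) (fun a => φ t a b) t
  have t2 := sum_congr (s₁ := range (M + 1)) rfl fun a _ =>
    transport S M a (fun b => S.B t a b) (fun b => φ t a b) t
  rw [sum_comm, eq_comm, sum_comm] at t1
  have t3 : I1 S M (fun a => I1 S (M - a) (fun b => φ t a b) t) t =
      ∑ a ∈ range (M + 1), ∑ b ∈ range (M + 1),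
        wt M (a + b) t * (S.κ t a * S.κ t b) * φ t a b := by
    refine sum_congr rfl fun a _ => ?_
    simp only [I1_ext S (Nat.sub_le M a), mul_sum, wt_add]
    exact sum_congr rfl fun b _ => by ring
  refine d.congr_deriv (Eq.symm ?_)
  have z := sub_eq_zero.2 t1
  have z2 := sub_eq_zero.2 t2.symm
  rw [t3, ← sub_eq_zero, ← add_zero (0 : ℝ)]
  nth_rewrite 2 [← z2]
  rw [← z]
  simp only [I2, I1_sub, mass S, ← sum_sub_distrib, ← sum_add_distrib]
  refine sum_congr rfl fun a _ => sum_congr rfl fun b _ => ?_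
  have := wt_sub M (a + b) t
  unfold V2
  rw [add_comm b a]
  push_cast at this ⊢
  linear_combination (-(S.B t a b * (a + b) * φ t a b)) * this

end GenAll

end Pool.Agent.MP_ddaf7c_pr.K
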